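import Pool.Agent.K6.H53.NB.Esc2

set_option autoImplicit false

/-!
# Angular momentum and partitions into clusters
-/

namespace Pool.Agent.K6.H53.NB

open Finset Set Filter Topology

variable {N : ℕ} {V : Type*} [NormedAddCommGroup V] [InnerProductSpace ℝ V]

/-- skew contraction -/
structure Skew (Jo : V →L[ℝ] V) : Prop where
  le : ∀ z, ‖Jo z‖ ≤ ‖z‖
  sk : ∀ z, inner ℝ (Jo z) z = (0 : ℝ)

theorem Skew.symm {Jo : V →L[ℝ] V} (h : Skew Jo) (z w : V) :
    inner ℝ (Jo z) w = -inner ℝ (Jo w) z := by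
  have h1 := h.sk (z + w)
  rw [map_add, inner_add_left, inner_add_right, inner_add_right, h.sk, h.sk] at h1
  linarith

/-- angular momentum -/
noncomputable def om (m : Fin N → ℝ) (Jo : V →L[ℝ] V) (x y : Fin N → V) : ℝ :=
  dil m (fun i => Jo (x i)) y

theorem om_sq_le {m : Fin N → ℝ} (hm : ∀ i, 0 < m i) {Jo : V →L[ℝ] V} (hJ : Skew Jo)
    (x y : Fin N → V) : om m Jo x y ^ 2 ≤ iner m x * iner m y := by
  refine (dil_sq_le hm _ _).trans (mul_le_mul_of_nonneg_right ?_ (iner_nonneg hm y))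
  unfold iner
  exact Finset.sum_le_sum fun i _ => mul_le_mul_of_nonneg_left
    (pow_le_pow_left₀ (norm_nonneg _) (hJ.le _) 2) (hm i).le

theorem om_self {m : Fin N → ℝ} {Jo : V →L[ℝ] V} (hJ : Skew Jo) (x : Fin N → V) :
    om m Jo x x = 0 := by
  unfold om dil
  exact Finset.sum_eq_zero fun i _ => by rw [hJ.sk, mul_zero]

theorem om_symm {m : Fin N → ℝ} {Jo : V →L[ℝ] V} (hJ : Skew Jo) (x y : Fin N → V) :
    om m Jo x y = -om m Jo y x := by
  unfold om dil
  rw [← Finset.sum_neg_distrib]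
  refine Finset.sum_congr rfl fun i _ => ?_
  rw [hJ.symm]
  ring

theorem dil_sub_right (m : Fin N → ℝ) (x y z : Fin N → V) :
    dil m x (fun i => y i - z i) = dil m x y - dil m x z := by
  unfold dil
  rw [← Finset.sum_sub_distrib]
  refine Finset.sum_congr rfl fun i _ => ?_
  rw [inner_sub_right]
  ring

theorem dil_smul_right (m : Fin N → ℝ) (x y : Fin N → V) (c : ℝ) :
    dil m x (fun i => c • y i) = c * dil m x y := by
  unfold dil
  rw [Finset.mul_sum]
  refine Finset.sum_congr rfl fun i _ => ?_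
  rw [inner_smul_right]
  ring

theorem om_sub_right (m : Fin N → ℝ) (Jo : V →L[ℝ] V) (x y z : Fin N → V) :
    om m Jo x (fun i => y i - z i) = om m Jo x y - om m Jo x z := dil_sub_right m _ y z

theorem om_smul_right (m : Fin N → ℝ) (Jo : V →L[ℝ] V) (x y : Fin N → V) (c : ℝ) :
    om m Jo x (fun i => c • y i) = c * om m Jo x y := dil_smul_right m _ y c

theorem om_sub_left (m : Fin N → ℝ) (Jo : V →L[ℝ] V) (x y z : Fin N → V) :
    om m Jo (fun i => x i - y i) z = om m Jo x z - om m Jo y z := by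
  unfold om
  rw [dil_comm m _ z, dil_comm m _ z, dil_comm m _ z, ← dil_sub_right]
  simp only [map_sub]

/-- projection property -/
theorem om_cmean {m : Fin N → ℝ} (hm : ∀ i, 0 < m i) (Jo : V →L[ℝ] V) (A : Fin N → Fin N)
    (x y : Fin N → V) (hx : ∀ i j, A i = A j → x i = x j) :
    om m Jo x (cmean m A y) = om m Jo x y := by
  unfold om
  rw [dil_comm m _ (cmean m A y), dil_comm m _ y]
  exact cmean_inner hm A y (fun i => Jo (x i)) fun i j h => by rw [hx i j h]

theorem om_mid {m : Fin N → ℝ} (hm : ∀ i, 0 < m i) {Jo : V →L[ℝ] V} (hJ : Skew Jo)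
    (A : Fin N → Fin N) (x y : Fin N → V) :
    om m Jo x (cmean m A y) = om m Jo (cmean m A x) (cmean m A y) := by
  rw [om_symm hJ, om_symm hJ (cmean m A x)]
  rw [om_cmean hm Jo A (cmean m A y) x fun i j h => cmean_congr m A y h]

/-- the last step -/
theorem om_last {m : Fin N → ℝ} (hm : ∀ i, 0 < m i) {Jo : V →L[ℝ] V}
    (A : Fin N → Fin N) (x y : Fin N → V) :
    om m Jo x y = om m Jo (cmean m A x) (cmean m A y) +
      om m Jo (fun i => x i - cmean m A x i) y := by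
  rw [om_sub_left, om_cmean hm Jo A (cmean m A x) y fun i j h => cmean_congr m A x h]
  ring

/-- one step: `A'` is finer than `A` -/
theorem om_step {m : Fin N → ℝ} (hm : ∀ i, 0 < m i) {Jo : V →L[ℝ] V} (hJ : Skew Jo)
    (A A' : Fin N → Fin N) (hAA : ∀ i j, A' i = A' j → A i = A j) (x y : Fin N → V) (c : ℝ) :
    om m Jo (cmean m A' x) (cmean m A' y) = om m Jo (cmean m A x) (cmean m A y) +
      om m Jo (fun i => x i - cmean m A x i)
        (fun i => cmean m A' y i - c • cmean m A' x i) := by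
  have hA : ∀ i j, A i = A j → cmean m A x i = cmean m A x j := fun i j h => cmean_congr m A x h
  have hA' : ∀ i j, A' i = A' j → cmean m A x i = cmean m A x j := fun i j h =>
    hA i j (hAA i j h)
  rw [om_sub_right, om_smul_right, om_sub_left, om_sub_left, om_mid hm hJ A' x y,
    om_mid hm hJ A' x x, om_self hJ, om_cmean hm Jo A' (cmean m A x) y hA',
    om_cmean hm Jo A' (cmean m A x) x hA', om_cmean hm Jo A (cmean m A x) y hA]
  have e : om m Jo (cmean m A x) x = 0 := by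
    rw [← om_cmean hm Jo A (cmean m A x) x hA, om_self hJ]
  rw [e]
  ring

/-- the first step -/
theorem om_first {m : Fin N → ℝ} {Jo : V →L[ℝ] V} (hJ : Skew Jo)
    (A : Fin N → Fin N) (x y : Fin N → V) (c : ℝ) :
    om m Jo (cmean m A x) (cmean m A y) = om m Jo (cmean m A x)
        (fun i => cmean m A y i - c • cmean m A x i) := by
  rw [om_sub_right, om_smul_right, om_self hJ]
  ring

theorem iner_sub_smul (m : Fin N → ℝ) (x y : Fin N → V) (c : ℝ) :
    iner m (fun i => y i - c • x i) = iner m y - 2 * c * dil m x y + c ^ 2 * iner m x := by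
  unfold iner dil
  rw [Finset.mul_sum, Finset.mul_sum, ← Finset.sum_sub_distrib, ← Finset.sum_add_distrib]
  refine Finset.sum_congr rfl fun i _ => ?_
  rw [norm_sub_sq_real, inner_smul_right, norm_smul, mul_pow, Real.norm_eq_abs, sq_abs,
    real_inner_comm]
  ring

/-- transversal kinetic energy at scale `δ` -/
noncomputable def Mp (m : Fin N → ℝ) (θ δ : ℝ) (A : Fin N → Fin N) (x y : Fin N → V) : ℝ :=
  iner m (cmean m A y) - dil m (cmean m A x) (cmean m A y) ^ 2 / Fn m θ δ A x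

theorem iner_le_Mp {m : Fin N → ℝ} (hm : ∀ i, 0 < m i) {θ δ : ℝ} (hθ : 0 ≤ θ)
    (A : Fin N → Fin N) (x y : Fin N → V) :
    iner m (fun i => cmean m A y i -
      (dil m (cmean m A x) (cmean m A y) / Fn m θ δ A x) • cmean m A x i) ≤
      Mp m θ δ A x y := by
  rw [iner_sub_smul]
  unfold Mp
  have hF : iner m (cmean m A x) ≤ Fn m θ δ A x := by
    unfold Fn
    have := pen_nonneg hθ A
    have : 0 ≤ pen θ A * δ ^ 2 := by positivity
    linarith
  have h0 := iner_nonneg hm (cmean m A x)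
  rcases (h0.trans hF).eq_or_lt with h | h
  · rw [← h]
    simp
  · set P := dil m (cmean m A x) (cmean m A y) with hP
    set F := Fn m θ δ A x with hFd
    have h1 : (P / F) ^ 2 * iner m (cmean m A x) ≤ (P / F) ^ 2 * F :=
      mul_le_mul_of_nonneg_left hF (sq_nonneg _)
    have h2 : (P / F) ^ 2 * F = P ^ 2 / F := by
      field_simp
    have h3 : 2 * (P / F) * P = 2 * (P ^ 2 / F) := by ring
    linarith

theorem Mp_nonneg {m : Fin N → ℝ} (hm : ∀ i, 0 < m i) {θ δ : ℝ} (hθ : 0 ≤ θ)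
    (A : Fin N → Fin N) (x y : Fin N → V) : 0 ≤ Mp m θ δ A x y :=
  (iner_nonneg hm _).trans (iner_le_Mp hm hθ A x y)

/-- the sum of the penalties -/
noncomputable def nuc (N : ℕ) (θ : ℝ) : ℝ := ∑ l ∈ range N, θ ^ l

theorem nuc_nonneg (N : ℕ) {θ : ℝ} (hθ : 0 ≤ θ) : 0 ≤ nuc N θ :=
  Finset.sum_nonneg fun _ _ => pow_nonneg hθ _

/-- the clusters of a maximal partition are small -/
theorem small {m : Fin N → ℝ} (hm : ∀ i, 0 < m i) {θ δ : ℝ} (hθ : 0 ≤ θ)
    (A : Fin N → Fin N) (x : Fin N → V) (hmax : ∀ B, Fn m θ δ B x ≤ Fn m θ δ A x) :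
    iner m (fun i => x i - cmean m A x i) ≤ nuc N θ * δ ^ 2 := by
  have h1 := iner_split hm A x
  have h2 := hmax id
  rw [Fn_id hm] at h2
  unfold Fn at h2
  have h3 := mul_le_mul_of_nonneg_right (pen_le hθ A) (sq_nonneg δ)
  unfold nuc
  linarith

/-- maximal partitions at a much smaller scale are finer -/
theorem nested {m : Fin N → ℝ} {μ M θ : ℝ} (hms : Mass m μ M θ) {δ δ' : ℝ}
    (hδ : 8 * M * nuc N θ * δ' ^ 2 < μ * δ ^ 2)
    (A A' : Fin N → Fin N) (x : Fin N → V) (hmax : ∀ B, Fn m θ δ B x ≤ Fn m θ δ A x)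
    (hmax' : ∀ B, Fn m θ δ' B x ≤ Fn m θ δ' A' x) (i j : Fin N) (hij : A' i = A' j) :
    A i = A j := by
  by_contra hne
  have hθ0 : 0 ≤ θ := zero_le_one.trans hms.hθ1
  have hij' : i ≠ j := fun h => hne (by rw [h])
  obtain ⟨-, h1⟩ := sep hms.μ0 hms.hm hms.hM hms.hθ hms.hθ1 A x hmax i j hne
  have h2 := small hms.pos hθ0 A' x hmax'
  have h3 : μ * (‖x i - cmean m A' x i‖ ^ 2 + ‖x j - cmean m A' x j‖ ^ 2) ≤
      iner m (fun i => x i - cmean m A' x i) := by
    unfold iner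
    have h4 : ∑ l ∈ ({i, j} : Finset (Fin N)), m l * ‖x l - cmean m A' x l‖ ^ 2 ≤
        ∑ l, m l * ‖x l - cmean m A' x l‖ ^ 2 :=
      Finset.sum_le_sum_of_subset_of_nonneg (Finset.subset_univ _) fun l _ _ =>
        mul_nonneg (hms.pos l).le (sq_nonneg _)
    rw [Finset.sum_pair hij'] at h4
    have h5 := mul_le_mul_of_nonneg_right (hms.hm i) (sq_nonneg ‖x i - cmean m A' x i‖)
    have h6 := mul_le_mul_of_nonneg_right (hms.hm j) (sq_nonneg ‖x j - cmean m A' x j‖)
    linarith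
  have h4 : ‖x i - x j‖ ^ 2 ≤
      2 * (‖x i - cmean m A' x i‖ ^ 2 + ‖x j - cmean m A' x j‖ ^ 2) := by
    have e : x i - x j = (x i - cmean m A' x i) - (x j - cmean m A' x j) := by
      rw [cmean_congr m A' x hij]
      abel
    have h5 : ‖x i - x j‖ ≤ ‖x i - cmean m A' x i‖ + ‖x j - cmean m A' x j‖ := by
      rw [e]
      exact norm_sub_le _ _
    have h6 := pow_le_pow_left₀ (norm_nonneg _) h5 2
    nlinarith [sq_nonneg (‖x i - cmean m A' x i‖ - ‖x j - cmean m A' x j‖)]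
  have hM0 := hms.M0
  have hμ0 := hms.μ0
  have h5 : μ * δ ^ 2 ≤ 4 * M * (μ * ‖x i - x j‖ ^ 2) := by
    calc μ * δ ^ 2 ≤ μ * (4 * M * ‖x i - x j‖ ^ 2) := mul_le_mul_of_nonneg_left h1 hμ0.le
      _ = _ := by ring
  have h6 : μ * ‖x i - x j‖ ^ 2 ≤ 2 * (nuc N θ * δ' ^ 2) := by
    calc μ * ‖x i - x j‖ ^ 2 ≤
        μ * (2 * (‖x i - cmean m A' x i‖ ^ 2 + ‖x j - cmean m A' x j‖ ^ 2)) :=
          mul_le_mul_of_nonneg_left h4 hμ0.le
      _ = 2 * (μ * (‖x i - cmean m A' x i‖ ^ 2 + ‖x j - cmean m A' x j‖ ^ 2)) := by ring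
      _ ≤ _ := by linarith
  have h7 := mul_le_mul_of_nonneg_left h6 (by positivity : (0:ℝ) ≤ 4 * M)
  nlinarith

end Pool.Agent.K6.H53.NB
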