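import Pool.Agent.K6.H53.NB.Orig

set_option autoImplicit false
set_option linter.unusedSectionVars false

/-!
# Solutions in physical time near a phase point
-/

namespace Pool.Agent.K6.H53.NB

open Set Filter Topology Pool.Agent.Y516.NW

variable {N : ℕ}

/-- the vector field in physical time -/
noncomputable def Z1 (m : Fin N → ℝ) : Cfg N × Cfg N → Cfg N × Cfg N := Z m fun _ => 1

theorem Z1_contDiffAt (m : Fin N → ℝ) (x : Cfg N × Cfg N) (hx : x ∈ Free N) :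
    ContDiffAt ℝ 1 (Z1 m) x := by
  unfold Z1 Z
  have h0 : ∀ i : Fin N, ContDiff ℝ 1 fun f : Fin N → E3 => f i := fun i =>
    contDiff_apply ℝ E3 i
  have h1 : ∀ i : Fin N, ContDiff ℝ 1 fun y : Cfg N × Cfg N => y.1 i := fun i =>
    (h0 i).comp contDiff_fst
  have h2 : ∀ i : Fin N, ContDiff ℝ 1 fun y : Cfg N × Cfg N => y.2 i := fun i =>
    (h0 i).comp contDiff_snd
  have h3 : ContDiffAt ℝ 1 (fun _ : Cfg N × Cfg N => (1:ℝ)) x := contDiffAt_const
  refine h3.smul (ContDiffAt.prodMk ?_ ?_)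
  · exact contDiffAt_pi.2 fun i => ((h2 i).const_smul ((m i)⁻¹)).contDiffAt
  · refine contDiffAt_pi.2 fun i => ContDiffAt.sum fun j _ => ?_
    by_cases hij : j = i
    · subst hij
      simp only [sub_self, smul_zero]
      exact contDiffAt_const
    · have h3 : ContDiffAt ℝ 1 (fun y : Cfg N × Cfg N => y.1 j - y.1 i) x :=
        ((h1 j).sub (h1 i)).contDiffAt
      have h4 : x.1 j - x.1 i ≠ 0 := sub_ne_zero.2 (hx j i hij)
      exact ((contDiffAt_const.div ((h3.norm ℝ h4).pow 3)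
        (pow_ne_zero 3 (norm_ne_zero_iff.2 h4))).smul h3)

/-- a tube around a phase point -/
theorem tube (m : Fin N → ℝ) (x : Cfg N × Cfg N) (hx : x ∈ Free N) {U : Set (Cfg N × Cfg N)}
    (hU : U ∈ 𝓝 x) :
    ∃ ρ > 0, ∃ s0 > 0, ∃ C > 0, ∀ s ≤ s0, 0 ≤ s → ∀ X Y : ℝ → Cfg N × Cfg N,
      (∀ t ∈ Icc 0 s, HasDerivAt X (Z1 m (X t)) t) → (∀ t ∈ Icc 0 s, HasDerivAt Y (Z1 m (Y t)) t) →
      X 0 ∈ Metric.ball x ρ → Y 0 ∈ Metric.ball x ρ →
      (∀ t ∈ Icc 0 s, X t ∈ U) ∧ (∀ t ∈ Icc 0 s, Y t ∈ U) ∧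
        ∀ t ∈ Icc 0 s, dist (X t) (Y t) ≤ C * dist (X 0) (Y 0) := by
  obtain ⟨K, W, hW, hlip⟩ := (Z1_contDiffAt m x hx).exists_lipschitzOnWith
  have h2 : ∀ᶠ y in 𝓝 x, ‖Z1 m y‖ < ‖Z1 m x‖ + 1 :=
    ((Z1_contDiffAt m x hx).continuousAt.norm).eventually_lt_const (lt_add_one _)
  obtain ⟨ρ, hρ, hball⟩ := Metric.eventually_nhds_iff_ball.1 ((eventually_mem_set.2 hW).and
    ((eventually_mem_set.2 hU).and h2))
  obtain ⟨L, hL⟩ : ∃ L, L = ‖Z1 m x‖ + 1 := ⟨_, rfl⟩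
  have hLp : 0 < L := by rw [hL]; positivity
  have hs0 : 0 < ρ / (4 * L) := by positivity
  refine ⟨ρ / 2, by positivity, ρ / (4 * L), hs0, Real.exp (K * (ρ / (4 * L))), Real.exp_pos _, ?_⟩
  intro s hss hs0' X Y hX hY hX0 hY0
  have hstay : ∀ X : ℝ → Cfg N × Cfg N, (∀ t ∈ Icc 0 s, HasDerivAt X (Z1 m (X t)) t) →
      X 0 ∈ Metric.ball x (ρ / 2) → ∀ t ∈ Icc 0 s, X t ∈ Metric.ball x ρ := by
    intro X hX hX0
    by_contra hcon
    push Not at hcon
    obtain ⟨t, ht, htb⟩ := hcon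
    let A : Set ℝ := {u | u ∈ Icc 0 t ∧ ρ ≤ ‖X u - x‖}
    have hsub : Icc 0 t ⊆ Icc 0 s := Icc_subset_Icc_right ht.2
    have hcl : IsClosed A := by
      have h1 : ContinuousOn (fun u => ‖X u - x‖) (Icc 0 t) := fun u hu =>
        (((hX u (hsub hu)).continuousAt.sub continuousAt_const).norm).continuousWithinAt
      exact h1.preimage_isClosed_of_isClosed isClosed_Icc (isClosed_Ici (a := ρ))
    have hne : A.Nonempty := ⟨t, ⟨ht.1, le_rfl⟩, by
      rw [mem_ball_iff_norm] at htb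
      exact not_lt.1 htb⟩
    have hbd : BddBelow A := ⟨0, fun u hu => hu.1.1⟩
    have hT := hcl.csInf_mem hne hbd
    set T := sInf A with hTT
    have hlow : ∀ u ∈ Ico 0 T, ‖Z1 m (X u)‖ ≤ L := by
      intro u hu
      have h4 : X u ∈ Metric.ball x ρ := by
        by_contra hc
        have h5 : u ∈ A := ⟨⟨hu.1, hu.2.le.trans hT.1.2⟩, by
          rw [mem_ball_iff_norm] at hc
          exact not_lt.1 hc⟩
        have h6 := csInf_le hbd h5
        linarith [hu.2]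
      rw [hL]
      exact (hball _ h4).2.2.le
    have hsubT : Icc 0 T ⊆ Icc 0 s := (Icc_subset_Icc_right hT.1.2).trans hsub
    have h7 := norm_image_sub_le_of_norm_deriv_le_segment' (f := X)
      (f' := fun s => Z1 m (X s)) (a := 0) (b := T) (C := L)
      (fun u hu => (hX u (hsubT hu)).hasDerivWithinAt) hlow T ⟨hT.1.1, le_rfl⟩
    simp only [sub_zero] at h7
    have h8 : ‖X 0 - x‖ < ρ / 2 := by
      rw [← mem_ball_iff_norm]
      exact hX0
    have h9 : ρ ≤ ‖X T - x‖ := hT.2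
    have h10 : ‖X T - x‖ ≤ ‖X T - X 0‖ + ‖X 0 - x‖ := norm_sub_le_norm_sub_add_norm_sub _ _ _
    have h11 : L * T ≤ L * (ρ / (4 * L)) := by
      have : T ≤ ρ / (4 * L) := (hsubT ⟨hT.1.1, le_rfl⟩).2.trans hss
      gcongr
    have h12 : L * (ρ / (4 * L)) = ρ / 4 := by field_simp
    linarith
  have hXb := hstay X hX hX0
  have hYb := hstay Y hY hY0
  refine ⟨fun t ht => (hball _ (hXb t ht)).2.1, fun t ht => (hball _ (hYb t ht)).2.1, ?_⟩
  have hl : LipschitzOnWith K (Z1 m) (Metric.ball x ρ) := hlip.mono fun y hy => (hball y hy).1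
  have h := dist_le_of_trajectories_ODE_of_mem (v := fun _ => Z1 m) (s := fun _ => Metric.ball x ρ)
    (K := K) (f := X) (g := Y) (a := 0) (b := s) (δ := dist (X 0) (Y 0))
    (fun _ _ => hl)
    (fun t ht => (hX t ht).continuousAt.continuousWithinAt)
    (fun t ht => (hX t (Ico_subset_Icc_self ht)).hasDerivWithinAt)
    (fun t ht => hXb t (Ico_subset_Icc_self ht))
    (fun t ht => (hY t ht).continuousAt.continuousWithinAt)
    (fun t ht => (hY t (Ico_subset_Icc_self ht)).hasDerivWithinAt)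
    (fun t ht => hYb t (Ico_subset_Icc_self ht)) le_rfl
  intro t ht
  refine (h t ht).trans ?_
  rw [mul_comm, sub_zero]
  refine mul_le_mul_of_nonneg_right (Real.exp_le_exp.2 ?_) dist_nonneg
  exact mul_le_mul_of_nonneg_left (ht.2.trans hss) K.2

end Pool.Agent.K6.H53.NB
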