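import Pool.Agent.K6.H53.NB.Win
import Pool.Agent.K6.H53.NB.Tube

set_option autoImplicit false
set_option linter.unusedSectionVars false

/-!
# Points with large angular momentum are wandering
-/

namespace Pool.Agent.K6.H53.NB

open Set Filter Topology Pool.Agent.Y516.NW

variable {N : ℕ} {V : Type*} [NormedAddCommGroup V] [InnerProductSpace ℝ V]

/-- ratio of the scales -/
noncomputable def kap (N : ℕ) (μ M θ : ℝ) : ℝ := μ / (8 * M * nuc N θ + μ + 1)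

theorem kap_pos (N : ℕ) {μ M θ : ℝ} (hμ : 0 < μ) (hM : 0 < M) (hθ : 0 ≤ θ) : 0 < kap N μ M θ := by
  have := nuc_nonneg N hθ
  unfold kap
  positivity

theorem kap_lt (N : ℕ) {μ M θ : ℝ} (hμ : 0 < μ) (hM : 0 < M) (hθ : 0 ≤ θ) : kap N μ M θ < 1 := by
  have := nuc_nonneg N hθ
  unfold kap
  have h : 0 ≤ 8 * M * nuc N θ := by positivity
  rw [div_lt_one (by positivity)]
  linarith

theorem kap_small (N : ℕ) {μ M θ : ℝ} (hμ : 0 < μ) (hM : 0 < M) (hθ : 0 ≤ θ) :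
    8 * M * nuc N θ * kap N μ M θ < μ := by
  have := nuc_nonneg N hθ
  unfold kap
  have h : 0 ≤ 8 * M * nuc N θ := by positivity
  rw [← mul_div_assoc, div_lt_iff₀ (by positivity)]
  nlinarith

/-- third constant -/
noncomputable def cs6 (N : ℕ) (M θ κ : ℝ) : ℝ :=
  8192 * (2 + nuc N θ) * (1 - κ)⁻¹ * (1 + cstK N M θ) ^ 2

/-- constant of the theorem -/
noncomputable def cstJ (N : ℕ) (μ M θ : ℝ) : ℝ :=
  (cs4 M (kap N μ M θ) + cs6 N M θ (kap N μ M θ)) / cs3 N θ (kap N μ M θ)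

theorem cs6_pos (N : ℕ) (M : ℝ) {θ κ : ℝ} (hθ : 0 ≤ θ) (hκ1 : κ < 1) : 0 < cs6 N M θ κ := by
  have := nuc_nonneg N hθ
  have := cstK_pos N M hθ
  have : 0 < 1 - κ := by linarith
  unfold cs6
  positivity

/-- projected angular momentum of a phase point -/
noncomputable def Am (m : Fin N → ℝ) (Γ : E3 →L[ℝ] V) (Jo : V →L[ℝ] V) (y : Cfg N × Cfg N) : ℝ :=
  om m Jo (pr Γ y.1) (pr Γ (vel m y))

theorem Am_cont (m : Fin N → ℝ) (Γ : E3 →L[ℝ] V) (Jo : V →L[ℝ] V) : Continuous (Am m Γ Jo) := by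
  unfold Am om dil
  exact continuous_finsetSum _ fun i _ =>
    continuous_const.mul ((Jo.continuous.comp (pr_cont1 Γ i)).inner (pr_cont2 m Γ i))

theorem siz_pr_le {m : Fin N → ℝ} {M : ℝ} (hm : ∀ i, 0 < m i) (hM : ∑ i, m i ≤ M)
    (Γ : E3 →L[ℝ] V) (hG : ∀ z, ‖Γ z‖ ≤ ‖z‖) (a b : Cfg N × Cfg N) :
    siz m (fun i => pr Γ a.1 i - pr Γ b.1 i) ≤ Real.sqrt M * dist a b := by
  refine siz_le_of (le_trans (Finset.sum_nonneg fun i _ => (hm i).le) hM) dist_nonneg ?_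
  have h1 : ∀ i, ‖pr Γ a.1 i - pr Γ b.1 i‖ ^ 2 ≤ dist a b ^ 2 := by
    intro i
    refine pow_le_pow_left₀ (norm_nonneg _) ?_ 2
    unfold pr
    rw [← map_sub]
    refine (hG _).trans ?_
    rw [dist_eq_norm]
    have h2 : ‖(a - b).1 i‖ ≤ ‖(a - b).1‖ := norm_le_pi_norm _ i
    have h3 : ‖(a - b).1‖ ≤ ‖a - b‖ := norm_fst_le _
    exact h2.trans h3
  unfold iner
  calc ∑ i, m i * ‖pr Γ a.1 i - pr Γ b.1 i‖ ^ 2 ≤ ∑ i, m i * dist a b ^ 2 :=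
        Finset.sum_le_sum fun i _ => mul_le_mul_of_nonneg_left (h1 i) (hm i).le
    _ = (∑ i, m i) * dist a b ^ 2 := by rw [Finset.sum_mul]
    _ ≤ M * dist a b ^ 2 := mul_le_mul_of_nonneg_right hM (sq_nonneg _)

/-- the phase curve in physical time -/
theorem phys {m : Fin N → ℝ} {E : ℝ} {ψ : Cfg N × Cfg N → ℝ}
    {φ : ℝ → Cfg N × Cfg N → Cfg N × Cfg N} (hφ : IsFl m E ψ φ) {y : Cfg N × Cfg N}
    (hy : y ∈ Surf m E) {τ σ : ℝ → ℝ} (hσ : ∀ s, σ (τ s) = s)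
    (hσd : ∀ s, HasDerivAt σ (ψ (φ s y))⁻¹ (τ s)) {t : ℝ} (ht : t ∈ range τ) :
    HasDerivAt (fun u => φ (σ u) y) (Z1 m (φ (σ t) y)) t := by
  obtain ⟨s, rfl⟩ := ht
  have h1 : HasDerivAt (fun u => φ u y) (Z m ψ (φ (σ (τ s)) y)) (σ (τ s)) :=
    ((hφ.flow y hy).2 (σ (τ s))).2
  have h2 := h1.scomp (τ s) (hσd s)
  refine h2.congr_deriv ?_
  rw [hσ]
  have hpos := hφ.pos _ (surf_free m E ((hφ.flow y hy).2 s).1)
  unfold Z1 Z
  rw [smul_smul, inv_mul_cancel₀ hpos.ne']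

/-- consequence of strong convexity on a long window -/
theorem long_case {m : Fin N → ℝ} {μ M θ : ℝ} (hms : Mass m μ M θ) {J : Set ℝ}
    {x y : ℝ → Fin N → V} {k : ℝ → Fin N → Fin N → ℝ} (hs : Sol m J x y k)
    {Jo : V →L[ℝ] V} (hJ : Skew Jo) {σ : ℝ} (hσ : 0 < σ) {b : ℝ}
    (hb : b = σ ^ 3 / (32 * (1 + cstK N M θ))) (hIJ : Icc 0 b ⊆ J)
    (hr : ∀ t ∈ Icc 0 b, σ ^ 2 / 2 ≤ siz m (x t) ∧ siz m (x t) ≤ 2 * σ ^ 2)
    (hj0 : om m Jo (x 0) (y 0) ≠ 0) :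
    cs3 N θ (kap N μ M θ) * om m Jo (x 0) (y 0) ^ 2 ≤
      (cs4 M (kap N μ M θ) + cs6 N M θ (kap N μ M θ)) * σ ^ 2 := by
  have hθ0 : 0 ≤ θ := zero_le_one.trans hms.hθ1
  have hκ0 := kap_pos N hms.μ0 hms.M0 hθ0
  have hκ1 := kap_lt N hms.μ0 hms.M0 hθ0
  have hκs := kap_small N hms.μ0 hms.M0 hθ0
  obtain ⟨κ, hκ⟩ : ∃ κ, κ = kap N μ M θ := ⟨_, rfl⟩
  rw [← hκ] at hκ0 hκ1 hκs ⊢
  have hν := nuc_nonneg N hθ0
  have hKp := cstK_pos N M hθ0
  have hκ1' : 0 < 1 - κ := by linarith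
  have hb0 : 0 < b := by rw [hb]; positivity
  obtain ⟨K, hK⟩ := conv hms hs hJ hκ0 hκ1 hκs hσ hb0 hIJ hr hj0 (om_const hs hJ hIJ)
  have h1 := hK (b / 2) ⟨by linarith, by linarith⟩
  have h0m : (0:ℝ) ∈ Icc 0 b := ⟨le_rfl, hb0.le⟩
  have hbm : b ∈ Icc 0 b := ⟨hb0.le, le_rfl⟩
  have h2 := Phi_le hms.pos hθ0 hκ0 hκ1 hσ K (x 0) (hr 0 h0m).2
  have h3 := Phi_le hms.pos hθ0 hκ0 hκ1 hσ K (x b) (hr b hbm).2
  have h4 := Phi_nonneg m θ κ σ hκ0 hσ K (x (b / 2))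
  obtain ⟨β, hβ⟩ : ∃ β, β = cs3 N θ κ * om m Jo (x 0) (y 0) ^ 2 / σ ^ 3 - cs4 M κ / σ := ⟨_, rfl⟩
  rw [← hβ] at h1
  have h5 : β * b ^ 2 ≤ 8 * ((2 + nuc N θ) * (1 - κ)⁻¹ * σ ^ 5) := by
    have h6 : (b - 0) * Phi m θ κ σ K (x (b / 2)) = b * Phi m θ κ σ K (x (b / 2)) := by ring
    have h7 : 0 ≤ b * Phi m θ κ σ K (x (b / 2)) := mul_nonneg hb0.le h4
    have h8 : b * (β * b ^ 2) ≤ b * (4 * (Phi m θ κ σ K (x 0) + Phi m θ κ σ K (x b))) := by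
      nlinarith
    have h9 := le_of_mul_le_mul_left h8 hb0
    linarith
  have h6 : β * σ ≤ cs6 N M θ κ := by
    obtain ⟨c, hc⟩ : ∃ c, c = 1 + cstK N M θ := ⟨_, rfl⟩
    have hc0 : 0 < c := by rw [hc]; positivity
    rw [← hc] at hb
    unfold cs6
    rw [← hc]
    have e1 : β * b ^ 2 = (β * σ) * (σ ^ 5 / (1024 * c ^ 2)) := by
      rw [hb]
      field_simp
      ring
    have e2 : 8 * ((2 + nuc N θ) * (1 - κ)⁻¹ * σ ^ 5) =
        (8192 * (2 + nuc N θ) * (1 - κ)⁻¹ * c ^ 2) * (σ ^ 5 / (1024 * c ^ 2)) := by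
      field_simp
      ring
    rw [e1, e2] at h5
    exact le_of_mul_le_mul_right h5 (by positivity)
  have e3 : β * σ * σ ^ 2 = cs3 N θ κ * om m Jo (x 0) (y 0) ^ 2 - cs4 M κ * σ ^ 2 := by
    rw [hβ]
    field_simp
  have h7 := mul_le_mul_of_nonneg_right h6 (sq_nonneg σ)
  rw [e3] at h7
  linarith

theorem two_point {P0 Ps PT Pb T s β : ℝ} (hB : 0 < T + s)
    (h1 : (T + s - 0) * Ps ≤ (T + s - s) * P0 + (s - 0) * Pb -
      β * (T + s - 0) * (s - 0) * (T + s - s) / 2)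
    (h2 : (T + s - 0) * PT ≤ (T + s - T) * P0 + (T - 0) * Pb -
      β * (T + s - 0) * (T - 0) * (T + s - T) / 2) :
    β * (T * s) ≤ (P0 - PT) + (Pb - Ps) := by
  have h4 : (T + s) * (β * (T * s)) ≤ (T + s) * ((P0 - PT) + (Pb - Ps)) := by linarith
  exact le_of_mul_le_mul_left h4 hB

theorem short_fin {P0 Ps PT Pb T s β L sM a1 a2 D0 Ds C r c6 η : ℝ} (hL : 0 < L) (hsM : 0 < sM)
    (hC : 0 < C) (hs : 0 < s) (hη : 0 < η) (hβ0 : 0 < c6) (hβ : c6 < β) (hT : η ≤ T)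
    (h3 : β * (T * s) ≤ (P0 - PT) + (Pb - Ps)) (h4 : P0 - PT ≤ L * a1) (h5 : Pb - Ps ≤ L * a2)
    (h6 : a1 ≤ sM * D0) (h7 : a2 ≤ sM * Ds) (h8 : Ds ≤ C * D0) (h9 : D0 < 2 * r)
    (h13 : (L * (sM * (1 + C)) * 2 + 1) * r = c6 * η * s) (hr : 0 < r) : False := by
  have h10 : a1 + a2 ≤ sM * (1 + C) * (2 * r) := by
    have e1 : sM * Ds ≤ sM * (C * D0) := mul_le_mul_of_nonneg_left h8 hsM.le
    have e2 : sM * (1 + C) * D0 ≤ sM * (1 + C) * (2 * r) :=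
      mul_le_mul_of_nonneg_left h9.le (by positivity)
    have e3 : sM * (1 + C) * D0 = sM * D0 + sM * (C * D0) := by ring
    linarith
  have h11 : β * (T * s) ≤ L * (sM * (1 + C) * (2 * r)) := by
    have e1 := mul_le_mul_of_nonneg_left h10 hL.le
    have e2 : L * (a1 + a2) = L * a1 + L * a2 := by ring
    linarith
  have h12 : c6 * η * s ≤ β * (T * s) := by
    calc c6 * η * s = c6 * (η * s) := by ring
      _ ≤ β * (T * s) := mul_le_mul hβ.le (mul_le_mul_of_nonneg_right hT hs.le)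
          (by positivity) (hβ0.trans hβ).le
  have h14 : (L * (sM * (1 + C)) * 2 + 1) * r = L * (sM * (1 + C) * (2 * r)) + r := by ring
  linarith

/-- **Nonwandering points have small angular momentum.** -/
theorem ang {m : Fin N → ℝ} {μ M θ : ℝ} (hms : Mass m μ M θ) (E : ℝ)
    (ψ : Cfg N × Cfg N → ℝ) (φ : ℝ → Cfg N × Cfg N → Cfg N × Cfg N) (hφ : IsFl m E ψ φ)
    (x : Cfg N × Cfg N) (hx : x ∈ Surf m E) (hNW : NonW (Surf m E) φ x)
    (Γ : E3 →L[ℝ] V) (hG : ∀ z, ‖Γ z‖ ≤ ‖z‖) (Jo : V →L[ℝ] V) (hJ : Skew Jo) :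
    Am m Γ Jo x ^ 2 ≤ cstJ N μ M θ * Sz m Γ x := by
  by_contra hcon
  push Not at hcon
  have hmp := hms.pos
  have hθ0 : 0 ≤ θ := zero_le_one.trans hms.hθ1
  have hκ0 := kap_pos N hms.μ0 hms.M0 hθ0
  have hκ1 := kap_lt N hms.μ0 hms.M0 hθ0
  have hκs := kap_small N hms.μ0 hms.M0 hθ0
  have hKp := cstK_pos N M hθ0
  have h3p := cs3_pos N hθ0 hκ0 hκ1
  have h4p := cs4_pos M hκ1
  have h6p := cs6_pos N M hθ0 hκ1
  have hJp : 0 < cstJ N μ M θ := by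
    unfold cstJ
    positivity
  -- the size of `x`
  have hR0 : 0 < Sz m Γ x := by
    rcases (siz_nonneg m (pr Γ x.1)).eq_or_lt with h | h
    · exfalso
      have h1 := abs_om_le hmp hJ (pr Γ x.1) (pr Γ (vel m x))
      rw [← h, zero_mul] at h1
      have h2 : Am m Γ Jo x = 0 := abs_nonpos_iff.1 h1
      have h3 : Sz m Γ x = 0 := h.symm
      rw [h2, h3] at hcon
      simp at hcon
    · exact h
  obtain ⟨σ, hσdef⟩ : ∃ σ, σ = Real.sqrt (Sz m Γ x) := ⟨_, rfl⟩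
  have hσ : 0 < σ := by rw [hσdef]; exact Real.sqrt_pos.2 hR0
  have hσ2 : σ ^ 2 = Sz m Γ x := by rw [hσdef]; exact Real.sq_sqrt hR0.le
  obtain ⟨c, hc⟩ : ∃ c, c = 1 + cstK N M θ := ⟨_, rfl⟩
  have hc1 : 1 ≤ c := by rw [hc]; linarith
  have hc0 : 0 < c := by linarith
  have hcK : cstK N M θ ≤ c ^ 4 := by
    have h1 : c ≤ c ^ 4 := by
      have := pow_le_pow_right₀ hc1 (show 1 ≤ 4 by norm_num)
      simpa using this
    rw [hc] at h1 ⊢
    linarith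
  have hD := thin hms E ψ φ hφ x hx hNW Γ hG
  have hDx : |Dl m Γ x| ≤ c * σ := by
    refine le_of_pow_le_pow_left₀ (show (4:ℕ) ≠ 0 by norm_num) (by positivity) ?_
    have e1 : |Dl m Γ x| ^ 4 = Dl m Γ x ^ 4 := by
      rw [show (4:ℕ) = 2 * 2 by norm_num, pow_mul, pow_mul, sq_abs]
    have e2 : iner m (pr Γ x.1) = (σ ^ 2) ^ 2 := by
      rw [hσ2, ← siz_sq hmp]
      rfl
    rw [e1]
    rw [e2] at hD
    calc Dl m Γ x ^ 4 ≤ cstK N M θ * (σ ^ 2) ^ 2 := hD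
      _ ≤ c ^ 4 * (σ ^ 2) ^ 2 := mul_le_mul_of_nonneg_right hcK (by positivity)
      _ = (c * σ) ^ 4 := by ring
  obtain ⟨κ, hκ⟩ : ∃ κ, κ = kap N μ M θ := ⟨_, rfl⟩
  have hbig : (cs4 M κ + cs6 N M θ κ) * σ ^ 2 < cs3 N θ κ * Am m Γ Jo x ^ 2 := by
    have h1 : cstJ N μ M θ = (cs4 M κ + cs6 N M θ κ) / cs3 N θ κ := by rw [hκ]; rfl
    rw [h1, ← hσ2, div_mul_eq_mul_div, div_lt_iff₀ (by rw [hκ]; exact h3p)] at hcon
    linarith
  rw [← hκ] at hκ0 hκ1 hκs h3p h4p h6p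
  have hκ1' : 0 < 1 - κ := by linarith
  -- neighbourhoods
  obtain ⟨V1, hV1o, hxV1, s1, hs1, η, hη, hloc⟩ := Pool.Agent.N775.NW.locC (Free N)
    (Z m ψ) ψ free_open (Z_cont m ψ hφ.cont) hφ.cont hφ.pos x (surf_free m E hx)
  have hSzc := Sz_cont (N := N) m Γ
  let U : Set (Cfg N × Cfg N) := {y | 9 / 10 * σ ^ 2 < Sz m Γ y ∧ Sz m Γ y < 11 / 10 * σ ^ 2}
  have hUo : IsOpen U := (isOpen_lt continuous_const hSzc).inter (isOpen_lt hSzc continuous_const)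
  have hσ2p : 0 < σ ^ 2 := by positivity
  have hxU : x ∈ U := ⟨by rw [← hσ2]; linarith, by rw [← hσ2]; linarith⟩
  obtain ⟨ρ, hρ, s0, hs0, C, hC, htube⟩ := tube m x (surf_free m E hx) (hUo.mem_nhds hxU)
  obtain ⟨b, hb⟩ : ∃ b, b = σ ^ 3 / (32 * (1 + cstK N M θ)) := ⟨_, rfl⟩
  have hb' : b = σ ^ 3 / (32 * c) := by rw [hb, hc]
  have hb0 : 0 < b := by rw [hb']; positivity
  obtain ⟨s, hs⟩ : ∃ s, s = min s0 (min η b) := ⟨_, rfl⟩
  have hsp : 0 < s := by rw [hs]; exact lt_min hs0 (lt_min hη hb0)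
  have hss0 : s ≤ s0 := by rw [hs]; exact min_le_left _ _
  have hsη : s ≤ η := by rw [hs]; exact (min_le_right _ _).trans (min_le_left _ _)
  have hsb : s ≤ b := by rw [hs]; exact (min_le_right _ _).trans (min_le_right _ _)
  -- the radius
  obtain ⟨r, hr⟩ : ∃ r, r = cs6 N M θ κ / σ * η * s /
      (σ ^ 3 * (1 - κ)⁻¹ * (Real.sqrt M * (1 + C)) * 2 + 1) := ⟨_, rfl⟩
  have hM0 := hms.M0
  have hden : 0 < σ ^ 3 * (1 - κ)⁻¹ * (Real.sqrt M * (1 + C)) * 2 + 1 := by positivity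
  have hrp : 0 < r := by rw [hr]; positivity
  let U3 : Set (Cfg N × Cfg N) := {y | (cs4 M κ + cs6 N M θ κ) * σ ^ 2 <
    cs3 N θ κ * Am m Γ Jo y ^ 2}
  have hU3o : IsOpen U3 := isOpen_lt continuous_const
    (continuous_const.mul ((Am_cont m Γ Jo).pow 2))
  let U4 : Set (Cfg N × Cfg N) := {y | |Dl m Γ y| * σ < 2 * c * Sz m Γ y}
  have hU4o : IsOpen U4 := isOpen_lt ((Dl_cont m Γ).abs.mul continuous_const)
    (continuous_const.mul hSzc)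
  have hxU4 : x ∈ U4 := by
    show |Dl m Γ x| * σ < 2 * c * Sz m Γ x
    rw [← hσ2]
    have h1 := mul_le_mul_of_nonneg_right hDx hσ.le
    have h2 : 0 < c * σ ^ 2 := by positivity
    nlinarith
  obtain ⟨t0, ht0, y, ⟨hyV, hyS⟩, hzV⟩ := hNW (V1 ∩ U ∩ Metric.ball x (min ρ r) ∩ U3 ∩ U4)
    ((((hV1o.inter hUo).inter Metric.isOpen_ball).inter hU3o).inter hU4o)
    ⟨⟨⟨⟨hxV1, hxU⟩, Metric.mem_ball_self (lt_min hρ hrp)⟩, hbig⟩, hxU4⟩ s1
  obtain ⟨⟨⟨⟨hyV1, hyU⟩, hyB⟩, hyU3⟩, hyU4⟩ := hyV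
  obtain ⟨⟨⟨⟨hzV1, hzU⟩, hzB⟩, -⟩, hzU4⟩ := hzV
  have ht00 : 0 ≤ t0 := hs1.le.trans ht0.le
  obtain ⟨τ, hmot⟩ := mot_of_flow m hmp E ψ φ hφ y hyS
  have hfl := hφ.flow y hyS
  have h00 : φ 0 y = y := hfl.1
  -- physical times
  have hθη : η ≤ τ t0 := hloc (fun t => φ t y) (fun t => surf_free m E (hfl.2 t).1)
    (fun t => (hfl.2 t).2) (by simpa only [h00] using hyV1) τ hmot.τ0 hmot.τd t0 ht0.le
  have hθη' : η ≤ τ (t0 + s1) - τ t0 := by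
    have h1 := hloc (fun t => φ (t0 + t) y) (fun t => surf_free m E (hfl.2 _).1)
      (fun t => ((hfl.2 (t0 + t)).2).comp_const_add t0 t)
      (by simpa only [add_zero] using hzV1) (fun t => τ (t0 + t) - τ t0) (by simp)
      (fun t => ((hmot.τd (t0 + t)).comp_const_add t0 t).sub_const _) s1 le_rfl
    exact h1
  obtain ⟨Tr, hTr⟩ : ∃ Tr, Tr = τ t0 := ⟨_, rfl⟩
  rw [← hTr] at hθη hθη'
  obtain ⟨ι, hι, hιd⟩ := exists_inv hmot.τd hmot.cpos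
  have hsol := sol_of_mot hmot Γ hG hι hιd
  have hcontτ : Continuous τ := continuous_iff_continuousAt.2 fun u => (hmot.τd u).continuousAt
  have hrange : Icc 0 (Tr + η) ⊆ range τ := by
    intro u hu
    obtain ⟨w, _, hw⟩ := intermediate_value_Icc (show (0:ℝ) ≤ t0 + s1 by linarith)
      hcontτ.continuousOn (show u ∈ Icc (τ 0) (τ (t0 + s1)) by
        rw [hmot.τ0]
        exact ⟨hu.1, by linarith [hu.2]⟩)
    exact ⟨w, hw⟩
  have hι0 : ι 0 = 0 := by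
    have := hι 0
    rwa [hmot.τ0] at this
  have hιT : ι Tr = t0 := by rw [hTr]; exact hι t0
  have hphys : ∀ t ∈ range τ, HasDerivAt (fun u => φ (ι u) y) (Z1 m (φ (ι t) y)) t :=
    fun t ht => phys hφ hyS hι hιd ht
  obtain ⟨X, hX⟩ : ∃ X : ℝ → Cfg N × Cfg N, X = fun u => φ (ι u) y := ⟨_, rfl⟩
  have hX0 : X 0 = y := by rw [hX]; simp only [hι0, h00]
  have hXT : X Tr = φ t0 y := by rw [hX]; simp only [hιT]
  have hXd : ∀ t ∈ Icc 0 (Tr + η), HasDerivAt X (Z1 m (X t)) t := by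
    intro t ht
    rw [hX]
    exact hphys t (hrange ht)
  -- the tube
  obtain ⟨-, htubeY, htubeD⟩ := htube s hss0 hsp.le X (fun u => X (Tr + u))
    (fun t ht => hXd t ⟨ht.1, by linarith [ht.2]⟩)
    (fun t ht => (hXd (Tr + t) ⟨by linarith [ht.1], by linarith [ht.2]⟩).comp_const_add Tr t)
    (by rw [hX0]; exact Metric.ball_subset_ball (min_le_left _ _) hyB)
    (by
      simp only [add_zero]
      rw [hXT]
      exact Metric.ball_subset_ball (min_le_left _ _) hzB)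
  -- names for the projected solution
  obtain ⟨xx, hxx⟩ : ∃ xx : ℝ → Fin N → V, xx = fun t => pr Γ (X t).1 := ⟨_, rfl⟩
  obtain ⟨yy, hyy⟩ : ∃ yy : ℝ → Fin N → V, yy = fun t => pr Γ (vel m (X t)) := ⟨_, rfl⟩
  obtain ⟨kk, hkk⟩ : ∃ kk : ℝ → Fin N → Fin N → ℝ,
      kk = fun t i j => 1 / ‖(X t).1 j - (X t).1 i‖ ^ 3 := ⟨_, rfl⟩
  have hsol' : Sol m (range τ) xx yy kk := by
    rw [hxx, hyy, hkk, hX]
    exact hsol
  have hsizX : ∀ t, siz m (xx t) = Sz m Γ (X t) := fun t => by rw [hxx]; rfl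
  have hsd : ∀ t, sizd m (xx t) (yy t) = Dl m Γ (X t) / Sz m Γ (X t) := fun t => by
    rw [hxx, hyy]; rfl
  have hom : om m Jo (xx 0) (yy 0) = Am m Γ Jo y := by
    rw [hxx, hyy]
    simp only [hX0]
    rfl
  have hend : ∀ w : Cfg N × Cfg N, w ∈ U → w ∈ U4 → |Dl m Γ w / Sz m Γ w| ≤ 2 * c / σ := by
    intro w hw hw4
    have h1 : 0 < Sz m Γ w := lt_trans (by positivity) hw.1
    rw [abs_div, abs_of_pos h1, div_le_div_iff₀ h1 hσ]
    exact le_of_lt hw4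
  have hTr0 : 0 ≤ Tr := hη.le.trans hθη
  have hsubT : Icc 0 Tr ⊆ range τ := (Icc_subset_Icc_right (by linarith)).trans hrange
  -- bound of the derivative of the size
  have hder : ∀ t ∈ Icc 0 Tr, σ ^ 2 / 2 ≤ siz m (xx t) → |sizd m (xx t) (yy t)| ≤ 4 * c / σ := by
    intro t ht hsz
    rw [abs_le]
    constructor
    · have h1 := sizd_le_of_end hms hsol'.rev (t0 := -t) (t1 := 0) (σ := σ) (c := c)
        (by linarith [ht.1])
        (fun u hu => hsubT ⟨by linarith [hu.2], by linarith [hu.1, ht.2]⟩) hσ hc0.le hcK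
        (by simp only [neg_neg]; exact hsz)
        (by
          simp only [neg_zero]
          rw [sizd_neg, hsd, hX0]
          have := (abs_le.1 (hend y hyU hyU4)).1
          linarith)
      simp only [neg_neg] at h1
      rw [sizd_neg] at h1
      linarith
    · refine sizd_le_of_end hms hsol' ht.2 ((Icc_subset_Icc_left ht.1).trans hsubT) hσ hc0.le hcK
        hsz ?_
      rw [hsd, hXT]
      exact (abs_le.1 (hend _ hzU hzU4)).2
  have hjy : om m Jo (xx 0) (yy 0) ≠ 0 := by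
    rw [hom]
    intro h0
    have h1 : (cs4 M κ + cs6 N M θ κ) * σ ^ 2 < cs3 N θ κ * Am m Γ Jo y ^ 2 := hyU3
    rw [h0] at h1
    have h2 : 0 < (cs4 M κ + cs6 N M θ κ) * σ ^ 2 := by positivity
    simp only [ne_eq, OfNat.ofNat_ne_zero, not_false_eq_true, zero_pow, mul_zero] at h1
    linarith
  have hyU3' : (cs4 M κ + cs6 N M θ κ) * σ ^ 2 < cs3 N θ κ * om m Jo (xx 0) (yy 0) ^ 2 := by
    rw [hom]
    exact hyU3
  have hsz0 : 9 / 10 * σ ^ 2 ≤ siz m (xx 0) := by rw [hsizX, hX0]; exact hyU.1.le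
  have hsz0' : siz m (xx 0) ≤ 11 / 10 * σ ^ 2 := by rw [hsizX, hX0]; exact hyU.2.le
  have hb16 : b ≤ σ ^ 3 / (16 * c) := by
    rw [hb']
    gcongr
    linarith
  rcases le_or_gt b Tr with hlong | hshort
  · -- long return
    have hsubb : Icc 0 b ⊆ Icc 0 Tr := Icc_subset_Icc_right hlong
    have hwin := window hsol' hb0.le (hsubb.trans hsubT) hσ hc0 hb16 hsz0 hsz0'
      (fun t ht => hder t (hsubb ht))
    have h1 := long_case hms hsol' hJ hσ hb (hsubb.trans hsubT) hwin hjy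
    rw [← hκ] at h1
    linarith
  · -- short return
    have hwin := window hsol' hTr0 hsubT hσ hc0 (hshort.le.trans hb16) hsz0 hsz0' hder
    have hB0 : 0 < Tr + s := by linarith
    have hsubB : Icc 0 (Tr + s) ⊆ range τ := (Icc_subset_Icc_right (by linarith)).trans hrange
    have hall : ∀ t ∈ Icc 0 (Tr + s), σ ^ 2 / 2 ≤ siz m (xx t) ∧ siz m (xx t) ≤ 2 * σ ^ 2 := by
      intro t ht
      rcases le_or_gt t Tr with h | h
      · exact hwin t ⟨ht.1, h⟩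
      · have h1 : X (Tr + (t - Tr)) ∈ U := htubeY (t - Tr) ⟨by linarith, by linarith [ht.2]⟩
        rw [add_sub_cancel] at h1
        rw [hsizX]
        exact ⟨by linarith [h1.1], by linarith [h1.2]⟩
    obtain ⟨K, hK⟩ := conv hms hsol' hJ hκ0 hκ1 hκs hσ hB0 hsubB hall hjy
      (om_const hsol' hJ hsubB)
    obtain ⟨β, hβ⟩ : ∃ β, β = cs3 N θ κ * om m Jo (xx 0) (yy 0) ^ 2 / σ ^ 3 - cs4 M κ / σ :=
      ⟨_, rfl⟩
    rw [← hβ] at hK
    have hβ6 : cs6 N M θ κ / σ < β := by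
      rw [hβ, lt_sub_iff_add_lt, ← add_div, div_lt_div_iff₀ hσ (by positivity)]
      have h1 := mul_lt_mul_of_pos_right hyU3' hσ
      calc (cs6 N M θ κ + cs4 M κ) * σ ^ 3 = (cs4 M κ + cs6 N M θ κ) * σ ^ 2 * σ := by ring
        _ < _ := h1
    have h1 := hK s ⟨hsp.le, by linarith⟩
    have h2 := hK Tr ⟨hTr0, by linarith⟩
    have h3 := two_point hB0 h1 h2
    have h4 := Phi_lip hmp hθ0 hκ0 hκ1 hσ K (xx 0) (xx Tr)
    have h5 := Phi_lip hmp hθ0 hκ0 hκ1 hσ K (xx (Tr + s)) (xx s)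
    have h6 : siz m (fun i => xx 0 i - xx Tr i) ≤ Real.sqrt M * dist (X 0) (X Tr) := by
      rw [hxx]
      exact siz_pr_le hmp hms.hM Γ hG _ _
    have h7 : siz m (fun i => xx (Tr + s) i - xx s i) ≤ Real.sqrt M * dist (X (Tr + s)) (X s) := by
      rw [hxx]
      exact siz_pr_le hmp hms.hM Γ hG _ _
    have h8 := htubeD s ⟨hsp.le, le_rfl⟩
    simp only [add_zero] at h8
    rw [dist_comm (X s)] at h8
    have h9 : dist (X 0) (X Tr) < 2 * r := by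
      rw [hX0, hXT]
      have e1 : dist y x < r := lt_of_lt_of_le hyB (min_le_right _ _)
      have e2 : dist (φ t0 y) x < r := lt_of_lt_of_le hzB (min_le_right _ _)
      have e3 := dist_triangle_right y (φ t0 y) x
      linarith
    have h13 : (σ ^ 3 * (1 - κ)⁻¹ * (Real.sqrt M * (1 + C)) * 2 + 1) * r =
        cs6 N M θ κ / σ * η * s := by
      rw [hr, mul_div_cancel₀ _ hden.ne']
    exact short_fin (by positivity) (Real.sqrt_pos.2 hM0) hC hsp hη (by positivity) hβ6 hθη h3 h4 h5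
      h6 h7 h8 h9 h13 hrp

end Pool.Agent.K6.H53.NB
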