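import Mathlib

set_option autoImplicit false

/-!
# Maxima of finitely many almost convex functions
-/

namespace Pool.Agent.K6.H53.NB

open Set Filter Topology

/-- a local maximum where the derivative increases: impossible -/
theorem no_max {f d : ℝ → ℝ} {t e a b : ℝ} (ht : t ∈ Ioo a b)
    (hf : ∀ s ∈ Ioo a b, HasDerivAt f (d s) s) (hd : HasDerivAt d e t) (he : 0 < e)
    (hmax : ∀ s ∈ Ioo a b, f s ≤ f t) : False := by
  have hloc : IsLocalMax f t := by
    filter_upwards [Ioo_mem_nhds ht.1 ht.2] with s hs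
    exact hmax s hs
  have h0 : d t = 0 := hloc.hasDerivAt_eq_zero (hf t ht)
  have h1 : Tendsto (slope d t) (𝓝[>] t) (𝓝 e) :=
    (hasDerivAt_iff_tendsto_slope.1 hd).mono_left (nhdsWithin_mono _ fun s hs => ne_of_gt hs)
  have h2 : ∀ᶠ s in 𝓝[>] t, 0 < slope d t s := h1.eventually_const_lt he
  have h3 : ∀ᶠ s in 𝓝[>] t, 0 < d s := by
    filter_upwards [h2, self_mem_nhdsWithin] with s hs hst
    rw [slope_def_field, h0, sub_zero] at hs
    have : 0 < s - t := sub_pos.2 hst
    exact (div_pos_iff_of_pos_right this).1 hs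
  obtain ⟨u, hu, hsub⟩ := (mem_nhdsGT_iff_exists_Ioo_subset).1 h3
  have hu' : t < u := hu
  obtain ⟨w, hw1, hw2⟩ := exists_between (lt_min hu' ht.2)
  have hw3 : w < u := hw2.trans_le (min_le_left _ _)
  have hw4 : w < b := hw2.trans_le (min_le_right _ _)
  have hmem : ∀ s ∈ Icc t w, s ∈ Ioo a b := fun s hs =>
    ⟨ht.1.trans_le hs.1, hs.2.trans_lt hw4⟩
  have hmono : StrictMonoOn f (Icc t w) := by
    refine strictMonoOn_of_deriv_pos (convex_Icc t w)
      (fun s hs => (hf s (hmem s hs)).continuousAt.continuousWithinAt) fun s hs => ?_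
    rw [interior_Icc] at hs
    rw [(hf s (hmem s (Ioo_subset_Icc_self hs))).deriv]
    exact hsub ⟨hs.1, hs.2.trans hw3⟩
  have h4 := hmono (left_mem_Icc.2 hw1.le) (right_mem_Icc.2 hw1.le) hw1
  have h5 := hmax w (hmem w (right_mem_Icc.2 hw1.le))
  linarith

/-- the maximum of finitely many functions whose second derivatives are larger than `-κ` where they
are equal to the maximum -/
theorem chord {ι : Type*} [Finite ι] [Nonempty ι] (G g g' : ι → ℝ → ℝ) (a b κ : ℝ)
    (hab : a < b) (hG : ∀ A, ∀ t ∈ Icc a b, HasDerivAt (G A) (g A t) t)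
    (hg : ∀ A, ∀ t ∈ Icc a b, HasDerivAt (g A) (g' A t) t)
    (hlow : ∀ A, ∀ t ∈ Icc a b, (∀ B, G B t ≤ G A t) → -κ < g' A t)
    (Fa Fb : ℝ) (hFa : ∀ A, G A a ≤ Fa) (hFb : ∀ A, G A b ≤ Fb) (A : ι) (t : ℝ)
    (ht : t ∈ Icc a b) :
    (b - a) * G A t ≤ (b - t) * Fa + (t - a) * Fb + κ * (b - a) * (t - a) * (b - t) / 2 := by
  let h : ι → ℝ → ℝ := fun A t =>
    (b - a) * G A t - ((b - t) * Fa + (t - a) * Fb + κ * (b - a) * (t - a) * (b - t) / 2)
  let d : ι → ℝ → ℝ := fun A t =>
    (b - a) * g A t - (-Fa + Fb + κ * (b - a) * ((b - t) - (t - a)) / 2)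
  have hh : ∀ A, ∀ t ∈ Icc a b, HasDerivAt (h A) (d A t) t := by
    intro A t ht
    have h1 : HasDerivAt (fun t : ℝ => b - t) (-1) t := by
      simpa using (hasDerivAt_id t).const_sub b
    have h2 : HasDerivAt (fun t : ℝ => t - a) 1 t := (hasDerivAt_id t).sub_const a
    have h3 := ((hG A t ht).const_mul (b - a)).sub (((h1.mul_const Fa).add (h2.mul_const Fb)).add
      (((h2.const_mul (κ * (b - a))).mul h1).div_const 2))
    refine h3.congr_deriv ?_
    simp only [d]
    ring
  have hd : ∀ A, ∀ t ∈ Icc a b, HasDerivAt (d A) ((b - a) * (g' A t + κ)) t := by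
    intro A t ht
    have h1 : HasDerivAt (fun t : ℝ => (b - t) - (t - a)) (-1 - 1) t :=
      (by simpa using (hasDerivAt_id t).const_sub b : HasDerivAt (fun t : ℝ => b - t) (-1) t).sub
        ((hasDerivAt_id t).sub_const a)
    have h3 := ((hg A t ht).const_mul (b - a)).sub
      (((h1.const_mul (κ * (b - a))).div_const 2).const_add (-Fa + Fb))
    refine h3.congr_deriv ?_
    ring
  -- maxima
  have hmaxA : ∀ A, ∃ s ∈ Icc a b, ∀ s' ∈ Icc a b, h A s' ≤ h A s := fun A =>
    isCompact_Icc.exists_isMaxOn (nonempty_Icc.2 hab.le)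
      (fun s hs => (hh A s hs).continuousAt.continuousWithinAt)
  choose T hT1 hT2 using hmaxA
  obtain ⟨A₀, hA₀⟩ := Finite.exists_max fun A => h A (T A)
  have hall : ∀ B, ∀ s ∈ Icc a b, h B s ≤ h A₀ (T A₀) := fun B s hs => (hT2 B s hs).trans (hA₀ B)
  by_contra hcon
  have hpos : 0 < h A t := by
    simp only [h]
    linarith
  have hpos' : 0 < h A₀ (T A₀) := hpos.trans_le (hall A t ht)
  have hba : 0 < b - a := sub_pos.2 hab
  have hin : T A₀ ∈ Ioo a b := by
    refine ⟨lt_of_le_of_ne (hT1 A₀).1 fun he => ?_, lt_of_le_of_ne (hT1 A₀).2 fun he => ?_⟩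
    · rw [← he] at hpos'
      simp only [h, sub_self, mul_zero, zero_mul, zero_div, add_zero] at hpos'
      have := mul_le_mul_of_nonneg_left (hFa A₀) hba.le
      linarith
    · rw [he] at hpos'
      simp only [h, sub_self, mul_zero, zero_mul, zero_div, add_zero, zero_add] at hpos'
      have := mul_le_mul_of_nonneg_left (hFb A₀) hba.le
      linarith
  have hact : ∀ B, G B (T A₀) ≤ G A₀ (T A₀) := by
    intro B
    have := hall B (T A₀) (hT1 A₀)
    simp only [h] at this
    exact le_of_mul_le_mul_left (by linarith) hba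
  have hk := hlow A₀ (T A₀) (hT1 A₀) hact
  exact no_max hin (fun s hs => hh A₀ s (Ioo_subset_Icc_self hs))
    (hd A₀ (T A₀) (hT1 A₀)) (mul_pos hba (by linarith))
    (fun s hs => hall A₀ s (Ioo_subset_Icc_self hs))

end Pool.Agent.K6.H53.NB
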