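import Mathlib

set_option autoImplicit false

/-!
# Clusters of bodies

Labellings `A : Fin N → Fin N` describe partitions of the bodies into clusters. `cmean m A x i` is the
centre of mass of the cluster of `i`. If `A` maximizes `∑ m_i |centre of the cluster of i|² + pen A δ²`
then different clusters are far away from each other, compared with `δ` and with their diameters.
-/

namespace Pool.Agent.K6.H53.NB

open Finset

variable {N : ℕ} {V : Type*} [NormedAddCommGroup V] [InnerProductSpace ℝ V]

/-- mass of the cluster of `i` -/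
noncomputable def cmass (m : Fin N → ℝ) (A : Fin N → Fin N) (i : Fin N) : ℝ :=
  ∑ j, if A j = A i then m j else 0

/-- centre of mass of the cluster of `i` -/
noncomputable def cmean (m : Fin N → ℝ) (A : Fin N → Fin N) (x : Fin N → V) (i : Fin N) : V :=
  (cmass m A i)⁻¹ • ∑ j, if A j = A i then m j • x j else 0

theorem cmass_pos {m : Fin N → ℝ} (hm : ∀ i, 0 < m i) (A : Fin N → Fin N) (i : Fin N) :
    0 < cmass m A i := by
  unfold cmass
  have h1 : m i ≤ ∑ j, if A j = A i then m j else 0 := by
    have h2 : (if A i = A i then m i else 0) ≤ ∑ j, if A j = A i then m j else 0 :=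
      Finset.single_le_sum (f := fun j => if A j = A i then m j else 0)
        (fun j _ => by
          split_ifs
          · exact (hm j).le
          · exact le_rfl) (mem_univ i)
    simpa using h2
  exact (hm i).trans_le h1

theorem cmass_le {m : Fin N → ℝ} (hm : ∀ i, 0 < m i) (A : Fin N → Fin N) (i : Fin N) :
    cmass m A i ≤ ∑ j, m j := by
  unfold cmass
  refine Finset.sum_le_sum fun j _ => ?_
  split_ifs
  · exact le_rfl
  · exact (hm j).le

theorem cmass_congr (m : Fin N → ℝ) (A : Fin N → Fin N) {i j : Fin N} (h : A i = A j) :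
    cmass m A i = cmass m A j := by
  unfold cmass
  rw [h]

theorem cmean_congr (m : Fin N → ℝ) (A : Fin N → Fin N) (x : Fin N → V) {i j : Fin N}
    (h : A i = A j) : cmean m A x i = cmean m A x j := by
  unfold cmean
  rw [cmass_congr m A h, h]

/-- projection property -/
theorem cmean_inner {m : Fin N → ℝ} (hm : ∀ i, 0 < m i) (A : Fin N → Fin N) (x z : Fin N → V)
    (hz : ∀ i j, A i = A j → z i = z j) :
    ∑ i, m i * inner ℝ (cmean m A x i) (z i) = ∑ i, m i * inner ℝ (x i) (z i) := by
  have e1 : ∀ i, m i * inner ℝ (cmean m A x i) (z i) =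
      ∑ j, if A j = A i then m i * (cmass m A j)⁻¹ * (m j * inner ℝ (x j) (z j)) else 0 := by
    intro i
    unfold cmean
    rw [real_inner_smul_left, sum_inner, Finset.mul_sum, Finset.mul_sum]
    refine Finset.sum_congr rfl fun j _ => ?_
    split_ifs with h
    · rw [real_inner_smul_left, hz j i h, cmass_congr m A h]
      ring
    · simp
  rw [Finset.sum_congr rfl fun i _ => e1 i, Finset.sum_comm]
  refine Finset.sum_congr rfl fun j _ => ?_
  have e2 : ∀ i, (if A j = A i then m i * (cmass m A j)⁻¹ * (m j * inner ℝ (x j) (z j)) else 0) =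
      (if A i = A j then m i else 0) * ((cmass m A j)⁻¹ * (m j * inner ℝ (x j) (z j))) := by
    intro i
    by_cases h : A j = A i
    · rw [if_pos h, if_pos h.symm]
      ring
    · rw [if_neg h, if_neg (fun h' => h h'.symm)]
      ring
  rw [Finset.sum_congr rfl fun i _ => e2 i, ← Finset.sum_mul]
  have h3 : cmass m A j ≠ 0 := (cmass_pos hm A j).ne'
  have e3 : (∑ i, if A i = A j then m i else 0) = cmass m A j := rfl
  rw [e3, mul_inv_cancel_left₀ h3]

/-- moment of inertia -/
noncomputable def iner (m : Fin N → ℝ) (x : Fin N → V) : ℝ := ∑ i, m i * ‖x i‖ ^ 2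

theorem iner_nonneg {m : Fin N → ℝ} (hm : ∀ i, 0 < m i) (x : Fin N → V) : 0 ≤ iner m x :=
  Finset.sum_nonneg fun i _ => mul_nonneg (hm i).le (sq_nonneg _)

theorem iner_sub {m : Fin N → ℝ} (hm : ∀ i, 0 < m i) (A : Fin N → Fin N) (x z : Fin N → V)
    (hz : ∀ i j, A i = A j → z i = z j) :
    iner m (fun i => x i - z i) =
      iner m (fun i => x i - cmean m A x i) + iner m (fun i => cmean m A x i - z i) := by
  have h1 := cmean_inner hm A x (fun i => cmean m A x i - z i) (fun i j h => by
    rw [cmean_congr m A x h, hz i j h])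
  have h2 : ∀ i, m i * ‖x i - z i‖ ^ 2 = m i * ‖x i - cmean m A x i‖ ^ 2 +
      m i * ‖cmean m A x i - z i‖ ^ 2 + 2 * (m i * inner ℝ (x i) (cmean m A x i - z i) -
        m i * inner ℝ (cmean m A x i) (cmean m A x i - z i)) := by
    intro i
    have e : x i - z i = (x i - cmean m A x i) + (cmean m A x i - z i) := by abel
    rw [e, norm_add_sq_real, inner_sub_left]
    ring
  unfold iner
  rw [Finset.sum_congr rfl fun i _ => h2 i, Finset.sum_add_distrib, Finset.sum_add_distrib,
    ← Finset.mul_sum, Finset.sum_sub_distrib, h1]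
  ring

theorem iner_split {m : Fin N → ℝ} (hm : ∀ i, 0 < m i) (A : Fin N → Fin N) (x : Fin N → V) :
    iner m x = iner m (fun i => x i - cmean m A x i) + iner m (cmean m A x) := by
  have h := iner_sub hm A x (fun _ => 0) (fun _ _ _ => rfl)
  simpa using h

theorem iner_cmean_le {m : Fin N → ℝ} (hm : ∀ i, 0 < m i) (A : Fin N → Fin N) (x : Fin N → V) :
    iner m (cmean m A x) ≤ iner m x := by
  have h1 := iner_split hm A x
  have h2 := iner_nonneg hm (fun i => x i - cmean m A x i)
  linarith

/-- the centres of mass are the best approximation -/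
theorem best {m : Fin N → ℝ} (hm : ∀ i, 0 < m i) (A : Fin N → Fin N) (x z : Fin N → V)
    (hz : ∀ i j, A i = A j → z i = z j) :
    iner m x - iner m (cmean m A x) ≤ iner m (fun i => x i - z i) := by
  have h1 := iner_sub hm A x z hz
  have h2 := iner_split hm A x
  have h3 := iner_nonneg hm (fun i => cmean m A x i - z i)
  linarith

/-- number of mergers of the labelling -/
def mg (A : Fin N → Fin N) : ℕ := N - (univ.image A).card

/-- penalty of a labelling -/
def pen (θ : ℝ) (A : Fin N → Fin N) : ℝ := ∑ l ∈ range (mg A), θ ^ l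

theorem pen_nonneg {θ : ℝ} (hθ : 0 ≤ θ) (A : Fin N → Fin N) : 0 ≤ pen θ A :=
  Finset.sum_nonneg fun _ _ => pow_nonneg hθ _

theorem pen_le {θ : ℝ} (hθ : 0 ≤ θ) (A : Fin N → Fin N) : pen θ A ≤ ∑ l ∈ range N, θ ^ l :=
  Finset.sum_le_sum_of_subset_of_nonneg (Finset.range_subset_range.2 (Nat.sub_le _ _))
    fun _ _ _ => pow_nonneg hθ _

theorem pen_ge {θ : ℝ} (hθ : 0 ≤ θ) (A : Fin N → Fin N) (h : mg A ≠ 0) : 1 ≤ pen θ A := by
  unfold pen
  obtain ⟨k, hk⟩ := Nat.exists_eq_succ_of_ne_zero h
  rw [hk, Nat.succ_eq_add_one, Finset.sum_range_succ']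
  have : 0 ≤ ∑ k ∈ range k, θ ^ (k + 1) := Finset.sum_nonneg fun _ _ => pow_nonneg hθ _
  simpa using this

theorem inj_of_mg {A : Fin N → Fin N} (h : mg A = 0) : Function.Injective A := by
  unfold mg at h
  have h1 : (univ.image A).card ≤ N := by
    simpa using Finset.card_image_le (s := (univ : Finset (Fin N))) (f := A)
  have h2 : (univ.image A).card = (univ : Finset (Fin N)).card := by
    simp only [Finset.card_univ, Fintype.card_fin]
    omega
  have h3 := Finset.card_image_iff.1 h2
  simpa [Set.injOn_univ] using h3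

theorem cmean_of_alone {m : Fin N → ℝ} (hm : ∀ i, 0 < m i) (A : Fin N → Fin N) (x : Fin N → V)
    (i : Fin N) (h : ∀ j, A j = A i → j = i) : cmean m A x i = x i := by
  have e : ∀ j, A j = A i ↔ j = i := fun j => ⟨h j, fun h' => by rw [h']⟩
  unfold cmean cmass
  simp only [e, Finset.sum_ite_eq', mem_univ, if_true]
  rw [smul_smul, inv_mul_cancel₀ (hm i).ne', one_smul]

theorem cmean_of_inj {m : Fin N → ℝ} (hm : ∀ i, 0 < m i) {A : Fin N → Fin N}
    (hA : Function.Injective A) (x : Fin N → V) : cmean m A x = x :=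
  funext fun i => cmean_of_alone hm A x i fun _ h => hA h

/-- the function of a labelling at scale `δ` -/
noncomputable def Fn (m : Fin N → ℝ) (θ δ : ℝ) (A : Fin N → Fin N) (x : Fin N → V) : ℝ :=
  iner m (cmean m A x) + pen θ A * δ ^ 2

theorem split_le {m : Fin N → ℝ} (hm : ∀ i, 0 < m i) {θ δ : ℝ} (hθ : 0 ≤ θ)
    (A : Fin N → Fin N) (x : Fin N → V) (hmax : ∀ B, Fn m θ δ B x ≤ Fn m θ δ A x) (i : Fin N) :
    θ * (m i * ‖x i - cmean m A x i‖ ^ 2) ≤ θ ^ mg A * δ ^ 2 := by
  have hR : 0 ≤ θ ^ mg A * δ ^ 2 := by positivity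
  by_cases halone : ∀ j, A j = A i → j = i
  · rw [cmean_of_alone hm A x i halone]
    simpa using hR
  push Not at halone
  obtain ⟨j, hj, hji⟩ := halone
  have hcle : (univ.image A).card ≤ N := by
    simpa using Finset.card_image_le (s := (univ : Finset (Fin N))) (f := A)
  have hc : (univ.image A).card < N := by
    rcases lt_or_eq_of_le hcle with h | h
    · exact h
    · exact absurd (inj_of_mg (A := A) (by unfold mg; omega) hj) hji
  obtain ⟨n, hn⟩ : ∃ n, n ∉ univ.image A := by
    by_contra hcon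
    push Not at hcon
    have : univ.image A = univ := Finset.eq_univ_iff_forall.2 hcon
    rw [this] at hc
    simp at hc
  have hn' : ∀ l, A l ≠ n := fun l h => hn (Finset.mem_image.2 ⟨l, mem_univ _, h⟩)
  let B : Fin N → Fin N := fun l => if l = i then n else A l
  have himg : univ.image B = insert n (univ.image A) := by
    ext y
    simp only [Finset.mem_image, Finset.mem_univ, true_and, Finset.mem_insert]
    constructor
    · rintro ⟨l, rfl⟩
      by_cases hl : l = i
      · left
        simp [B, hl]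
      · right
        exact ⟨l, by simp [B, hl]⟩
    · rintro (rfl | ⟨l, rfl⟩)
      · exact ⟨i, by simp [B]⟩
      · by_cases hl : l = i
        · exact ⟨j, by simp [B, hji, hj, hl]⟩
        · exact ⟨l, by simp [B, hl]⟩
  have hmg : mg A = mg B + 1 := by
    unfold mg
    rw [himg, Finset.card_insert_of_notMem hn]
    omega
  have hpen : pen θ A = pen θ B + θ ^ mg B := by
    unfold pen
    rw [hmg, Finset.sum_range_succ]
  let z : Fin N → V := fun l => if l = i then x i else cmean m A x l
  have hz : ∀ l l', B l = B l' → z l = z l' := by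
    intro l l' h
    by_cases hl : l = i <;> by_cases hl' : l' = i
    · simp [z, hl, hl']
    · simp only [B, hl, hl', if_true, if_false] at h
      exact absurd h.symm (hn' l')
    · simp only [B, hl, hl', if_true, if_false] at h
      exact absurd h (hn' l)
    · simp only [B, hl, hl', if_false] at h
      simp only [z, hl, hl', if_false]
      exact cmean_congr m A x h
  have h1 := best hm B x z hz
  have h2 : iner m (fun l => x l - z l) =
      iner m (fun l => x l - cmean m A x l) - m i * ‖x i - cmean m A x i‖ ^ 2 := by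
    unfold iner
    rw [eq_sub_iff_add_eq]
    have e : ∀ l, m l * ‖x l - cmean m A x l‖ ^ 2 = m l * ‖x l - z l‖ ^ 2 +
        if l = i then m i * ‖x i - cmean m A x i‖ ^ 2 else 0 := by
      intro l
      by_cases hl : l = i
      · subst hl
        simp [z]
      · simp [z, hl]
    rw [Finset.sum_congr rfl fun l _ => e l, Finset.sum_add_distrib]
    simp
  have h3 := iner_split hm A x
  have h4 := hmax B
  unfold Fn at h4
  rw [hpen] at h4
  have h5 : m i * ‖x i - cmean m A x i‖ ^ 2 ≤ θ ^ mg B * δ ^ 2 := by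
    rw [h2] at h1
    nlinarith
  calc θ * (m i * ‖x i - cmean m A x i‖ ^ 2) ≤ θ * (θ ^ mg B * δ ^ 2) :=
        mul_le_mul_of_nonneg_left h5 hθ
    _ = θ ^ mg A * δ ^ 2 := by rw [hmg, pow_succ]; ring

theorem merge_le {m : Fin N → ℝ} (hm : ∀ i, 0 < m i) {θ δ : ℝ}
    (A : Fin N → Fin N) (x : Fin N → V) (hmax : ∀ B, Fn m θ δ B x ≤ Fn m θ δ A x) (i j : Fin N)
    (hij : A i ≠ A j) :
    θ ^ mg A * δ ^ 2 ≤ (∑ l, m l) * ‖cmean m A x i - cmean m A x j‖ ^ 2 := by
  let B : Fin N → Fin N := fun l => if A l = A j then A i else A l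
  have himg : univ.image B = (univ.image A).erase (A j) := by
    ext y
    simp only [Finset.mem_image, Finset.mem_univ, true_and, Finset.mem_erase]
    constructor
    · rintro ⟨l, rfl⟩
      by_cases hl : A l = A j
      · simp only [B, hl, if_true]
        exact ⟨hij, i, rfl⟩
      · simp only [B, hl, if_false]
        exact ⟨hl, l, rfl⟩
    · rintro ⟨h1, l, rfl⟩
      exact ⟨l, by simp [B, h1]⟩
  have hcle : (univ.image A).card ≤ N := by
    simpa using Finset.card_image_le (s := (univ : Finset (Fin N))) (f := A)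
  have hmemj : A j ∈ univ.image A := Finset.mem_image_of_mem _ (mem_univ _)
  have hcpos : 0 < (univ.image A).card := Finset.card_pos.2 ⟨_, hmemj⟩
  have hmg : mg B = mg A + 1 := by
    unfold mg
    rw [himg, Finset.card_erase_of_mem hmemj]
    omega
  have hpen : pen θ B = pen θ A + θ ^ mg A := by
    unfold pen
    rw [hmg, Finset.sum_range_succ]
  let z : Fin N → V := fun l => if A l = A j then cmean m A x i else cmean m A x l
  have hz : ∀ l l', B l = B l' → z l = z l' := by
    intro l l' h
    by_cases hl : A l = A j <;> by_cases hl' : A l' = A j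
    · simp [z, hl, hl']
    · simp only [B, hl, hl', if_true, if_false] at h
      simp only [z, hl, hl', if_true, if_false]
      exact cmean_congr m A x h
    · simp only [B, hl, hl', if_true, if_false] at h
      simp only [z, hl, hl', if_true, if_false]
      exact cmean_congr m A x h
    · simp only [B, hl, hl', if_false] at h
      simp only [z, hl, hl', if_false]
      exact cmean_congr m A x h
  have hzA : ∀ l l', A l = A l' → z l = z l' := by
    intro l l' h
    simp only [z]
    rw [h, cmean_congr m A x h]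
  have h1 := best hm B x z hz
  have h2 := iner_sub hm A x z hzA
  have h3 := iner_split hm A x
  have h4 := hmax B
  have h5 : iner m (fun l => cmean m A x l - z l) ≤
      (∑ l, m l) * ‖cmean m A x i - cmean m A x j‖ ^ 2 := by
    unfold iner
    rw [Finset.sum_mul]
    refine Finset.sum_le_sum fun l _ => ?_
    refine mul_le_mul_of_nonneg_left ?_ (hm l).le
    by_cases hl : A l = A j
    · simp only [z, hl, if_true]
      rw [cmean_congr m A x hl, norm_sub_rev]
    · simp only [z, hl, if_false, sub_self, norm_zero]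
      have e0 : (0:ℝ) ^ 2 = 0 := by norm_num
      rw [e0]
      exact sq_nonneg _
  unfold Fn at h4
  rw [hpen] at h4
  nlinarith

/-- for a maximizing labelling different clusters are well separated -/
theorem sep {m : Fin N → ℝ} {μ M : ℝ} (hμ : 0 < μ) (hm : ∀ i, μ ≤ m i) (hM : ∑ i, m i ≤ M)
    {θ δ : ℝ} (hθ : 16 * M ≤ θ * μ) (hθ1 : 1 ≤ θ)
    (A : Fin N → Fin N) (x : Fin N → V) (hmax : ∀ B, Fn m θ δ B x ≤ Fn m θ δ A x) (i j : Fin N)
    (hij : A i ≠ A j) :
    ‖cmean m A x i - cmean m A x j‖ ≤ 2 * ‖x i - x j‖ ∧ δ ^ 2 ≤ 4 * M * ‖x i - x j‖ ^ 2 := by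
  have hmp : ∀ i, 0 < m i := fun i => hμ.trans_le (hm i)
  have hθ0 : 0 ≤ θ := zero_le_one.trans hθ1
  have hM0 : 0 < M := by
    have h1 : m i ≤ ∑ j, m j := Finset.single_le_sum (f := m) (fun j _ => (hmp j).le) (mem_univ i)
    exact (hmp i).trans_le (h1.trans hM)
  have h1 := merge_le hmp A x hmax i j hij
  have h2 : ∀ l, 16 * ‖x l - cmean m A x l‖ ^ 2 ≤ ‖cmean m A x i - cmean m A x j‖ ^ 2 := by
    intro l
    have h3 := split_le hmp hθ0 A x hmax l
    have h4 : θ * (m l * ‖x l - cmean m A x l‖ ^ 2) ≤ M * ‖cmean m A x i - cmean m A x j‖ ^ 2 :=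
      h3.trans (h1.trans (mul_le_mul_of_nonneg_right hM (sq_nonneg _)))
    have h5 : (θ * μ) * ‖x l - cmean m A x l‖ ^ 2 ≤ θ * (m l * ‖x l - cmean m A x l‖ ^ 2) := by
      have := mul_le_mul_of_nonneg_right (hm l) (sq_nonneg ‖x l - cmean m A x l‖)
      nlinarith
    have h6 : 16 * M * ‖x l - cmean m A x l‖ ^ 2 ≤ (θ * μ) * ‖x l - cmean m A x l‖ ^ 2 :=
      mul_le_mul_of_nonneg_right hθ (sq_nonneg _)
    have h7 : M * (16 * ‖x l - cmean m A x l‖ ^ 2) ≤
        M * ‖cmean m A x i - cmean m A x j‖ ^ 2 := by linarith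
    exact le_of_mul_le_mul_left h7 hM0
  have h3 : ∀ l, ‖x l - cmean m A x l‖ ≤ ‖cmean m A x i - cmean m A x j‖ / 4 := by
    intro l
    have := h2 l
    refine abs_le_of_sq_le_sq' (a := ‖x l - cmean m A x l‖) ?_ (by positivity) |>.2
    nlinarith
  have h4 : ‖cmean m A x i - cmean m A x j‖ ≤ ‖x i - x j‖ + ‖x i - cmean m A x i‖ +
      ‖x j - cmean m A x j‖ := by
    have e : cmean m A x i - cmean m A x j = (x i - x j) - (x i - cmean m A x i) +
        (x j - cmean m A x j) := by abel
    rw [e]
    exact (norm_add_le _ _).trans (add_le_add_left (norm_sub_le _ _) _)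
  have h5 : ‖cmean m A x i - cmean m A x j‖ ≤ 2 * ‖x i - x j‖ := by
    have := h3 i
    have := h3 j
    linarith
  refine ⟨h5, ?_⟩
  have h6 : δ ^ 2 ≤ θ ^ mg A * δ ^ 2 := le_mul_of_one_le_left (sq_nonneg _) (one_le_pow₀ hθ1)
  have h7 : ‖cmean m A x i - cmean m A x j‖ ^ 2 ≤ 4 * ‖x i - x j‖ ^ 2 := by
    have := norm_nonneg (cmean m A x i - cmean m A x j)
    nlinarith
  calc δ ^ 2 ≤ θ ^ mg A * δ ^ 2 := h6
    _ ≤ (∑ l, m l) * ‖cmean m A x i - cmean m A x j‖ ^ 2 := h1
    _ ≤ M * ‖cmean m A x i - cmean m A x j‖ ^ 2 := mul_le_mul_of_nonneg_right hM (sq_nonneg _)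
    _ ≤ M * (4 * ‖x i - x j‖ ^ 2) := mul_le_mul_of_nonneg_left h7 hM0.le
    _ = 4 * M * ‖x i - x j‖ ^ 2 := by ring

end Pool.Agent.K6.H53.NB
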