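import Pool.Agent.K6.H53.NB.Phi

set_option autoImplicit false
set_option linter.unusedSectionVars false

/-!
# Strong convexity
-/

namespace Pool.Agent.K6.H53.NB

open Finset Set Filter Topology

variable {N : ℕ} {V : Type*} [NormedAddCommGroup V] [InnerProductSpace ℝ V]

/-- first constant of the convexity -/
noncomputable def cs3 (N : ℕ) (θ κ : ℝ) : ℝ :=
  (1 - κ) / (4 * (2 + Real.sqrt (nuc N θ) / κ ^ 2) ^ 2 * (2 + nuc N θ))

/-- second constant of the convexity -/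
noncomputable def cs4 (M κ : ℝ) : ℝ := 2 * cstA M * (1 - κ)⁻¹ + 1

theorem cs3_pos (N : ℕ) {θ κ : ℝ} (hθ : 0 ≤ θ) (hκ0 : 0 < κ) (hκ1 : κ < 1) : 0 < cs3 N θ κ := by
  have := nuc_nonneg N hθ
  have := Real.sqrt_nonneg (nuc N θ)
  have : 0 < 1 - κ := by linarith
  unfold cs3
  positivity

theorem cs4_pos (M : ℝ) {κ : ℝ} (hκ1 : κ < 1) : 0 < cs4 M κ := by
  have := cstA_nonneg M
  have : 0 < 1 - κ := by linarith
  unfold cs4
  positivity

theorem siz_bound {m : Fin N → ℝ} {J : Set ℝ} {x y : ℝ → Fin N → V}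
    {k : ℝ → Fin N → Fin N → ℝ} (hs : Sol m J x y k) {a b : ℝ} (hIJ : Icc a b ⊆ J) :
    ∃ Y, 0 ≤ Y ∧ ∀ t ∈ Icc a b, siz m (y t) ≤ Y := by
  have h1 : ContinuousOn (fun t => siz m (y t)) (Icc a b) := fun t ht =>
    ((iner_hasDerivAt m y _ t (hs.yd t (hIJ ht))).continuousAt.sqrt).continuousWithinAt
  obtain ⟨C, hC⟩ := isCompact_Icc.exists_bound_of_continuousOn h1
  refine ⟨max C 0, le_max_right _ _, fun t ht => ?_⟩
  have := hC t ht
  rw [Real.norm_eq_abs] at this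
  exact (le_abs_self _).trans (this.trans (le_max_left _ _))

theorem exists_K {κ : ℝ} (hκ0 : 0 < κ) (hκ1 : κ < 1) {σ c Y j : ℝ} (hσ : 0 < σ) (hc : 0 ≤ c)
    (hY : 0 ≤ Y) (hj : j ≠ 0) : ∃ K : ℕ, 2 * (c * (σ * κ ^ K) ^ 2 * Y) ≤ |j| := by
  have hj' : 0 < |j| := abs_pos.2 hj
  obtain ⟨K, hK⟩ := exists_pow_lt_of_lt_one (y := κ) (x := |j| / (2 * (c * σ ^ 2 * Y) + 1))
    (by positivity) hκ1
  refine ⟨K, ?_⟩
  rw [lt_div_iff₀ (by positivity)] at hK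
  have h1 : κ ^ K ≤ 1 := pow_le_one₀ hκ0.le hκ1.le
  have h0 : 0 ≤ κ ^ K := by positivity
  have h2 : (κ ^ K) ^ 2 ≤ κ ^ K := by nlinarith
  have h3 : (c * σ ^ 2 * Y) * (κ ^ K) ^ 2 ≤ (c * σ ^ 2 * Y) * κ ^ K :=
    mul_le_mul_of_nonneg_left h2 (by positivity)
  calc 2 * (c * (σ * κ ^ K) ^ 2 * Y) = 2 * ((c * σ ^ 2 * Y) * (κ ^ K) ^ 2) := by ring
    _ ≤ 2 * ((c * σ ^ 2 * Y) * κ ^ K) := by linarith
    _ ≤ |j| := by nlinarith

/-- strong convexity of `Phi` along motions with large angular momentum -/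
theorem conv {m : Fin N → ℝ} {μ M θ : ℝ} (hms : Mass m μ M θ) {J : Set ℝ}
    {x y : ℝ → Fin N → V} {k : ℝ → Fin N → Fin N → ℝ} (hs : Sol m J x y k)
    {Jo : V →L[ℝ] V} (hJ : Skew Jo) {κ σ : ℝ} (hκ0 : 0 < κ) (hκ1 : κ < 1)
    (hκ : 8 * M * nuc N θ * κ < μ) (hσ : 0 < σ) {a b : ℝ} (hab : a < b) (hIJ : Icc a b ⊆ J)
    (hr : ∀ t ∈ Icc a b, σ ^ 2 / 2 ≤ siz m (x t) ∧ siz m (x t) ≤ 2 * σ ^ 2) {j : ℝ}
    (hj0 : j ≠ 0) (hj : ∀ t ∈ Icc a b, om m Jo (x t) (y t) = j) :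
    ∃ K : ℕ, ∀ t ∈ Icc a b, (b - a) * Phi m θ κ σ K (x t) ≤
      (b - t) * Phi m θ κ σ K (x a) + (t - a) * Phi m θ κ σ K (x b) -
        (cs3 N θ κ * j ^ 2 / σ ^ 3 - cs4 M κ / σ) * (b - a) * (t - a) * (b - t) / 2 := by
  have hθ0 : 0 ≤ θ := zero_le_one.trans hms.hθ1
  have hp := hms.pos
  have hν := nuc_nonneg N hθ0
  obtain ⟨Y, hY0, hY⟩ := siz_bound hs hIJ
  obtain ⟨K, hK⟩ := exists_K hκ0 hκ1 hσ (Real.sqrt_nonneg (nuc N θ)) hY0 hj0
  refine ⟨K, ?_⟩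
  let s : ℕ → ℝ := fun k => σ * κ ^ k
  have hs0 : ∀ k, 0 < s k := fun k => by simp only [s]; positivity
  have hsσ : ∀ k, s k ^ 2 ≤ σ ^ 2 := by
    intro k
    simp only [s]
    rw [mul_pow]
    have h1 : κ ^ k ≤ 1 := pow_le_one₀ hκ0.le hκ1.le
    have h0 : 0 ≤ κ ^ k := by positivity
    have h2 : (κ ^ k) ^ 2 ≤ 1 := pow_le_one₀ h0 h1
    nlinarith [sq_nonneg σ]
  have hF : ∀ (δ : ℝ), 0 < δ → ∀ A, ∀ t ∈ Icc a b, 0 < Fn m θ δ A (x t) := by
    intro δ hδ A t ht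
    refine Fn_pos hp hms.hθ1 hδ A (x t) ?_
    have h1 := (hr t ht).1
    have h2 : 0 < siz m (x t) := by
      have : 0 < σ ^ 2 / 2 := by positivity
      linarith
    exact Real.sqrt_pos.1 h2
  let G : (Fin (K + 1) → Fin N → Fin N) → ℝ → ℝ := fun A t =>
    ∑ i : Fin (K + 1), s i ^ 3 * Gn m θ (s i ^ 2) (A i) (x t)
  let g : (Fin (K + 1) → Fin N → Fin N) → ℝ → ℝ := fun A t =>
    ∑ i : Fin (K + 1), s i ^ 3 * gn m θ (s i ^ 2) (A i) (x t) (y t)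
  let g' : (Fin (K + 1) → Fin N → Fin N) → ℝ → ℝ := fun A t =>
    ∑ i : Fin (K + 1), s i ^ 3 * gn' m θ (s i ^ 2) (A i) (k t) (x t) (y t)
  have hGd : ∀ A, ∀ t ∈ Icc a b, HasDerivAt (G A) (g A t) t := fun A t ht =>
    HasDerivAt.fun_sum fun i _ => (Gn_hasDerivAt hs θ (s i ^ 2) (A i) (hIJ ht)
      (hF _ (pow_pos (hs0 i) 2) (A i) t ht)).const_mul _
  have hgd : ∀ A, ∀ t ∈ Icc a b, HasDerivAt (g A) (g' A t) t := fun A t ht =>
    HasDerivAt.fun_sum fun i _ => (gn_hasDerivAt hs θ (s i ^ 2) (A i) (hIJ ht)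
      (hF _ (pow_pos (hs0 i) 2) (A i) t ht)).const_mul _
  have hne : Nonempty (Fin N → Fin N) := ⟨id⟩
  have hPhi : ∀ A t, G A t ≤ Phi m θ κ σ K (x t) := by
    intro A t
    simp only [G, Phi]
    rw [Finset.sum_range (fun k => (σ * κ ^ k) ^ 3 * GG m θ ((σ * κ ^ k) ^ 2) (x t))]
    exact Finset.sum_le_sum fun i _ => mul_le_mul_of_nonneg_left (Gn_le_GG m θ _ _ _)
      (pow_pos (hs0 i) 3).le
  have hex : ∀ t, ∃ A, Phi m θ κ σ K (x t) = G A t := by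
    intro t
    choose A hA using fun i : Fin (K + 1) => exists_GG m θ (s i ^ 2) (x t)
    refine ⟨A, ?_⟩
    simp only [G, Phi]
    rw [Finset.sum_range (fun k => (σ * κ ^ k) ^ 3 * GG m θ ((σ * κ ^ k) ^ 2) (x t))]
    exact Finset.sum_congr rfl fun i _ => by rw [← hA i]
  have hlow : ∀ A, ∀ t ∈ Icc a b, (∀ B, G B t ≤ G A t) →
      -(-(cs3 N θ κ * j ^ 2 / σ ^ 3 - cs4 M κ / σ)) < g' A t := by
    intro A t ht hact
    rw [neg_neg]
    -- each component is active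
    have hact1 : ∀ i : Fin (K + 1), ∀ B, Fn m θ (s i ^ 2) B (x t) ≤ Fn m θ (s i ^ 2) (A i) (x t) := by
      intro i B
      have h1 := hact (Function.update A i B)
      simp only [G] at h1
      rw [← Finset.add_sum_erase _ _ (Finset.mem_univ i),
        ← Finset.add_sum_erase _ (fun l : Fin (K + 1) =>
          s l ^ 3 * Gn m θ (s l ^ 2) (A l) (x t)) (Finset.mem_univ i)] at h1
      have h2 : ∑ l ∈ Finset.univ.erase i, s l ^ 3 * Gn m θ (s l ^ 2) (Function.update A i B l) (x t) =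
          ∑ l ∈ Finset.univ.erase i, s l ^ 3 * Gn m θ (s l ^ 2) (A l) (x t) := by
        refine Finset.sum_congr rfl fun l hl => ?_
        rw [Function.update_of_ne (Finset.ne_of_mem_erase hl)]
      rw [h2, Function.update_self] at h1
      have h3 : s i ^ 3 * Gn m θ (s i ^ 2) B (x t) ≤ s i ^ 3 * Gn m θ (s i ^ 2) (A i) (x t) := by
        linarith
      have h4 := le_of_mul_le_mul_left h3 (pow_pos (hs0 i) 3)
      unfold Gn at h4
      exact (Real.sqrt_le_sqrt_iff (hF _ (pow_pos (hs0 i) 2) (A i) t ht).le).1 h4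
    -- extend to all scales
    obtain ⟨A', hA'⟩ : ∃ A' : ℕ → Fin N → Fin N, ∀ i : Fin (K + 1), A' i = A i :=
      ⟨fun l => if h : l < K + 1 then A ⟨l, h⟩ else id, fun i => by simp [i.2]⟩
    have hact2 : ∀ l ≤ K, ∀ B, Fn m θ ((σ * κ ^ l) ^ 2) B (x t) ≤
        Fn m θ ((σ * κ ^ l) ^ 2) (A' l) (x t) := by
      intro l hl B
      have h1 := hact1 ⟨l, by omega⟩ B
      have h2 := hA' ⟨l, by omega⟩
      simp only at h2
      rw [h2]
      exact h1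
    obtain ⟨hr1, hr2⟩ := hr t ht
    have hjt := hj t ht
    have h1 := tele_sq hms hJ hκ0 hκ1 hκ hσ (x t) (y t) hr2 A' K hact2 (by
      rw [hjt]
      refine le_trans ?_ hK
      have := hY t ht
      gcongr)
    rw [hjt, Finset.sum_range] at h1
    have h2 : ∑ i : Fin (K + 1), (σ * κ ^ (i : ℕ)) ^ 3 *
        Mp m θ ((σ * κ ^ (i : ℕ)) ^ 2) (A' i) (x t) (y t) =
        ∑ i : Fin (K + 1), s i ^ 3 * Mp m θ (s i ^ 2) (A i) (x t) (y t) :=
      Finset.sum_congr rfl fun i _ => by rw [hA' i]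
    rw [h2] at h1
    obtain ⟨S, hS⟩ : ∃ S, S = ∑ i : Fin (K + 1), s i ^ 3 * Mp m θ (s i ^ 2) (A i) (x t) (y t) :=
      ⟨_, rfl⟩
    rw [← hS] at h1
    -- lower bound of the components
    have h3 : ∀ i : Fin (K + 1), s i ^ 3 * Mp m θ (s i ^ 2) (A i) (x t) (y t) /
        ((2 + nuc N θ) * σ ^ 2) - s i * (2 * cstA M / σ ^ 2) ≤
        s i ^ 3 * gn' m θ (s i ^ 2) (A i) (k t) (x t) (y t) := by
      intro i
      have hsi := hs0 i
      have hFi := hF _ (pow_pos (hs0 i) 2) (A i) t ht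
      have h4 := gn'_ge hms (pow_pos hsi 2) (A i) (x t) (y t) (hact1 i) hFi (k t)
        (hs.ks t (hIJ ht)) (hs.k0 t (hIJ ht)) (hs.k1 t (hIJ ht))
      have h5 : 0 < Gn m θ (s i ^ 2) (A i) (x t) := Real.sqrt_pos.2 hFi
      have h6 := Gn_le_of hp hθ0 (sq_nonneg (s i)) (hsσ i) (A i) (x t) hr2
      have h7 := hr1.trans (siz_le_Gn hp (A i) (x t) (hact1 i))
      have h8 := Mp_nonneg hp hθ0 (A i) (x t) (y t) (δ := s i ^ 2)
      have h9 : Mp m θ (s i ^ 2) (A i) (x t) (y t) / ((2 + nuc N θ) * σ ^ 2) ≤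
          Mp m θ (s i ^ 2) (A i) (x t) (y t) / Gn m θ (s i ^ 2) (A i) (x t) := by
        gcongr
      have hA0 := cstA_nonneg M
      have h10 : cstA M / s i ^ 2 / Gn m θ (s i ^ 2) (A i) (x t) ≤
          cstA M / s i ^ 2 / (σ ^ 2 / 2) := by
        gcongr
      have h11 : s i ^ 3 * (cstA M / s i ^ 2 / (σ ^ 2 / 2)) = s i * (2 * cstA M / σ ^ 2) := by
        field_simp
      have h12 : s i ^ 3 * (Mp m θ (s i ^ 2) (A i) (x t) (y t) / ((2 + nuc N θ) * σ ^ 2) -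
          cstA M / s i ^ 2 / (σ ^ 2 / 2)) ≤
          s i ^ 3 * gn' m θ (s i ^ 2) (A i) (k t) (x t) (y t) := by
        refine mul_le_mul_of_nonneg_left ?_ (pow_pos hsi 3).le
        rw [sub_div] at h4
        linarith
      rw [mul_sub, h11, ← mul_div_assoc] at h12
      exact h12
    have h4 := Finset.sum_le_sum fun (i : Fin (K + 1)) (_ : i ∈ Finset.univ) => h3 i
    rw [Finset.sum_sub_distrib, ← Finset.sum_div, ← Finset.sum_mul, ← hS] at h4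
    have h5 : ∑ i : Fin (K + 1), s i ≤ σ * (1 - κ)⁻¹ := by
      rw [← Finset.sum_range (fun i => s i)]
      simp only [s]
      rw [← Finset.mul_sum]
      exact mul_le_mul_of_nonneg_left (geom_le hκ0.le hκ1 _) hσ.le
    have hA0 := cstA_nonneg M
    have h6 : (∑ i : Fin (K + 1), s i) * (2 * cstA M / σ ^ 2) ≤
        (σ * (1 - κ)⁻¹) * (2 * cstA M / σ ^ 2) :=
      mul_le_mul_of_nonneg_right h5 (by positivity)
    have h7 : (σ * (1 - κ)⁻¹) * (2 * cstA M / σ ^ 2) = 2 * cstA M * (1 - κ)⁻¹ / σ := by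
      field_simp
    have h8 : cs3 N θ κ * j ^ 2 / σ ^ 3 ≤ S / ((2 + nuc N θ) * σ ^ 2) := by
      have hκ1' : 0 < 1 - κ := by linarith
      have hC0 : 0 < 2 + Real.sqrt (nuc N θ) / κ ^ 2 := by
        have := Real.sqrt_nonneg (nuc N θ)
        positivity
      obtain ⟨C, hC⟩ : ∃ C, C = 2 + Real.sqrt (nuc N θ) / κ ^ 2 := ⟨_, rfl⟩
      rw [← hC] at h1 hC0
      rw [le_div_iff₀ (by positivity)]
      unfold cs3
      rw [← hC]
      have e : (1 - κ) / (4 * C ^ 2 * (2 + nuc N θ)) * j ^ 2 / σ ^ 3 *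
          ((2 + nuc N θ) * σ ^ 2) = j ^ 2 / (4 * C ^ 2 * (σ * (1 - κ)⁻¹)) := by
        field_simp
      rw [e, div_le_iff₀ (by positivity)]
      calc j ^ 2 ≤ 4 * C ^ 2 * (σ * (1 - κ)⁻¹) * S := h1
        _ = _ := by ring
    have h9 : cs4 M κ / σ = 2 * cstA M * (1 - κ)⁻¹ / σ + 1 / σ := by
      unfold cs4
      rw [add_div]
    have h10 : 0 < 1 / σ := by positivity
    rw [h9]
    simp only [g']
    linarith
  intro t ht
  obtain ⟨A, hA⟩ := hex t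
  have hfin := chord G g g' a b (-(cs3 N θ κ * j ^ 2 / σ ^ 3 - cs4 M κ / σ)) hab hGd hgd hlow
    (Phi m θ κ σ K (x a)) (Phi m θ κ σ K (x b)) (fun A => hPhi A a) (fun A => hPhi A b) A t ht
  rw [← hA] at hfin
  linarith

end Pool.Agent.K6.H53.NB
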