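import Pool.Agent.K6.H53.NB.Clus
import Pool.Agent.K6.H53.NB.Chord

set_option autoImplicit false

/-!
# The size of a system of gravitating bodies is almost a convex function of time
-/

namespace Pool.Agent.K6.H53.NB

open Finset Set Filter Topology

variable {N : ℕ} {V : Type*} [NormedAddCommGroup V] [InnerProductSpace ℝ V]

/-- accelerations -/
noncomputable def accel (m : Fin N → ℝ) (k : Fin N → Fin N → ℝ) (x : Fin N → V) (i : Fin N) : V :=
  ∑ j, (m j * k i j) • (x j - x i)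

/-- mixed inertia -/
noncomputable def dil (m : Fin N → ℝ) (x y : Fin N → V) : ℝ := ∑ i, m i * inner ℝ (x i) (y i)

/-- a motion of attracting bodies, projected to the space `V` -/
structure Sol (m : Fin N → ℝ) (J : Set ℝ) (x y : ℝ → Fin N → V)
    (k : ℝ → Fin N → Fin N → ℝ) : Prop where
  xd : ∀ t ∈ J, ∀ i, HasDerivAt (fun s => x s i) (y t i) t
  yd : ∀ t ∈ J, ∀ i, HasDerivAt (fun s => y s i) (accel m (k t) (x t) i) t
  ks : ∀ t ∈ J, ∀ i j, k t i j = k t j i
  k0 : ∀ t ∈ J, ∀ i j, 0 ≤ k t i j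
  k1 : ∀ t ∈ J, ∀ i j, k t i j * ‖x t i - x t j‖ ^ 3 ≤ 1

theorem dil_self (m : Fin N → ℝ) (x : Fin N → V) : dil m x x = iner m x := by
  unfold dil iner
  refine Finset.sum_congr rfl fun i _ => ?_
  rw [real_inner_self_eq_norm_sq]

theorem dil_comm (m : Fin N → ℝ) (x y : Fin N → V) : dil m x y = dil m y x := by
  unfold dil
  refine Finset.sum_congr rfl fun i _ => ?_
  rw [real_inner_comm]

theorem dil_sq_le {m : Fin N → ℝ} (hm : ∀ i, 0 < m i) (x y : Fin N → V) :
    dil m x y ^ 2 ≤ iner m x * iner m y := by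
  have h1 : |dil m x y| ≤ ∑ i, (Real.sqrt (m i) * ‖x i‖) * (Real.sqrt (m i) * ‖y i‖) := by
    unfold dil
    refine (Finset.abs_sum_le_sum_abs _ _).trans (Finset.sum_le_sum fun i _ => ?_)
    rw [abs_mul, abs_of_pos (hm i)]
    have h2 := abs_real_inner_le_norm (x i) (y i)
    have h3 := Real.mul_self_sqrt (hm i).le
    calc m i * |inner ℝ (x i) (y i)| ≤ m i * (‖x i‖ * ‖y i‖) :=
          mul_le_mul_of_nonneg_left h2 (hm i).le
      _ = (Real.sqrt (m i) * Real.sqrt (m i)) * (‖x i‖ * ‖y i‖) := by rw [h3]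
      _ = _ := by ring
  have h2 := Finset.sum_mul_sq_le_sq_mul_sq univ (fun i => Real.sqrt (m i) * ‖x i‖)
    (fun i => Real.sqrt (m i) * ‖y i‖)
  have h3 : ∀ z : Fin N → V, ∑ i, (Real.sqrt (m i) * ‖z i‖) ^ 2 = iner m z := by
    intro z
    unfold iner
    refine Finset.sum_congr rfl fun i _ => ?_
    rw [mul_pow, Real.sq_sqrt (hm i).le]
  rw [h3, h3] at h2
  refine le_trans ?_ h2
  rw [← sq_abs]
  exact pow_le_pow_left₀ (abs_nonneg _) h1 2

theorem force_ge {m : Fin N → ℝ} {μ M : ℝ} (hμ : 0 < μ) (hm : ∀ i, μ ≤ m i)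
    (hM : ∑ i, m i ≤ M) (hM0 : 0 < M)
    {θ δ : ℝ} (hθ : 16 * M ≤ θ * μ) (hθ1 : 1 ≤ θ) (hδ : 0 < δ)
    (A : Fin N → Fin N) (x : Fin N → V) (hmax : ∀ B, Fn m θ δ B x ≤ Fn m θ δ A x)
    (k : Fin N → Fin N → ℝ) (ks : ∀ i j, k i j = k j i) (k0 : ∀ i j, 0 ≤ k i j)
    (k1 : ∀ i j, k i j * ‖x i - x j‖ ^ 3 ≤ 1) :
    -(2 * M ^ 2 * Real.sqrt M / δ) ≤ dil m (cmean m A x) (accel m k x) := by
  have hmp : ∀ i, 0 < m i := fun i => hμ.trans_le (hm i)
  have e1 : dil m (cmean m A x) (accel m k x) =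
      ∑ i, ∑ j, m i * m j * k i j * inner ℝ (cmean m A x i) (x j - x i) := by
    unfold dil accel
    refine Finset.sum_congr rfl fun i _ => ?_
    rw [inner_sum, Finset.mul_sum]
    refine Finset.sum_congr rfl fun j _ => ?_
    rw [inner_smul_right]
    ring
  have e2 : ∑ i, ∑ j, m i * m j * k i j * inner ℝ (cmean m A x i) (x j - x i) =
      ∑ i, ∑ j, m j * m i * k j i * inner ℝ (cmean m A x j) (x i - x j) := Finset.sum_comm
  have e3 : ∀ i j, -(m i * m j * (4 * Real.sqrt M / δ)) ≤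
      m i * m j * k i j * inner ℝ (cmean m A x i) (x j - x i) +
      m j * m i * k j i * inner ℝ (cmean m A x j) (x i - x j) := by
    intro i j
    have hij0 : 0 ≤ m i * m j := mul_nonneg (hmp i).le (hmp j).le
    have e4 : m i * m j * k i j * inner ℝ (cmean m A x i) (x j - x i) +
        m j * m i * k j i * inner ℝ (cmean m A x j) (x i - x j) =
        -(m i * m j * (k i j * inner ℝ (cmean m A x i - cmean m A x j) (x i - x j))) := by
      rw [ks j i, inner_sub_left, ← neg_sub (x i) (x j), inner_neg_right]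
      ring
    rw [e4, neg_le_neg_iff]
    refine mul_le_mul_of_nonneg_left ?_ hij0
    have hb : 0 ≤ 4 * Real.sqrt M / δ := by positivity
    by_cases hA : A i = A j
    · rw [cmean_congr m A x hA, sub_self, inner_zero_left, mul_zero]
      exact hb
    · obtain ⟨h1, h2⟩ := sep hμ hm hM hθ hθ1 A x hmax i j hA
      set r := ‖x i - x j‖ with hr
      have hr0 : 0 ≤ r := norm_nonneg _
      have h3 : inner ℝ (cmean m A x i - cmean m A x j) (x i - x j) ≤ 2 * r ^ 2 := by
        refine (real_inner_le_norm _ _).trans ?_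
        calc ‖cmean m A x i - cmean m A x j‖ * ‖x i - x j‖ ≤ (2 * r) * r :=
              mul_le_mul_of_nonneg_right h1 hr0
          _ = 2 * r ^ 2 := by ring
      have h4 : δ ≤ 2 * Real.sqrt M * r := by
        refine abs_le_of_sq_le_sq' (a := δ) ?_ (by positivity) |>.2
        have := Real.sq_sqrt hM0.le
        calc δ ^ 2 ≤ 4 * M * r ^ 2 := h2
          _ = (2 * Real.sqrt M * r) ^ 2 := by rw [mul_pow, mul_pow, this]; ring
      have h5 := k0 i j
      have h6 := k1 i j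
      rw [le_div_iff₀ hδ]
      have h7 : k i j * inner ℝ (cmean m A x i - cmean m A x j) (x i - x j) ≤
          k i j * (2 * r ^ 2) := mul_le_mul_of_nonneg_left h3 h5
      have h8 : k i j * (2 * r ^ 2) * δ ≤ k i j * (2 * r ^ 2) * (2 * Real.sqrt M * r) :=
        mul_le_mul_of_nonneg_left h4 (by positivity)
      have h9 : k i j * (2 * r ^ 2) * (2 * Real.sqrt M * r) =
          4 * Real.sqrt M * (k i j * r ^ 3) := by ring
      have h10 : 4 * Real.sqrt M * (k i j * r ^ 3) ≤ 4 * Real.sqrt M * 1 :=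
        mul_le_mul_of_nonneg_left h6 (by positivity)
      have h11 := mul_le_mul_of_nonneg_right h7 hδ.le
      linarith
  have e5 : -(∑ i, ∑ j, m i * m j * (4 * Real.sqrt M / δ)) ≤
      2 * dil m (cmean m A x) (accel m k x) := by
    have e6 : 2 * dil m (cmean m A x) (accel m k x) =
        ∑ i, ∑ j, (m i * m j * k i j * inner ℝ (cmean m A x i) (x j - x i) +
          m j * m i * k j i * inner ℝ (cmean m A x j) (x i - x j)) := by
      have e7 : ∑ i, ∑ j, (m i * m j * k i j * inner ℝ (cmean m A x i) (x j - x i) +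
          m j * m i * k j i * inner ℝ (cmean m A x j) (x i - x j)) =
          ∑ i, ∑ j, m i * m j * k i j * inner ℝ (cmean m A x i) (x j - x i) +
          ∑ i, ∑ j, m j * m i * k j i * inner ℝ (cmean m A x j) (x i - x j) := by
        rw [← Finset.sum_add_distrib]
        exact Finset.sum_congr rfl fun i _ => Finset.sum_add_distrib
      rw [e7, ← e2, e1]
      ring
    rw [e6, ← Finset.sum_neg_distrib]
    refine Finset.sum_le_sum fun i _ => ?_
    rw [← Finset.sum_neg_distrib]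
    exact Finset.sum_le_sum fun j _ => e3 i j
  have e8 : ∑ i, ∑ j, m i * m j * (4 * Real.sqrt M / δ) ≤ M ^ 2 * (4 * Real.sqrt M / δ) := by
    have e9 : ∑ i, ∑ j, m i * m j * (4 * Real.sqrt M / δ) =
        (∑ i, m i) * (∑ i, m i) * (4 * Real.sqrt M / δ) := by
      rw [Finset.sum_mul_sum, Finset.sum_mul]
      exact Finset.sum_congr rfl fun i _ => by rw [Finset.sum_mul]
    rw [e9]
    have h0 : 0 ≤ ∑ i, m i := Finset.sum_nonneg fun i _ => (hmp i).le
    refine mul_le_mul_of_nonneg_right ?_ (by positivity)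
    rw [sq]
    exact mul_le_mul hM hM h0 hM0.le
  have e10 : M ^ 2 * (4 * Real.sqrt M / δ) = 2 * (2 * M ^ 2 * Real.sqrt M / δ) := by ring
  linarith

theorem cmean_hasDerivAt (m : Fin N → ℝ) (A : Fin N → Fin N) (x : ℝ → Fin N → V)
    (x' : Fin N → V) (t : ℝ) (h : ∀ i, HasDerivAt (fun s => x s i) (x' i) t) (i : Fin N) :
    HasDerivAt (fun s => cmean m A (x s) i) (cmean m A x' i) t := by
  unfold cmean
  refine HasDerivAt.const_smul _ (HasDerivAt.fun_sum fun j _ => ?_)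
  split_ifs
  · exact (h j).const_smul (m j)
  · exact hasDerivAt_const t 0

theorem dil_hasDerivAt (m : Fin N → ℝ) (x y : ℝ → Fin N → V) (x' y' : Fin N → V) (t : ℝ)
    (hx : ∀ i, HasDerivAt (fun s => x s i) (x' i) t)
    (hy : ∀ i, HasDerivAt (fun s => y s i) (y' i) t) :
    HasDerivAt (fun s => dil m (x s) (y s)) (dil m (x t) y' + dil m x' (y t)) t := by
  unfold dil
  rw [← Finset.sum_add_distrib]
  refine HasDerivAt.fun_sum fun i _ => ?_
  refine (((hx i).inner ℝ (hy i)).const_mul (m i)).congr_deriv ?_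
  ring

theorem iner_hasDerivAt (m : Fin N → ℝ) (x : ℝ → Fin N → V) (x' : Fin N → V) (t : ℝ)
    (hx : ∀ i, HasDerivAt (fun s => x s i) (x' i) t) :
    HasDerivAt (fun s => iner m (x s)) (2 * dil m (x t) x') t := by
  have h := dil_hasDerivAt m x x x' x' t hx hx
  simp only [dil_self] at h
  refine h.congr_deriv ?_
  rw [dil_comm m x' (x t)]
  ring

/-- size -/
noncomputable def siz (m : Fin N → ℝ) (x : Fin N → V) : ℝ := Real.sqrt (iner m x)

/-- derivative of the size -/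
noncomputable def sizd (m : Fin N → ℝ) (x y : Fin N → V) : ℝ := dil m x y / siz m x

theorem siz_hasDerivAt (m : Fin N → ℝ) (x : ℝ → Fin N → V) (x' : Fin N → V) (t : ℝ)
    (hx : ∀ i, HasDerivAt (fun s => x s i) (x' i) t) (h0 : 0 < iner m (x t)) :
    HasDerivAt (fun s => siz m (x s)) (sizd m (x t) x') t := by
  unfold siz sizd
  refine ((iner_hasDerivAt m x x' t hx).sqrt h0.ne').congr_deriv ?_
  unfold siz
  have := (Real.sqrt_pos.2 h0).ne'
  field_simp

theorem Fn_pos {m : Fin N → ℝ} (hm : ∀ i, 0 < m i) {θ δ : ℝ} (hθ : 1 ≤ θ) (hδ : 0 < δ)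
    (A : Fin N → Fin N) (x : Fin N → V) (h0 : 0 < iner m x) : 0 < Fn m θ δ A x := by
  unfold Fn
  by_cases h : mg A = 0
  · rw [cmean_of_inj hm (inj_of_mg h)]
    have := pen_nonneg (zero_le_one.trans hθ) A
    positivity
  · have h1 := pen_ge (zero_le_one.trans hθ) A h
    have h2 := iner_nonneg hm (cmean m A x)
    have : 0 < pen θ A * δ ^ 2 := by positivity
    linarith

theorem Fn_id {m : Fin N → ℝ} (hm : ∀ i, 0 < m i) (θ δ : ℝ) (x : Fin N → V) :
    Fn m θ δ id x = iner m x := by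
  have h : mg (id : Fin N → Fin N) = 0 := by
    unfold mg
    simp
  unfold Fn pen
  rw [h, cmean_of_inj hm Function.injective_id]
  simp

theorem Fn_le {m : Fin N → ℝ} (hm : ∀ i, 0 < m i) {θ : ℝ} (hθ : 0 ≤ θ) (δ : ℝ)
    (A : Fin N → Fin N) (x : Fin N → V) :
    Fn m θ δ A x ≤ iner m x + (∑ l ∈ range N, θ ^ l) * δ ^ 2 := by
  unfold Fn
  have h1 := iner_cmean_le hm A x
  have h2 := mul_le_mul_of_nonneg_right (pen_le hθ A) (sq_nonneg δ)
  linarith

/-- first constant -/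
noncomputable def cstA (M : ℝ) : ℝ := 2 * M ^ 2 * Real.sqrt M

/-- second constant -/
noncomputable def cstB (N : ℕ) (M θ : ℝ) : ℝ := 4 * (∑ l ∈ range N, θ ^ l) + 28 * (cstA M + 1)

theorem cstA_nonneg (M : ℝ) : 0 ≤ cstA M := by
  unfold cstA
  positivity

theorem cstB_pos (N : ℕ) (M : ℝ) {θ : ℝ} (hθ : 0 ≤ θ) : 0 < cstB N M θ := by
  unfold cstB
  have h1 := cstA_nonneg M
  have h2 : 0 ≤ ∑ l ∈ range N, θ ^ l := Finset.sum_nonneg fun _ _ => pow_nonneg hθ _
  linarith

/-- hypotheses on the masses -/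
structure Mass (m : Fin N → ℝ) (μ M θ : ℝ) : Prop where
  μ0 : 0 < μ
  hm : ∀ i, μ ≤ m i
  hM : ∑ i, m i ≤ M
  M0 : 0 < M
  hθ : 16 * M ≤ θ * μ
  hθ1 : 1 ≤ θ

theorem Mass.pos {m : Fin N → ℝ} {μ M θ : ℝ} (h : Mass m μ M θ) (i : Fin N) : 0 < m i :=
  h.μ0.trans_le (h.hm i)

/-- the size is almost convex at scale `δ` -/
theorem almost {m : Fin N → ℝ} {μ M θ : ℝ} (hms : Mass m μ M θ) {J : Set ℝ}
    {x y : ℝ → Fin N → V} {k : ℝ → Fin N → Fin N → ℝ} (hs : Sol m J x y k)
    {t0 t1 r δ : ℝ} (h01 : t0 < t1) (hJ : Icc t0 t1 ⊆ J) (hr : 0 < r)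
    (hR : ∀ t ∈ Icc t0 t1, r ≤ siz m (x t)) (hδ : 0 < δ) (t : ℝ) (ht : t ∈ Icc t0 t1) :
    (t1 - t0) * siz m (x t) ≤ (t1 - t) * (siz m (x t0) + (∑ l ∈ range N, θ ^ l) * δ ^ 2 / (2 * r))
      + (t - t0) * (siz m (x t1) + (∑ l ∈ range N, θ ^ l) * δ ^ 2 / (2 * r))
      + ((cstA M + 1) / (δ * r)) * (t1 - t0) * (t - t0) * (t1 - t) / 2 := by
  have hmp : ∀ i, 0 < m i := hms.pos
  have hθ0 : 0 ≤ θ := zero_le_one.trans hms.hθ1
  have hI : ∀ t ∈ Icc t0 t1, 0 < iner m (x t) := by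
    intro t ht
    have h1 : 0 < siz m (x t) := hr.trans_le (hR t ht)
    exact Real.sqrt_pos.1 h1
  have hF : ∀ A, ∀ t ∈ Icc t0 t1, 0 < Fn m θ δ A (x t) := fun A t ht =>
    Fn_pos hmp hms.hθ1 hδ A (x t) (hI t ht)
  let G : (Fin N → Fin N) → ℝ → ℝ := fun A t => Real.sqrt (Fn m θ δ A (x t))
  let P : (Fin N → Fin N) → ℝ → ℝ := fun A t => dil m (cmean m A (x t)) (cmean m A (y t))
  let g : (Fin N → Fin N) → ℝ → ℝ := fun A t => P A t / G A t
  let P' : (Fin N → Fin N) → ℝ → ℝ := fun A t =>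
    dil m (cmean m A (x t)) (cmean m A (accel m (k t) (x t))) +
      dil m (cmean m A (y t)) (cmean m A (y t))
  let g' : (Fin N → Fin N) → ℝ → ℝ := fun A t => (P' A t * G A t - P A t * g A t) / G A t ^ 2
  have hGpos : ∀ A, ∀ t ∈ Icc t0 t1, 0 < G A t := fun A t ht => Real.sqrt_pos.2 (hF A t ht)
  have hGd : ∀ A, ∀ t ∈ Icc t0 t1, HasDerivAt (G A) (g A t) t := by
    intro A t ht
    have h1 := iner_hasDerivAt m (fun s => cmean m A (x s)) (cmean m A (y t)) t
      (cmean_hasDerivAt m A x (y t) t (hs.xd t (hJ ht)))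
    have h2 : HasDerivAt (fun s => Fn m θ δ A (x s)) (2 * P A t) t := h1.add_const _
    refine (h2.sqrt (hF A t ht).ne').congr_deriv ?_
    have := (hGpos A t ht).ne'
    simp only [g, G] at this ⊢
    field_simp
  have hPd : ∀ A, ∀ t ∈ Icc t0 t1, HasDerivAt (P A) (P' A t) t := fun A t ht =>
    dil_hasDerivAt m (fun s => cmean m A (x s)) (fun s => cmean m A (y s)) _ _ t
      (cmean_hasDerivAt m A x (y t) t (hs.xd t (hJ ht)))
      (cmean_hasDerivAt m A y _ t (hs.yd t (hJ ht)))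
  have hgd : ∀ A, ∀ t ∈ Icc t0 t1, HasDerivAt (g A) (g' A t) t := fun A t ht =>
    (hPd A t ht).div (hGd A t ht) (hGpos A t ht).ne'
  have hlow : ∀ A, ∀ t ∈ Icc t0 t1, (∀ B, G B t ≤ G A t) → -((cstA M + 1) / (δ * r)) < g' A t := by
    intro A t ht hact
    have hGp := hGpos A t ht
    have hmax : ∀ B, Fn m θ δ B (x t) ≤ Fn m θ δ A (x t) := fun B =>
      (Real.sqrt_le_sqrt_iff (hF A t ht).le).1 (hact B)
    have hW := force_ge hms.μ0 hms.hm hms.hM hms.M0 hms.hθ hms.hθ1 hδ A (x t) hmax (k t)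
      (hs.ks t (hJ ht)) (hs.k0 t (hJ ht)) (hs.k1 t (hJ ht))
    have hW2 : dil m (cmean m A (x t)) (cmean m A (accel m (k t) (x t))) =
        dil m (cmean m A (x t)) (accel m (k t) (x t)) := by
      rw [dil_comm, dil_comm m (cmean m A (x t)) (accel m (k t) (x t))]
      exact cmean_inner hmp A _ _ fun i j h => cmean_congr m A _ h
    have hS : dil m (cmean m A (y t)) (cmean m A (y t)) = iner m (cmean m A (y t)) := dil_self _ _
    have hcs := dil_sq_le hmp (cmean m A (x t)) (cmean m A (y t))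
    have hG2 : G A t ^ 2 = Fn m θ δ A (x t) := Real.sq_sqrt (hF A t ht).le
    have hQ : iner m (cmean m A (x t)) ≤ G A t ^ 2 := by
      rw [hG2]
      unfold Fn
      have := pen_nonneg hθ0 A
      have : 0 ≤ pen θ A * δ ^ 2 := by positivity
      linarith
    have hY := iner_nonneg hmp (cmean m A (y t))
    have hrG : r ≤ G A t := by
      have h1 := hact id
      have h2 : G id t = siz m (x t) := by
        simp only [G]
        rw [Fn_id hmp]
        rfl
      rw [h2] at h1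
      exact (hR t ht).trans h1
    have e1 : g' A t = (P' A t - P A t ^ 2 / G A t ^ 2) / G A t := by
      simp only [g', g]
      field_simp
    have h3 : P A t ^ 2 / G A t ^ 2 ≤ iner m (cmean m A (y t)) := by
      rw [div_le_iff₀ (by positivity)]
      calc P A t ^ 2 ≤ iner m (cmean m A (x t)) * iner m (cmean m A (y t)) := hcs
        _ ≤ G A t ^ 2 * iner m (cmean m A (y t)) := mul_le_mul_of_nonneg_right hQ hY
        _ = _ := by ring
    have h4 : -(cstA M / δ) ≤ P' A t - P A t ^ 2 / G A t ^ 2 := by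
      simp only [P']
      rw [hW2, hS]
      have : cstA M / δ = 2 * M ^ 2 * Real.sqrt M / δ := rfl
      linarith
    have h5 := cstA_nonneg M
    rw [e1, lt_div_iff₀ hGp]
    have h6 : (cstA M + 1) / (δ * r) * G A t ≥ (cstA M + 1) / δ := by
      have e2 : (cstA M + 1) / (δ * r) * G A t = (cstA M + 1) / δ * (G A t / r) := by
        field_simp
      rw [e2]
      have h7 : 1 ≤ G A t / r := (one_le_div hr).2 hrG
      have h8 : 0 ≤ (cstA M + 1) / δ := by positivity
      nlinarith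
    have h9 : cstA M / δ < (cstA M + 1) / δ := div_lt_div_of_pos_right (by linarith) hδ
    linarith
  have hend : ∀ A, ∀ t ∈ Icc t0 t1,
      G A t ≤ siz m (x t) + (∑ l ∈ range N, θ ^ l) * δ ^ 2 / (2 * r) := by
    intro A t ht
    have h1 := Fn_le hmp hθ0 δ A (x t)
    have hRt := hR t ht
    have hsz : siz m (x t) ^ 2 = iner m (x t) := Real.sq_sqrt (hI t ht).le
    set ν : ℝ := ∑ l ∈ range N, θ ^ l with hν
    have hν0 : 0 ≤ ν := Finset.sum_nonneg fun _ _ => pow_nonneg hθ0 _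
    have h2 : 0 ≤ ν * δ ^ 2 / (2 * r) := by positivity
    refine (Real.sqrt_le_sqrt h1).trans ?_
    rw [Real.sqrt_le_left (by linarith)]
    have h3 : ν * δ ^ 2 ≤ 2 * siz m (x t) * (ν * δ ^ 2 / (2 * r)) := by
      have e : ν * δ ^ 2 = 2 * r * (ν * δ ^ 2 / (2 * r)) := by field_simp
      calc ν * δ ^ 2 = 2 * r * (ν * δ ^ 2 / (2 * r)) := e
        _ ≤ 2 * siz m (x t) * (ν * δ ^ 2 / (2 * r)) :=
          mul_le_mul_of_nonneg_right (by linarith) h2
    rw [← hsz]
    nlinarith [sq_nonneg (ν * δ ^ 2 / (2 * r))]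
  have : Nonempty (Fin N → Fin N) := ⟨id⟩
  have hfin := chord G g g' t0 t1 ((cstA M + 1) / (δ * r)) h01 hGd hgd hlow
    (siz m (x t0) + (∑ l ∈ range N, θ ^ l) * δ ^ 2 / (2 * r))
    (siz m (x t1) + (∑ l ∈ range N, θ ^ l) * δ ^ 2 / (2 * r))
    (fun A => hend A t0 (left_mem_Icc.2 h01.le)) (fun A => hend A t1 (right_mem_Icc.2 h01.le))
    id t ht
  have hid : G id t = siz m (x t) := by
    simp only [G]
    rw [Fn_id hmp]
    rfl
  rw [hid] at hfin
  exact hfin

end Pool.Agent.K6.H53.NB
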