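import Pool.Agent.K6.H53.NB.Dyn

set_option autoImplicit false

/-!
# Escape criterion for systems of gravitating bodies
-/

namespace Pool.Agent.K6.H53.NB

open Finset Set Filter Topology

variable {N : ℕ} {V : Type*} [NormedAddCommGroup V] [InnerProductSpace ℝ V]

/-- one step of the multiscale argument -/
theorem step8 {m : Fin N → ℝ} {μ M θ : ℝ} (hms : Mass m μ M θ) {J : Set ℝ}
    {x y : ℝ → Fin N → V} {k : ℝ → Fin N → Fin N → ℝ} (hs : Sol m J x y k)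
    {t0 r a : ℝ} (ha : 0 < a) (hJ : Icc t0 (t0 + 8 * a ^ 3) ⊆ J) (hr : 0 < r)
    (hR : ∀ t ∈ Icc t0 (t0 + 8 * a ^ 3), r ≤ siz m (x t)) :
    8 * (siz m (x (t0 + a ^ 3)) - siz m (x t0)) ≤
      siz m (x (t0 + 8 * a ^ 3)) - siz m (x t0) + cstB N M θ * a ^ 4 / r := by
  have ha3 : 0 < a ^ 3 := by positivity
  have h := almost hms hs (t0 := t0) (t1 := t0 + 8 * a ^ 3) (r := r) (δ := a ^ 2) (by linarith)
    hJ hr hR (by positivity) (t0 + a ^ 3) ⟨by linarith, by linarith⟩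
  set ν : ℝ := ∑ l ∈ range N, θ ^ l with hν
  have e1 : ν * (a ^ 2) ^ 2 / (2 * r) = ν * a ^ 4 / r / 2 := by
    field_simp
  have e2 : (cstA M + 1) / (a ^ 2 * r) * (t0 + 8 * a ^ 3 - t0) * (t0 + a ^ 3 - t0) *
      (t0 + 8 * a ^ 3 - (t0 + a ^ 3)) / 2 = a ^ 3 * (28 * (cstA M + 1) * a ^ 4 / r) := by
    field_simp
    ring
  rw [e1, e2] at h
  have e3 : cstB N M θ * a ^ 4 / r = 4 * (ν * a ^ 4 / r) + 28 * (cstA M + 1) * a ^ 4 / r := by
    unfold cstB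
    rw [← hν]
    ring
  rw [e3]
  have h2 : a ^ 3 * (8 * siz m (x (t0 + a ^ 3))) ≤ a ^ 3 * (7 * siz m (x t0) +
      siz m (x (t0 + 8 * a ^ 3)) + 4 * (ν * a ^ 4 / r) + 28 * (cstA M + 1) * a ^ 4 / r) := by
    have e4 : t0 + 8 * a ^ 3 - (t0 + a ^ 3) = 7 * a ^ 3 := by ring
    have e5 : t0 + a ^ 3 - t0 = a ^ 3 := by ring
    have e6 : t0 + 8 * a ^ 3 - t0 = 8 * a ^ 3 := by ring
    rw [e4, e5, e6] at h
    nlinarith
  have h3 := le_of_mul_le_mul_left h2 ha3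
  linarith

theorem chain8 {m : Fin N → ℝ} {μ M θ : ℝ} (hms : Mass m μ M θ) {J : Set ℝ}
    {x y : ℝ → Fin N → V} {k : ℝ → Fin N → Fin N → ℝ} (hs : Sol m J x y k)
    {t0 r a : ℝ} (ha : 0 < a) (hJ : Icc t0 (t0 + a ^ 3) ⊆ J) (hr : 0 < r)
    (hR : ∀ t ∈ Icc t0 (t0 + a ^ 3), r ≤ siz m (x t)) (n : ℕ) :
    8 ^ n * (siz m (x (t0 + (a / 2 ^ n) ^ 3)) - siz m (x t0)) ≤
      siz m (x (t0 + a ^ 3)) - siz m (x t0) +
        cstB N M θ * a ^ 4 / (8 * r) * (1 - (1 / 2) ^ n) := by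
  induction n with
  | zero => simp
  | succ n ih =>
    have hp : (0:ℝ) < 2 ^ (n + 1) := by positivity
    have h1 : 8 * (a / 2 ^ (n + 1)) ^ 3 = (a / 2 ^ n) ^ 3 := by
      have e : (2:ℝ) ^ (n + 1) = 2 ^ n * 2 := pow_succ _ _
      have e' : ((2:ℝ) ^ n) ^ 3 ≠ 0 := by positivity
      rw [e, div_pow, div_pow, mul_pow]
      field_simp
      norm_num
    have h2 : (a / 2 ^ n) ^ 3 ≤ a ^ 3 := by
      refine pow_le_pow_left₀ (by positivity) ?_ 3
      exact div_le_self ha.le (one_le_pow₀ (by norm_num))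
    have h3 : ∀ t ∈ Icc t0 (t0 + 8 * (a / 2 ^ (n + 1)) ^ 3), t ∈ Icc t0 (t0 + a ^ 3) := by
      intro t ht
      rw [h1] at ht
      exact ⟨ht.1, ht.2.trans (by linarith)⟩
    have h4 := step8 hms hs (t0 := t0) (r := r) (a := a / 2 ^ (n + 1)) (by positivity)
      (fun t ht => hJ (h3 t ht)) hr (fun t ht => hR t (h3 t ht))
    rw [h1] at h4
    have h5 : (0:ℝ) < 8 ^ n := by positivity
    have h6 := mul_le_mul_of_nonneg_left h4 h5.le
    have e1 : (8:ℝ) ^ n * (cstB N M θ * (a / 2 ^ (n + 1)) ^ 4 / r) =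
        cstB N M θ * a ^ 4 / (8 * r) * ((1 / 2) ^ n - (1 / 2) ^ (n + 1)) := by
      have e2 : (8:ℝ) ^ n = 2 ^ n * 2 ^ n * 2 ^ n := by
        rw [← mul_pow, ← mul_pow]
        norm_num
      have e3 : ((1:ℝ) / 2) ^ n = 1 / 2 ^ n := by rw [div_pow, one_pow]
      have e4 : ((1:ℝ) / 2) ^ (n + 1) = 1 / 2 ^ n / 2 := by rw [pow_succ, e3]; ring
      rw [e2, e3, e4, pow_succ]
      have : (2:ℝ) ^ n ≠ 0 := by positivity
      field_simp
      ring
    have e5 : (8:ℝ) ^ (n + 1) * (siz m (x (t0 + (a / 2 ^ (n + 1)) ^ 3)) - siz m (x t0)) =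
        8 ^ n * (8 * (siz m (x (t0 + (a / 2 ^ (n + 1)) ^ 3)) - siz m (x t0))) := by
      rw [pow_succ]; ring
    rw [e5]
    have e6 : (8:ℝ) ^ n * (siz m (x (t0 + (a / 2 ^ n) ^ 3)) - siz m (x t0) +
        cstB N M θ * (a / 2 ^ (n + 1)) ^ 4 / r) =
        8 ^ n * (siz m (x (t0 + (a / 2 ^ n) ^ 3)) - siz m (x t0)) +
          cstB N M θ * a ^ 4 / (8 * r) * ((1 / 2) ^ n - (1 / 2) ^ (n + 1)) := by
      rw [mul_add, e1]
    rw [e6] at h6
    have e7 : cstB N M θ * a ^ 4 / (8 * r) * (1 - (1 / 2) ^ (n + 1)) =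
        cstB N M θ * a ^ 4 / (8 * r) * (1 - (1 / 2) ^ n) +
          cstB N M θ * a ^ 4 / (8 * r) * ((1 / 2) ^ n - (1 / 2) ^ (n + 1)) := by ring
    rw [e7]
    linarith

/-- lower bound of the increment by the derivative at the beginning -/
theorem incr_ge {m : Fin N → ℝ} {μ M θ : ℝ} (hms : Mass m μ M θ) {J : Set ℝ}
    {x y : ℝ → Fin N → V} {k : ℝ → Fin N → Fin N → ℝ} (hs : Sol m J x y k)
    {t0 r a : ℝ} (ha : 0 < a) (hJ : Icc t0 (t0 + a ^ 3) ⊆ J) (hr : 0 < r)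
    (hR : ∀ t ∈ Icc t0 (t0 + a ^ 3), r ≤ siz m (x t)) :
    a ^ 3 * sizd m (x t0) (y t0) ≤
      siz m (x (t0 + a ^ 3)) - siz m (x t0) + cstB N M θ * a ^ 4 / (8 * r) := by
  have ha3 : 0 < a ^ 3 := by positivity
  have hmem : t0 ∈ Icc t0 (t0 + a ^ 3) := ⟨le_rfl, by linarith⟩
  have hI : 0 < iner m (x t0) := Real.sqrt_pos.1 (hr.trans_le (hR t0 hmem))
  have hd := siz_hasDerivAt m x (y t0) t0 (hs.xd t0 (hJ hmem)) hI
  have h1 := hasDerivAt_iff_tendsto_slope.1 hd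
  have h2 : Tendsto (fun n : ℕ => t0 + (a / 2 ^ n) ^ 3) atTop (𝓝[≠] t0) := by
    refine tendsto_nhdsWithin_iff.2 ⟨?_, Eventually.of_forall fun n => ?_⟩
    · have h3 : Tendsto (fun n : ℕ => a / 2 ^ n) atTop (𝓝 0) := by
        have h4 := (tendsto_pow_atTop_nhds_zero_of_lt_one (r := (1/2 : ℝ)) (by norm_num)
          (by norm_num)).const_mul a
        rw [mul_zero] at h4
        refine h4.congr fun n => ?_
        rw [div_pow, one_pow]
        ring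
      have h5 := (h3.pow 3).const_add t0
      simpa using h5
    · have : (0:ℝ) < (a / 2 ^ n) ^ 3 := by positivity
      show t0 + (a / 2 ^ n) ^ 3 ≠ t0
      linarith
  have h3 := h1.comp h2
  have h4 := h3.const_mul (a ^ 3)
  have hc := cstB_pos N M (θ := θ) (zero_le_one.trans hms.hθ1)
  refine le_of_tendsto' h4 fun n => ?_
  have h5 := chain8 hms hs ha hJ hr hR n
  simp only [Function.comp]
  rw [slope_def_field]
  have e1 : t0 + (a / 2 ^ n) ^ 3 - t0 = a ^ 3 / 8 ^ n := by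
    have e2 : (8:ℝ) ^ n = (2 ^ n) ^ 3 := by
      rw [← pow_mul, mul_comm n 3, pow_mul]
      norm_num
    rw [e2, div_pow]
    ring
  rw [e1]
  have e3 : a ^ 3 * ((siz m (x (t0 + (a / 2 ^ n) ^ 3)) - siz m (x t0)) / (a ^ 3 / 8 ^ n)) =
      8 ^ n * (siz m (x (t0 + (a / 2 ^ n) ^ 3)) - siz m (x t0)) := by
    have : (8:ℝ) ^ n ≠ 0 := by positivity
    field_simp
  rw [e3]
  refine h5.trans ?_
  have h6 : 0 ≤ cstB N M θ * a ^ 4 / (8 * r) := by positivity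
  have h7 : (0:ℝ) ≤ (1 / 2) ^ n := by positivity
  nlinarith

/-- time reversal -/
theorem Sol.rev {m : Fin N → ℝ} {J : Set ℝ} {x y : ℝ → Fin N → V}
    {k : ℝ → Fin N → Fin N → ℝ} (hs : Sol m J x y k) :
    Sol m {t | -t ∈ J} (fun t => x (-t)) (fun t i => -(y (-t) i)) (fun t => k (-t)) where
  xd := fun t ht i => by
    have h : HasDerivAt (fun s => x (-s) i) ((-1 : ℝ) • y (-t) i) t :=
      (hs.xd (-t) ht i).scomp t (hasDerivAt_neg t)
    exact h.congr_deriv (by simp)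
  yd := fun t ht i => by
    have h : HasDerivAt (fun s => y (-s) i) ((-1 : ℝ) • accel m (k (-t)) (x (-t)) i) t :=
      (hs.yd (-t) ht i).scomp t (hasDerivAt_neg t)
    exact h.neg.congr_deriv (by simp)
  ks := fun t ht => hs.ks (-t) ht
  k0 := fun t ht => hs.k0 (-t) ht
  k1 := fun t ht => hs.k1 (-t) ht

theorem sizd_neg (m : Fin N → ℝ) (x y : Fin N → V) :
    sizd m x (fun i => -(y i)) = -sizd m x y := by
  unfold sizd dil
  rw [← neg_div]
  congr 1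
  rw [← Finset.sum_neg_distrib]
  refine Finset.sum_congr rfl fun i _ => ?_
  rw [inner_neg_right]
  ring

/-- the derivative of the size cannot decrease quickly -/
theorem deriv_ge {m : Fin N → ℝ} {μ M θ : ℝ} (hms : Mass m μ M θ) {J : Set ℝ}
    {x y : ℝ → Fin N → V} {k : ℝ → Fin N → Fin N → ℝ} (hs : Sol m J x y k)
    {t0 t1 r a : ℝ} (h01 : t0 ≤ t1) (ha : t1 - t0 ≤ a ^ 3) (ha0 : 0 < a)
    (hJ : Icc t0 t1 ⊆ J) (hr : 0 < r)
    (hR : ∀ t ∈ Icc t0 t1, r ≤ siz m (x t)) :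
    sizd m (x t0) (y t0) ≤ sizd m (x t1) (y t1) + cstB N M θ * a / (4 * r) := by
  have hc := cstB_pos N M (θ := θ) (zero_le_one.trans hms.hθ1)
  rcases h01.eq_or_lt with he | hlt
  · rw [he]
    have : 0 ≤ cstB N M θ * a / (4 * r) := by positivity
    linarith
  -- cube root
  obtain ⟨b, hb0, hb⟩ : ∃ b : ℝ, 0 < b ∧ b ^ 3 = t1 - t0 := by
    refine ⟨(t1 - t0) ^ (1 / 3 : ℝ), Real.rpow_pos_of_pos (by linarith) _, ?_⟩
    rw [← Real.rpow_natCast, ← Real.rpow_mul (by linarith)]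
    norm_num
  have hba : b ≤ a := by
    by_contra hcon
    push Not at hcon
    have := pow_lt_pow_left₀ hcon ha0.le (n := 3) (by norm_num)
    linarith
  have e1 : t0 + b ^ 3 = t1 := by rw [hb]; ring
  have h1 := incr_ge hms hs (t0 := t0) (r := r) hb0 (by rw [e1]; exact hJ) hr
    (by rw [e1]; exact hR)
  rw [e1] at h1
  have e2 : -t1 + b ^ 3 = -t0 := by rw [hb]; ring
  have h2 := incr_ge hms hs.rev (t0 := -t1) (r := r) hb0
    (by
      rw [e2]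
      intro t ht
      exact hJ ⟨by linarith [ht.2], by linarith [ht.1]⟩) hr
    (by
      rw [e2]
      intro t ht
      exact hR _ ⟨by linarith [ht.2], by linarith [ht.1]⟩)
  rw [e2] at h2
  simp only [neg_neg] at h2
  rw [sizd_neg] at h2
  have h3 : b ^ 3 * (sizd m (x t0) (y t0) - sizd m (x t1) (y t1)) ≤
      b ^ 3 * (cstB N M θ * b / (4 * r)) := by
    have e3 : b ^ 3 * (cstB N M θ * b / (4 * r)) = 2 * (cstB N M θ * b ^ 4 / (8 * r)) := by
      field_simp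
      norm_num
    rw [e3]
    linarith
  have h4 := le_of_mul_le_mul_left h3 (by positivity)
  have h5 : cstB N M θ * b / (4 * r) ≤ cstB N M θ * a / (4 * r) := by gcongr
  linarith

end Pool.Agent.K6.H53.NB
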