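import Pool.Agent.K6.H53.NB.Esc

set_option autoImplicit false

/-!
# Escape criterion: long times
-/

namespace Pool.Agent.K6.H53.NB

open Finset Set Filter Topology

variable {N : ℕ} {V : Type*} [NormedAddCommGroup V] [InnerProductSpace ℝ V]

theorem siz_pos_iff (m : Fin N → ℝ) (x : Fin N → V) : 0 < siz m x ↔ 0 < iner m x := Real.sqrt_pos

theorem siz_nonneg (m : Fin N → ℝ) (x : Fin N → V) : 0 ≤ siz m x := Real.sqrt_nonneg _

theorem left_limit {f : ℝ → ℝ} {a b c : ℝ} (hab : a < b) (hf : ContinuousAt f b)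
    (h : ∀ t ∈ Ico a b, c ≤ f t) : c ≤ f b := by
  have h1 : Tendsto f (𝓝[Ico a b] b) (𝓝 (f b)) := hf.mono_left nhdsWithin_le_nhds
  have : (𝓝[Ico a b] b).NeBot := by
    rw [← mem_closure_iff_nhdsWithin_neBot, closure_Ico hab.ne]
    exact right_mem_Icc.2 hab.le
  exact ge_of_tendsto h1 (eventually_nhdsWithin_of_forall h)

theorem dil_cont {m : Fin N → ℝ} {J : Set ℝ} {x y : ℝ → Fin N → V}
    {k : ℝ → Fin N → Fin N → ℝ} (hs : Sol m J x y k) {t : ℝ} (ht : t ∈ J) :
    ContinuousAt (fun s => dil m (x s) (y s)) t :=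
  (dil_hasDerivAt m x y _ _ t (hs.xd t ht) (hs.yd t ht)).continuousAt

theorem siz_cont {m : Fin N → ℝ} {J : Set ℝ} {x y : ℝ → Fin N → V}
    {k : ℝ → Fin N → Fin N → ℝ} (hs : Sol m J x y k) {t : ℝ} (ht : t ∈ J) :
    ContinuousAt (fun s => siz m (x s)) t :=
  (iner_hasDerivAt m x _ t (hs.xd t ht)).continuousAt.sqrt

theorem grow {m : Fin N → ℝ} {J : Set ℝ} {x y : ℝ → Fin N → V}
    {k : ℝ → Fin N → Fin N → ℝ} (hs : Sol m J x y k) {t0 t1 w : ℝ} (hJ : Icc t0 t1 ⊆ J)
    (hpos : ∀ t ∈ Icc t0 t1, 0 < siz m (x t)) (hd : ∀ t ∈ Icc t0 t1, w ≤ sizd m (x t) (y t))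
    {s t : ℝ} (hs1 : s ∈ Icc t0 t1) (ht1 : t ∈ Icc t0 t1) (hst : s ≤ t) :
    w * (t - s) ≤ siz m (x t) - siz m (x s) := by
  have hder : ∀ t ∈ Icc t0 t1, HasDerivAt (fun s => siz m (x s) - w * s)
      (sizd m (x t) (y t) - w) t := by
    intro t ht
    have h1 := siz_hasDerivAt m x (y t) t (hs.xd t (hJ ht)) ((siz_pos_iff m _).1 (hpos t ht))
    have h2 : HasDerivAt (fun s : ℝ => w * s) w t := by
      simpa using (hasDerivAt_id t).const_mul w
    exact h1.sub h2
  have hmono : MonotoneOn (fun s => siz m (x s) - w * s) (Icc t0 t1) := by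
    refine monotoneOn_of_deriv_nonneg (convex_Icc t0 t1)
      (fun t ht => (hder t ht).continuousAt.continuousWithinAt)
      (fun t ht => (hder t (interior_subset ht)).differentiableAt.differentiableWithinAt) ?_
    intro t ht
    rw [(hder t (interior_subset ht)).deriv]
    linarith [hd t (interior_subset ht)]
  have h := hmono hs1 ht1 hst
  simp only at h
  linarith

theorem climb {m : Fin N → ℝ} {μ M θ : ℝ} (hms : Mass m μ M θ) {J : Set ℝ}
    {x y : ℝ → Fin N → V} {k : ℝ → Fin N → Fin N → ℝ} (hs : Sol m J x y k) {v : ℝ} (hv : 0 < v) :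
    ∀ (n : ℕ) (t0 t1 a : ℝ), t0 ≤ t1 → Icc t0 t1 ⊆ J → 0 < a →
      (∀ t ∈ Icc t0 t1, 0 < siz m (x t)) → (∀ t ∈ Icc t0 t1, v / 2 ≤ sizd m (x t) (y t)) →
      14 * siz m (x t0) ≤ v * a ^ 3 → siz m (x t1) ≤ 8 ^ n * siz m (x t0) →
      sizd m (x t0) (y t0) ≤ sizd m (x t1) (y t1) + cstB N M θ * a / (3 * siz m (x t0)) := by
  have hc := cstB_pos N M (θ := θ) (zero_le_one.trans hms.hθ1)
  -- the one step estimate
  have one : ∀ (t0 t1 a : ℝ), t0 ≤ t1 → Icc t0 t1 ⊆ J → 0 < a →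
      (∀ t ∈ Icc t0 t1, 0 < siz m (x t)) → (∀ t ∈ Icc t0 t1, v / 2 ≤ sizd m (x t) (y t)) →
      14 * siz m (x t0) ≤ v * a ^ 3 → siz m (x t1) ≤ 8 * siz m (x t0) →
      sizd m (x t0) (y t0) ≤ sizd m (x t1) (y t1) + cstB N M θ * a / (4 * siz m (x t0)) := by
    intro t0 t1 a h01 hJ ha hpos hd h14 h8
    have hm0 : t0 ∈ Icc t0 t1 := left_mem_Icc.2 h01
    have hm1 : t1 ∈ Icc t0 t1 := right_mem_Icc.2 h01
    have hr := hpos t0 hm0
    have h1 := grow hs hJ hpos hd hm0 hm1 h01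
    have h2 : v * (t1 - t0) ≤ v * a ^ 3 := by linarith
    have h3 : t1 - t0 ≤ a ^ 3 := le_of_mul_le_mul_left h2 hv
    refine deriv_ge hms hs h01 h3 ha hJ hr fun t ht => ?_
    have h4 := grow hs hJ hpos hd hm0 ht ht.1
    have h5 : 0 ≤ v / 2 * (t - t0) := mul_nonneg (by positivity) (by linarith [ht.1])
    linarith
  intro n
  induction n with
  | zero =>
    intro t0 t1 a h01 hJ ha hpos hd h14 h8
    have hr := hpos t0 (left_mem_Icc.2 h01)
    have h1 := one t0 t1 a h01 hJ ha hpos hd h14 (by linarith)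
    have h2 : cstB N M θ * a / (4 * siz m (x t0)) ≤ cstB N M θ * a / (3 * siz m (x t0)) := by
      gcongr
      norm_num
    linarith
  | succ n ih =>
    intro t0 t1 a h01 hJ ha hpos hd h14 h8
    have hm0 : t0 ∈ Icc t0 t1 := left_mem_Icc.2 h01
    have hm1 : t1 ∈ Icc t0 t1 := right_mem_Icc.2 h01
    have hr := hpos t0 hm0
    rcases le_or_gt (siz m (x t1)) (8 * siz m (x t0)) with hle | hgt
    · have h1 := one t0 t1 a h01 hJ ha hpos hd h14 hle
      have h2 : cstB N M θ * a / (4 * siz m (x t0)) ≤ cstB N M θ * a / (3 * siz m (x t0)) := by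
        gcongr
        norm_num
      linarith
    · have hcont : ContinuousOn (fun s => siz m (x s)) (Icc t0 t1) := fun t ht =>
        (siz_cont hs (hJ ht)).continuousWithinAt
      obtain ⟨u, hu, hue⟩ := intermediate_value_Icc h01 hcont
        (show 8 * siz m (x t0) ∈ Icc (siz m (x t0)) (siz m (x t1)) from ⟨by linarith, hgt.le⟩)
      simp only at hue
      have hsub1 : Icc t0 u ⊆ Icc t0 t1 := Icc_subset_Icc_right hu.2
      have hsub2 : Icc u t1 ⊆ Icc t0 t1 := Icc_subset_Icc_left hu.1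
      have h1 := one t0 u a hu.1 (hsub1.trans hJ) ha (fun t ht => hpos t (hsub1 ht))
        (fun t ht => hd t (hsub1 ht)) h14 hue.le
      have h2 := ih u t1 (2 * a) hu.2 (hsub2.trans hJ) (by positivity)
        (fun t ht => hpos t (hsub2 ht)) (fun t ht => hd t (hsub2 ht))
        (by rw [hue]; nlinarith) (by rw [hue]; rw [pow_succ] at h8; linarith)
      rw [hue] at h2
      have e1 : cstB N M θ * (2 * a) / (3 * (8 * siz m (x t0))) +
          cstB N M θ * a / (4 * siz m (x t0)) = cstB N M θ * a / (3 * siz m (x t0)) := by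
        field_simp
        norm_num
      linarith

/-- constant of the escape criterion -/
noncomputable def cstK (N : ℕ) (M θ : ℝ) : ℝ := 5 * cstB N M θ ^ 3

theorem cstK_pos (N : ℕ) (M : ℝ) {θ : ℝ} (hθ : 0 ≤ θ) : 0 < cstK N M θ := by
  have := cstB_pos N M hθ
  unfold cstK
  positivity

/-- escape criterion -/
theorem escape {m : Fin N → ℝ} {μ M θ : ℝ} (hms : Mass m μ M θ) {J : Set ℝ}
    {x y : ℝ → Fin N → V} {k : ℝ → Fin N → Fin N → ℝ} (hs : Sol m J x y k)
    {t0 t1 : ℝ} (hJ : Icc t0 t1 ⊆ J)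
    (hD : 0 < dil m (x t0) (y t0))
    (hK : cstK N M θ * iner m (x t0) < dil m (x t0) (y t0) ^ 4) :
    ∀ t ∈ Icc t0 t1, 0 < siz m (x t) ∧ sizd m (x t0) (y t0) / 2 ≤ sizd m (x t) (y t) := by
  intro t2 ht2
  have hc := cstB_pos N M (θ := θ) (zero_le_one.trans hms.hθ1)
  have hI0 : 0 < iner m (x t0) := by
    have h1 := dil_sq_le hms.pos (x t0) (y t0)
    have h2 := iner_nonneg hms.pos (x t0)
    rcases h2.eq_or_lt with h | h
    · rw [← h, zero_mul] at h1
      nlinarith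
    · exact h
  set r := siz m (x t0) with hrdef
  have hr : 0 < r := (siz_pos_iff m _).2 hI0
  have hr2 : r ^ 2 = iner m (x t0) := Real.sq_sqrt hI0.le
  set v := sizd m (x t0) (y t0) with hvdef
  have hv : 0 < v := div_pos hD hr
  have hDv : dil m (x t0) (y t0) = v * r := by
    rw [hvdef]
    unfold sizd
    rw [div_mul_cancel₀]
    exact hr.ne'
  have hK2 : 5 * cstB N M θ ^ 3 < r ^ 2 * v ^ 4 := by
    rw [hDv, ← hr2] at hK
    unfold cstK at hK
    have h1 : r ^ 2 * (5 * cstB N M θ ^ 3) < r ^ 2 * (r ^ 2 * v ^ 4) := by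
      calc r ^ 2 * (5 * cstB N M θ ^ 3) = 5 * cstB N M θ ^ 3 * r ^ 2 := by ring
        _ < (v * r) ^ 4 := hK
        _ = _ := by ring
    exact lt_of_mul_lt_mul_left h1 (by positivity)
  -- the function `h`
  let h : ℝ → ℝ := fun t => min (2 * dil m (x t) (y t) - v * siz m (x t)) (2 * siz m (x t) - r)
  have hcont : ∀ t ∈ Icc t0 t1, ContinuousAt h t := fun t ht =>
    (((dil_cont hs (hJ ht)).const_mul 2).sub ((siz_cont hs (hJ ht)).const_mul v)).min
      (((siz_cont hs (hJ ht)).const_mul 2).sub continuousAt_const)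
  have hh0 : 0 < h t0 := by
    refine lt_min ?_ ?_
    · rw [hDv, ← hrdef]
      nlinarith
    · rw [← hrdef]
      linarith
  have hgood : ∀ t, 0 ≤ h t → 0 < siz m (x t) ∧ v / 2 ≤ sizd m (x t) (y t) := by
    intro t ht
    obtain ⟨h1, h2⟩ := le_min_iff.1 ht
    have h3 : 0 < siz m (x t) := by linarith
    refine ⟨h3, ?_⟩
    unfold sizd
    rw [le_div_iff₀ h3]
    linarith
  suffices hall : ∀ t ∈ Icc t0 t1, 0 < h t from hgood t2 (hall t2 ht2).le
  by_contra hcon
  push Not at hcon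
  obtain ⟨s, hs1, hs2⟩ := hcon
  -- first exit time
  let C : Set ℝ := {t | t ∈ Icc t0 s ∧ h t ≤ 0}
  have hsub : Icc t0 s ⊆ Icc t0 t1 := Icc_subset_Icc_right hs1.2
  have hclosed : IsClosed C := by
    have h1 : ContinuousOn h (Icc t0 s) := fun t ht => (hcont t (hsub ht)).continuousWithinAt
    have h2 := h1.preimage_isClosed_of_isClosed isClosed_Icc (isClosed_Iic (a := (0:ℝ)))
    exact h2
  have hne : C.Nonempty := ⟨s, ⟨hs1.1, le_rfl⟩, hs2⟩
  have hbdd : BddBelow C := ⟨t0, fun t ht => ht.1.1⟩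
  have hu := hclosed.csInf_mem hne hbdd
  set u := sInf C with hudef
  have hu0 : t0 < u := by
    refine lt_of_le_of_ne hu.1.1 fun he => ?_
    have := hu.2
    rw [← he] at this
    linarith
  have hbefore : ∀ t ∈ Ico t0 u, 0 < h t := by
    intro t ht
    by_contra hn
    push Not at hn
    have : t ∈ C := ⟨⟨ht.1, ht.2.le.trans hu.1.2⟩, hn⟩
    have := csInf_le hbdd this
    linarith [ht.2]
  have hu1 : u ∈ Icc t0 t1 := hsub hu.1
  have hhu : 0 ≤ h u := left_limit hu0 (hcont u hu1) fun t ht => (hbefore t ht).le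
  have hhu0 : h u = 0 := le_antisymm hu.2 hhu
  have hsubu : Icc t0 u ⊆ Icc t0 t1 := Icc_subset_Icc_right hu1.2
  have hallu : ∀ t ∈ Icc t0 u, 0 < siz m (x t) ∧ v / 2 ≤ sizd m (x t) (y t) := by
    intro t ht
    rcases eq_or_lt_of_le ht.2 with he | hlt
    · exact hgood t (by rw [he]; exact hhu)
    · exact hgood t (hbefore t ⟨ht.1, hlt⟩).le
  have hgr := grow hs (hsubu.trans hJ) (fun t ht => (hallu t ht).1) (fun t ht => (hallu t ht).2)
    (left_mem_Icc.2 hu0.le) (right_mem_Icc.2 hu0.le) hu0.le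
  have hsizu : r < siz m (x u) := by
    have : 0 < v / 2 * (u - t0) := mul_pos (by positivity) (by linarith)
    linarith
  have hdu : sizd m (x u) (y u) = v / 2 := by
    have h1 : 2 * dil m (x u) (y u) - v * siz m (x u) = 0 := by
      rcases min_choice (2 * dil m (x u) (y u) - v * siz m (x u)) (2 * siz m (x u) - r) with h2 | h2
      · rw [← h2]
        exact hhu0
      · exfalso
        have : h u = 2 * siz m (x u) - r := h2
        rw [hhu0] at this
        linarith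
    unfold sizd
    rw [div_eq_iff (by linarith)]
    linarith
  -- cube root
  obtain ⟨a, ha0, ha⟩ : ∃ a : ℝ, 0 < a ∧ a ^ 3 = 14 * r / v := by
    have h1 : 0 < 14 * r / v := by positivity
    refine ⟨(14 * r / v) ^ (1 / 3 : ℝ), Real.rpow_pos_of_pos h1 _, ?_⟩
    rw [← Real.rpow_natCast, ← Real.rpow_mul h1.le]
    norm_num
  obtain ⟨n, hn⟩ := pow_unbounded_of_one_lt (siz m (x u) / r) (show (1:ℝ) < 8 by norm_num)
  have hcl := climb hms hs hv n t0 u a hu0.le (hsubu.trans hJ) ha0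
    (fun t ht => (hallu t ht).1) (fun t ht => (hallu t ht).2)
    (by rw [ha, ← hrdef]; rw [mul_div_cancel₀ _ hv.ne'])
    (by rw [div_lt_iff₀ hr] at hn; exact hn.le)
  rw [hdu, ← hvdef, ← hrdef] at hcl
  have h1 : 3 * r * v ≤ 2 * (cstB N M θ * a) := by
    have h2 : v / 2 ≤ cstB N M θ * a / (3 * r) := by linarith
    rw [le_div_iff₀ (by positivity)] at h2
    linarith
  have h2 : (3 * r * v) ^ 3 ≤ (2 * (cstB N M θ * a)) ^ 3 := pow_le_pow_left₀ (by positivity) h1 3
  have h3 : (2 * (cstB N M θ * a)) ^ 3 * v = 112 * cstB N M θ ^ 3 * r := by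
    have : (2 * (cstB N M θ * a)) ^ 3 = 8 * cstB N M θ ^ 3 * a ^ 3 := by ring
    rw [this, ha]
    field_simp
    norm_num
  have h4 := mul_le_mul_of_nonneg_right h2 hv.le
  rw [h3] at h4
  have h5 : r * (27 * (r ^ 2 * v ^ 4)) ≤ r * (112 * cstB N M θ ^ 3) := by
    calc r * (27 * (r ^ 2 * v ^ 4)) = (3 * r * v) ^ 3 * v := by ring
      _ ≤ 112 * cstB N M θ ^ 3 * r := h4
      _ = _ := by ring
  have h6 := le_of_mul_le_mul_left h5 hr
  have h7 : 0 < cstB N M θ ^ 3 := by positivity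
  linarith

/-- escape criterion: lower bound of the size -/
theorem escape_siz {m : Fin N → ℝ} {μ M θ : ℝ} (hms : Mass m μ M θ) {J : Set ℝ}
    {x y : ℝ → Fin N → V} {k : ℝ → Fin N → Fin N → ℝ} (hs : Sol m J x y k)
    {t0 t1 : ℝ} (h01 : t0 ≤ t1) (hJ : Icc t0 t1 ⊆ J)
    (hD : 0 < dil m (x t0) (y t0))
    (hK : cstK N M θ * iner m (x t0) < dil m (x t0) (y t0) ^ 4) :
    siz m (x t0) + sizd m (x t0) (y t0) / 2 * (t1 - t0) ≤ siz m (x t1) := by
  have h := escape hms hs hJ hD hK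
  have h2 := grow hs hJ (fun t ht => (h t ht).1) (fun t ht => (h t ht).2)
    (left_mem_Icc.2 h01) (right_mem_Icc.2 h01) h01
  linarith

end Pool.Agent.K6.H53.NB
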