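import Pool.Agent.K6.H53.NB.Tube

set_option autoImplicit false
set_option linter.unusedSectionVars false

/-!
# The nonwandering set is invariant
-/

namespace Pool.Agent.K6.H53.NB

open Set Filter Topology Pool.Agent.Y516.NW

section dep

variable {F : Type*} [NormedAddCommGroup F] [NormedSpace ℝ F]

/-- uniform Lipschitz constants near a compact set -/
theorem unif_lip (X : F → F) (C : Set F) (hC : IsCompact C) (hX : ∀ x ∈ C, ContDiffAt ℝ 1 X x) :
    ∃ ε > 0, ∃ L : NNReal, ∀ x ∈ C, LipschitzOnWith L X (Metric.ball x ε) := by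
  have h1 : ∀ x ∈ C, ∃ r > 0, ∃ L : NNReal, LipschitzOnWith L X (Metric.ball x r) := by
    intro x hx
    obtain ⟨L, W, hW, hl⟩ := (hX x hx).exists_lipschitzOnWith
    obtain ⟨r, hr, hb⟩ := Metric.mem_nhds_iff.1 hW
    exact ⟨r, hr, L, hl.mono hb⟩
  choose! r hr L hL using h1
  obtain ⟨t, ht, hcov⟩ := hC.elim_nhds_subcover (fun x => Metric.ball x (r x / 2))
    (fun x hx => Metric.ball_mem_nhds x (half_pos (hr x hx)))
  rcases t.eq_empty_or_nonempty with rfl | hne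
  · refine ⟨1, one_pos, 0, fun x hx => ?_⟩
    have := hcov hx
    simp at this
  · obtain ⟨x₀, hx₀, hmin⟩ := t.exists_min_image (fun x => r x / 2) hne
    refine ⟨r x₀ / 2, half_pos (hr x₀ (ht x₀ hx₀)), t.sup L, fun x hx => ?_⟩
    obtain ⟨z, hz, hxz⟩ := mem_iUnion₂.1 (hcov hx)
    refine ((hL z (ht z hz)).mono ?_).weaken (Finset.le_sup hz)
    intro w hw
    have h1 : dist w x < r x₀ / 2 := hw
    have h2 : dist x z < r z / 2 := hxz
    have h3 : r x₀ / 2 ≤ r z / 2 := hmin z hz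
    have h4 := dist_triangle w x z
    show dist w z < r z
    linarith

/-- continuous dependence along a trajectory -/
theorem dep (X : F → F) (γ : ℝ → F) (T : ℝ) (hT : 0 ≤ T)
    (hX : ∀ t ∈ Icc 0 T, ContDiffAt ℝ 1 X (γ t)) (hγ : ∀ t ∈ Icc 0 T, HasDerivAt γ (X (γ t)) t) :
    ∃ ε > 0, ∃ C > 0, ∀ β : ℝ → F, (∀ t ∈ Icc 0 T, HasDerivAt β (X (β t)) t) →
      dist (β 0) (γ 0) < ε → ∀ t ∈ Icc 0 T, dist (β t) (γ t) ≤ C * dist (β 0) (γ 0) := by
  have hcγ : ContinuousOn γ (Icc 0 T) := fun t ht => (hγ t ht).continuousAt.continuousWithinAt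
  obtain ⟨ε, hε, L, hL⟩ := unif_lip X (γ '' Icc 0 T) (isCompact_Icc.image_of_continuousOn hcγ)
    (by
      rintro _ ⟨t, ht, rfl⟩
      exact hX t ht)
  have hLT : 1 ≤ Real.exp (L * T) := Real.one_le_exp (mul_nonneg L.2 hT)
  have hLp : 0 < Real.exp (L * T) := Real.exp_pos _
  refine ⟨ε / Real.exp (L * T), by positivity, Real.exp (L * T), Real.exp_pos _, ?_⟩
  intro β hβ hd
  rw [lt_div_iff₀ (Real.exp_pos _)] at hd
  have hcβ : ContinuousOn β (Icc 0 T) := fun t ht => (hβ t ht).continuousAt.continuousWithinAt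
  -- the estimate as long as the curves are close
  have key : ∀ s ∈ Icc 0 T, (∀ t ∈ Ico 0 s, dist (β t) (γ t) < ε) →
      ∀ t ∈ Icc 0 s, dist (β t) (γ t) ≤ Real.exp (L * T) * dist (β 0) (γ 0) := by
    intro s hs hclose t ht
    have hsub : Icc 0 s ⊆ Icc 0 T := Icc_subset_Icc_right hs.2
    have h := dist_le_of_trajectories_ODE_of_mem (v := fun _ => X)
      (s := fun t => Metric.ball (γ t) ε) (K := L) (f := β) (g := γ) (a := 0) (b := s)
      (δ := dist (β 0) (γ 0))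
      (fun t ht => hL (γ t) ⟨t, hsub (Ico_subset_Icc_self ht), rfl⟩)
      (hcβ.mono hsub)
      (fun t ht => (hβ t (hsub (Ico_subset_Icc_self ht))).hasDerivWithinAt)
      (fun t ht => hclose t ht)
      (hcγ.mono hsub)
      (fun t ht => (hγ t (hsub (Ico_subset_Icc_self ht))).hasDerivWithinAt)
      (fun t _ => Metric.mem_ball_self hε) le_rfl t ht
    refine h.trans ?_
    rw [mul_comm, sub_zero]
    refine mul_le_mul_of_nonneg_right (Real.exp_le_exp.2 ?_) dist_nonneg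
    exact mul_le_mul_of_nonneg_left (ht.2.trans hs.2) L.2
  -- first exit
  have hall : ∀ t ∈ Icc 0 T, dist (β t) (γ t) < ε := by
    by_contra hcon
    push Not at hcon
    obtain ⟨s, hs, hsε⟩ := hcon
    let A : Set ℝ := {u | u ∈ Icc 0 s ∧ ε ≤ dist (β u) (γ u)}
    have hsub : Icc 0 s ⊆ Icc 0 T := Icc_subset_Icc_right hs.2
    have hcl : IsClosed A := by
      have h1 : ContinuousOn (fun u => dist (β u) (γ u)) (Icc 0 s) :=
        continuous_dist.comp_continuousOn (ContinuousOn.prodMk (hcβ.mono hsub) (hcγ.mono hsub))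
      exact h1.preimage_isClosed_of_isClosed isClosed_Icc (isClosed_Ici (a := ε))
    have hne : A.Nonempty := ⟨s, ⟨hs.1, le_rfl⟩, hsε⟩
    have hbd : BddBelow A := ⟨0, fun u hu => hu.1.1⟩
    have hT' := hcl.csInf_mem hne hbd
    set u := sInf A with hu
    have h1 := key u (hsub hT'.1) (fun t ht => by
      by_contra hc
      push Not at hc
      have h2 : t ∈ A := ⟨⟨ht.1, ht.2.le.trans hT'.1.2⟩, hc⟩
      have h3 := csInf_le hbd h2
      linarith [ht.2]) u ⟨hT'.1.1, le_rfl⟩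
    have h2 := hT'.2
    linarith
  exact key T ⟨hT, le_rfl⟩ fun t ht => hall t (Ico_subset_Icc_self ht)

theorem rev_deriv {f : ℝ → F} {f' : F} {t : ℝ} (h : HasDerivAt f f' (-t)) :
    HasDerivAt (fun s => f (-s)) (-f') t := by
  have h1 : HasDerivAt (fun s => f (-s)) ((-1 : ℝ) • f') t := h.scomp t (hasDerivAt_neg t)
  exact h1.congr_deriv (by simp)

/-- uniqueness of integral curves -/
theorem uniq (X : F → F) (β γ : ℝ → F) (hX : ∀ t, ContDiffAt ℝ 1 X (γ t))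
    (hβ : ∀ t, HasDerivAt β (X (β t)) t) (hγ : ∀ t, HasDerivAt γ (X (γ t)) t)
    (h0 : β 0 = γ 0) : ∀ t, β t = γ t := by
  have pos : ∀ (X : F → F) (β γ : ℝ → F), (∀ t, ContDiffAt ℝ 1 X (γ t)) →
      (∀ t, HasDerivAt β (X (β t)) t) → (∀ t, HasDerivAt γ (X (γ t)) t) → β 0 = γ 0 →
      ∀ t, 0 ≤ t → β t = γ t := by
    intro X β γ hX hβ hγ h0 t ht
    obtain ⟨ε, hε, C, hC, h⟩ := dep X γ t ht (fun s _ => hX s) (fun s _ => hγ s)
    have h1 := h β (fun s _ => hβ s) (by rw [h0, dist_self]; exact hε) t ⟨ht, le_rfl⟩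
    rw [h0, dist_self, mul_zero] at h1
    exact dist_le_zero.1 h1
  intro t
  rcases le_total 0 t with ht | ht
  · exact pos X β γ hX hβ hγ h0 t ht
  · have h1 := pos (fun x => -X x) (fun s => β (-s)) (fun s => γ (-s))
      (fun s => (hX (-s)).neg)
      (fun s => rev_deriv (hβ (-s))) (fun s => rev_deriv (hγ (-s)))
      (by simpa using h0) (-t) (by linarith)
    simpa using h1

end dep

variable {N : ℕ}

theorem Z_contDiffAt (m : Fin N → ℝ) {ψ : Cfg N × Cfg N → ℝ}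
    (hψ : ∀ x ∈ Free N, ContDiffAt ℝ 1 ψ x) (x : Cfg N × Cfg N) (hx : x ∈ Free N) :
    ContDiffAt ℝ 1 (Z m ψ) x := by
  have h : Z m ψ = fun y => ψ y • Z1 m y := by
    funext y
    unfold Z1 Z
    rw [one_smul]
  rw [h]
  exact (hψ x hx).smul (Z1_contDiffAt m x hx)

/-- continuity of the time `s` map at `x`, within the energy surface -/
theorem flow_cont {m : Fin N → ℝ} {E : ℝ} {ψ : Cfg N × Cfg N → ℝ}
    {φ : ℝ → Cfg N × Cfg N → Cfg N × Cfg N} (hφ : IsFl m E ψ φ)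
    (hψ : ∀ x ∈ Free N, ContDiffAt ℝ 1 ψ x) {x : Cfg N × Cfg N} (hx : x ∈ Surf m E) (s : ℝ)
    {W : Set (Cfg N × Cfg N)} (hW : IsOpen W) (hsW : φ s x ∈ W) :
    ∃ U : Set (Cfg N × Cfg N), IsOpen U ∧ x ∈ U ∧ ∀ y ∈ U ∩ Surf m E, φ s y ∈ W := by
  obtain ⟨r, hr, hball⟩ := Metric.isOpen_iff.1 hW _ hsW
  have hfl := hφ.flow x hx
  -- it suffices to have an estimate
  suffices h : ∃ ε > 0, ∃ C > 0, ∀ y ∈ Surf m E, dist y x < ε →
      dist (φ s y) (φ s x) ≤ C * dist y x by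
    obtain ⟨ε, hε, C, hC, h⟩ := h
    refine ⟨Metric.ball x (min ε (r / C)), Metric.isOpen_ball,
      Metric.mem_ball_self (lt_min hε (by positivity)), ?_⟩
    rintro y ⟨hy, hyS⟩
    have h1 : dist y x < ε := lt_of_lt_of_le hy (min_le_left _ _)
    have h2 : dist y x < r / C := lt_of_lt_of_le hy (min_le_right _ _)
    refine hball (lt_of_le_of_lt (h y hyS h1) ?_)
    rw [lt_div_iff₀ hC] at h2
    linarith
  rcases le_total 0 s with hs | hs
  · obtain ⟨ε, hε, C, hC, h⟩ := dep (Z m ψ) (fun t => φ t x) s hs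
      (fun t _ => Z_contDiffAt m hψ _ (surf_free m E (hfl.2 t).1)) (fun t _ => (hfl.2 t).2)
    refine ⟨ε, hε, C, hC, fun y hy hd => ?_⟩
    have hfy := hφ.flow y hy
    have h1 := h (fun t => φ t y) (fun t _ => (hfy.2 t).2)
      (by simp only [hfy.1, hfl.1]; exact hd) s ⟨hs, le_rfl⟩
    simpa only [hfy.1, hfl.1] using h1
  · obtain ⟨ε, hε, C, hC, h⟩ := dep (fun z => -Z m ψ z) (fun t => φ (-t) x) (-s) (by linarith)
      (fun t _ => (Z_contDiffAt m hψ _ (surf_free m E (hfl.2 _).1)).neg)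
      (fun t _ => rev_deriv (hfl.2 (-t)).2)
    refine ⟨ε, hε, C, hC, fun y hy hd => ?_⟩
    have hfy := hφ.flow y hy
    have h1 := h (fun t => φ (-t) y) (fun t _ => rev_deriv (hfy.2 (-t)).2)
      (by simp only [neg_zero, hfy.1, hfl.1]; exact hd) (-s) ⟨by linarith, le_rfl⟩
    simpa only [neg_neg, neg_zero, hfy.1, hfl.1] using h1

/-- group law -/
theorem flow_add {m : Fin N → ℝ} {E : ℝ} {ψ : Cfg N × Cfg N → ℝ}
    {φ : ℝ → Cfg N × Cfg N → Cfg N × Cfg N} (hφ : IsFl m E ψ φ)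
    (hψ : ∀ x ∈ Free N, ContDiffAt ℝ 1 ψ x) {x : Cfg N × Cfg N} (hx : x ∈ Surf m E) (s t : ℝ) :
    φ t (φ s x) = φ (s + t) x := by
  have hfl := hφ.flow x hx
  have hfs := hφ.flow (φ s x) (hfl.2 s).1
  exact uniq (Z m ψ) (fun t => φ t (φ s x)) (fun t => φ (s + t) x)
    (fun t => Z_contDiffAt m hψ _ (surf_free m E (hfl.2 _).1)) (fun t => (hfs.2 t).2)
    (fun t => ((hfl.2 (s + t)).2).comp_const_add s t) (by simp [hfs.1]) t

/-- **The nonwandering set is invariant.** -/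
theorem nonW_inv {m : Fin N → ℝ} {E : ℝ} {ψ : Cfg N × Cfg N → ℝ}
    {φ : ℝ → Cfg N × Cfg N → Cfg N × Cfg N} (hφ : IsFl m E ψ φ)
    (hψ : ∀ x ∈ Free N, ContDiffAt ℝ 1 ψ x) {x : Cfg N × Cfg N} (hx : x ∈ Surf m E)
    (hNW : NonW (Surf m E) φ x) (s : ℝ) : NonW (Surf m E) φ (φ s x) := by
  intro W hW hsW T
  obtain ⟨U, hU, hxU, hUW⟩ := flow_cont hφ hψ hx s hW hsW
  obtain ⟨t, ht, y, ⟨hyU, hyS⟩, hzU⟩ := hNW U hU hxU T
  have hfy := hφ.flow y hyS
  refine ⟨t, ht, φ s y, ⟨hUW y ⟨hyU, hyS⟩, (hfy.2 s).1⟩, ?_⟩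
  rw [flow_add hφ hψ hyS, add_comm, ← flow_add hφ hψ hyS]
  exact hUW _ ⟨hzU, (hfy.2 t).1⟩

end Pool.Agent.K6.H53.NB
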