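import Mathlib

set_option autoImplicit false

/-!
# Volume of a thin part of an ellipsoid: a packing argument
-/

namespace Pool.Agent.K6.H53.NB

open MeasureTheory Finset Pointwise

/-- thin part of an ellipsoid -/
def Thin {F H : Type*} [AddCommGroup F] [Module ℝ F] [NormedAddCommGroup H]
    [InnerProductSpace ℝ H] {κ : Type*} (ι : F →ₗ[ℝ] H) (r : ℝ) (W : κ → F) (η : κ → ℝ) : Set F :=
  {P | ‖ι P‖ ≤ r ∧ ∀ k, |inner ℝ (ι P) (ι (W k))| ≤ η k}

theorem pack {F H : Type*} [NormedAddCommGroup F] [NormedSpace ℝ F] [FiniteDimensional ℝ F]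
    [MeasurableSpace F] [BorelSpace F] (vol : Measure F) [vol.IsAddHaarMeasure]
    [NormedAddCommGroup H] [InnerProductSpace ℝ H] {κ : Type*} [Fintype κ]
    (ι : F →ₗ[ℝ] H) {r : ℝ} (hr : 0 < r) (W : κ → F)
    (hW : Orthonormal ℝ fun k => ι (W k)) (η : κ → ℝ) (hη : ∀ k, 0 < η k) :
    vol (Thin ι r W η) ≤
      ENNReal.ofReal ((1 + 3 * Fintype.card κ / r) ^ Module.finrank ℝ F * ∏ k, η k) *
        vol {P | ‖ι P‖ ≤ r} := by
  classical
  have hιc : Continuous ι := LinearMap.continuous_of_finiteDimensional ι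
  -- numbers of translates
  let n : κ → ℕ := fun k => ⌈1 / η k⌉₊
  have hn1 : ∀ k, 1 / η k ≤ n k := fun k => Nat.le_ceil _
  have hn2 : ∀ k, (n k : ℝ) < 1 / η k + 1 := fun k => Nat.ceil_lt_add_one (by
    have := hη k
    positivity)
  let w : ((k : κ) → Fin (n k)) → F := fun j => ∑ k, ((j k : ℕ) * (3 * η k)) • W k
  let T : ((k : κ) → Fin (n k)) → Set F := fun j => {P | P - w j ∈ Thin ι r W η}
  have hwin : ∀ j k, inner ℝ (ι (w j)) (ι (W k)) = (j k : ℕ) * (3 * η k) := by
    intro j k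
    simp only [w, map_sum, map_smul, sum_inner, inner_smul_left]
    have h1 := orthonormal_iff_ite.1 hW
    simp only [h1]
    simp
  have hclosed : IsClosed (Thin ι r W η) := by
    have : Thin ι r W η = {P | ‖ι P‖ ≤ r} ∩ ⋂ k, {P | |inner ℝ (ι P) (ι (W k))| ≤ η k} := by
      ext P
      simp [Thin]
    rw [this]
    exact (isClosed_le hιc.norm continuous_const).inter (isClosed_iInter fun k =>
      isClosed_le ((hιc.inner continuous_const).abs) continuous_const)
  have hTm : ∀ j, MeasurableSet (T j) := fun j =>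
    (hclosed.preimage (continuous_id.sub continuous_const)).measurableSet
  have hTv : ∀ j, vol (T j) = vol (Thin ι r W η) := by
    intro j
    have h1 := measure_preimage_add_right vol (-w j) (Thin ι r W η)
    rw [← h1]
    congr 1
    ext P
    simp only [T, Set.mem_setOf_eq, Set.mem_preimage, sub_eq_add_neg]
  have hdisj : Pairwise (Function.onFun Disjoint T) := by
    intro j j' hjj
    rw [Function.onFun, Set.disjoint_left]
    rintro P ⟨_, hP⟩ ⟨_, hP'⟩
    obtain ⟨k, hk⟩ := Function.ne_iff.1 hjj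
    have h1 := hP k
    have h2 := hP' k
    rw [map_sub, inner_sub_left, hwin] at h1 h2
    have h3 : ((j k : ℕ) : ℝ) ≠ ((j' k : ℕ) : ℝ) := fun h => hk (Fin.ext (Nat.cast_injective h))
    have hηk := hη k
    rw [abs_le] at h1 h2
    have h4 : |((j k : ℕ) : ℝ) - ((j' k : ℕ) : ℝ)| * (3 * η k) ≤ 2 * η k := by
      rcases le_total ((j k : ℕ) : ℝ) ((j' k : ℕ) : ℝ) with hle | hle
      · rw [abs_of_nonpos (by linarith)]
        nlinarith
      · rw [abs_of_nonneg (by linarith)]
        nlinarith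
    have h5 : 1 ≤ |((j k : ℕ) : ℝ) - ((j' k : ℕ) : ℝ)| := by
      have h6 : (1 : ℤ) ≤ |((j k : ℕ) : ℤ) - ((j' k : ℕ) : ℤ)| := by
        apply Int.one_le_abs
        intro h0
        apply h3
        have : ((j k : ℕ) : ℤ) = ((j' k : ℕ) : ℤ) := by linarith
        exact_mod_cast this
      exact_mod_cast h6
    nlinarith
  have hwn : ∀ j, ‖ι (w j)‖ ≤ 3 * Fintype.card κ := by
    intro j
    have h1 : ι (w j) = ∑ k, ((j k : ℕ) * (3 * η k)) • ι (W k) := by
      simp only [w, map_sum, map_smul]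
    rw [h1]
    refine (norm_sum_le _ _).trans ?_
    have h2 : ∀ k ∈ (univ : Finset κ), ‖((j k : ℕ) * (3 * η k) : ℝ) • ι (W k)‖ ≤ 3 := by
      intro k _
      rw [norm_smul, hW.1 k, mul_one, Real.norm_eq_abs, abs_of_nonneg (by
        have := hη k
        positivity)]
      have h3 : ((j k : ℕ) : ℝ) + 1 ≤ n k := by exact_mod_cast (j k).2
      have h4 := hn2 k
      have h5 := hη k
      have h6 : ((j k : ℕ) : ℝ) ≤ 1 / η k := by linarith
      calc ((j k : ℕ) : ℝ) * (3 * η k) ≤ 1 / η k * (3 * η k) := by gcongr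
        _ = 3 := by field_simp
    refine (Finset.sum_le_sum h2).trans ?_
    rw [Finset.sum_const, Finset.card_univ, nsmul_eq_mul]
    linarith
  have hsub : (⋃ j, T j) ⊆ {P | ‖ι P‖ ≤ r + 3 * Fintype.card κ} := by
    rintro P hP
    obtain ⟨j, hj⟩ := Set.mem_iUnion.1 hP
    have h1 : ‖ι (P - w j)‖ ≤ r := hj.1
    have h2 : ι P = ι (P - w j) + ι (w j) := by rw [← map_add, sub_add_cancel]
    show ‖ι P‖ ≤ r + 3 * Fintype.card κ
    rw [h2]
    exact (norm_add_le _ _).trans (add_le_add h1 (hwn j))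
  have hsum : (Fintype.card ((k : κ) → Fin (n k)) : ENNReal) * vol (Thin ι r W η) ≤
      vol {P | ‖ι P‖ ≤ r + 3 * Fintype.card κ} := by
    have h1 := measure_iUnion hdisj hTm (μ := vol)
    rw [tsum_fintype] at h1
    simp only [hTv, Finset.sum_const, Finset.card_univ, nsmul_eq_mul] at h1
    rw [← h1]
    exact measure_mono hsub
  -- scaling
  set c : ℝ := 1 + 3 * Fintype.card κ / r with hc
  have hc0 : 0 < c := by positivity
  have hscale : vol {P | ‖ι P‖ ≤ r + 3 * Fintype.card κ} =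
      ENNReal.ofReal (c ^ Module.finrank ℝ F) * vol {P | ‖ι P‖ ≤ r} := by
    have h1 : {P | ‖ι P‖ ≤ r + 3 * Fintype.card κ} = c • {P | ‖ι P‖ ≤ r} := by
      ext P
      rw [Set.mem_smul_set_iff_inv_smul_mem₀ hc0.ne']
      simp only [Set.mem_setOf_eq, map_smul, norm_smul, norm_inv, Real.norm_of_nonneg hc0.le]
      rw [inv_mul_le_iff₀ hc0]
      have : c * r = r + 3 * Fintype.card κ := by
        rw [hc]
        field_simp
      rw [this]
    rw [h1, Measure.addHaar_smul, abs_of_nonneg (by positivity)]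
  rw [hscale] at hsum
  have hprod : 1 ≤ ENNReal.ofReal (∏ k, η k) * (Fintype.card ((k : κ) → Fin (n k)) : ENNReal) := by
    rw [Fintype.card_pi]
    simp only [Fintype.card_fin]
    have h1 : (1:ℝ) ≤ (∏ k, η k) * ((∏ k, n k : ℕ) : ℝ) := by
      rw [Nat.cast_prod, ← Finset.prod_mul_distrib]
      have h2 : ∀ k ∈ (univ : Finset κ), 1 ≤ η k * (n k : ℝ) := by
        intro k _
        have h3 := hn1 k
        rw [div_le_iff₀ (hη k)] at h3
        linarith
      calc (1:ℝ) = ∏ _k : κ, 1 := by simp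
        _ ≤ ∏ k, η k * (n k : ℝ) := Finset.prod_le_prod (fun _ _ => zero_le_one) h2
    have h4 : ENNReal.ofReal ((∏ k, η k) * ((∏ k, n k : ℕ) : ℝ)) =
        ENNReal.ofReal (∏ k, η k) * ((∏ k, n k : ℕ) : ENNReal) := by
      rw [ENNReal.ofReal_mul (Finset.prod_nonneg fun k _ => (hη k).le), ENNReal.ofReal_natCast]
    rw [← h4]
    exact ENNReal.one_le_ofReal.2 h1
  calc vol (Thin ι r W η) = 1 * vol (Thin ι r W η) := (one_mul _).symm
    _ ≤ ENNReal.ofReal (∏ k, η k) * (Fintype.card ((k : κ) → Fin (n k)) : ENNReal) *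
        vol (Thin ι r W η) := by gcongr
    _ = ENNReal.ofReal (∏ k, η k) *
        ((Fintype.card ((k : κ) → Fin (n k)) : ENNReal) * vol (Thin ι r W η)) := mul_assoc _ _ _
    _ ≤ ENNReal.ofReal (∏ k, η k) *
        (ENNReal.ofReal (c ^ Module.finrank ℝ F) * vol {P | ‖ι P‖ ≤ r}) := by gcongr
    _ = _ := by
      rw [ENNReal.ofReal_mul (by positivity)]
      ring

end Pool.Agent.K6.H53.NB
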