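import Pool.Agent.K6.H53.NB.Orig
import Pool.Agent.K6.H53.NB.Pack
import Pool.Agent.Y516.NW.Fin

set_option autoImplicit false

/-!
# Proportion of the nonwandering momenta over an arbitrary configuration
-/

namespace Pool.Agent.K6.H53.NB

open MeasureTheory Finset Pool.Agent.Y516.NW

variable {n : ℕ}

/-- momenta with the kinetic norm -/
noncomputable def iota (m : Fin (n + 1) → ℝ) :
    (Fin n → E3) →ₗ[ℝ] PiLp 2 (fun _ : Fin (n + 1) => E3) where
  toFun P := WithLp.toLp 2 (fun i => (Real.sqrt (m i))⁻¹ • mom P i)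
  map_add' P P' := by
    have h : mom (P + P') = mom P + mom P' := by
      funext i
      refine Fin.lastCases ?_ (fun j => ?_) i
      · simp [mom, Finset.sum_add_distrib, add_comm]
      · simp [mom]
    rw [h, ← WithLp.toLp_add]
    congr 1
    funext i
    simp
  map_smul' c P := by
    have h : mom (c • P) = c • mom P := by
      funext i
      refine Fin.lastCases ?_ (fun j => ?_) i
      · simp [mom, Finset.smul_sum]
      · simp [mom]
    rw [h, RingHom.id_apply, ← WithLp.toLp_smul]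
    congr 1
    funext i
    simp only [Pi.smul_apply]
    exact smul_comm _ _ _

theorem iota_apply (m : Fin (n + 1) → ℝ) (P : Fin n → E3) (i : Fin (n + 1)) :
    iota m P i = (Real.sqrt (m i))⁻¹ • mom P i := rfl

theorem iota_norm (m : Fin (n + 1) → ℝ) (hm : ∀ i, 0 < m i) (P : Fin n → E3) :
    ‖iota m P‖ ^ 2 = 2 * ∑ i, ‖mom P i‖ ^ 2 / (2 * m i) := by
  rw [PiLp.norm_sq_eq_of_L2, Finset.mul_sum]
  refine Finset.sum_congr rfl fun i _ => ?_
  have h1 := hm i
  rw [iota_apply, norm_smul, mul_pow, norm_inv, Real.norm_of_nonneg (Real.sqrt_nonneg _), inv_pow,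
    Real.sq_sqrt h1.le]
  field_simp

/-- deformation of the momenta -/
noncomputable def wf (m : Fin (n + 1) → ℝ) (S : E3 →ₗ[ℝ] E3) (q : Cfg (n + 1)) : Fin n → E3 :=
  fun k => m k.castSucc • S (q k.castSucc)

theorem mom_wf (m : Fin (n + 1) → ℝ) (S : E3 →ₗ[ℝ] E3) (q : Cfg (n + 1))
    (hq : ∑ i, m i • q i = 0) (i : Fin (n + 1)) : mom (wf m S q) i = m i • S (q i) := by
  refine Fin.lastCases ?_ (fun j => ?_) i
  · rw [Fin.sum_univ_castSucc] at hq
    have h1 : S (∑ i : Fin n, m i.castSucc • q i.castSucc + m (Fin.last n) • q (Fin.last n)) = 0 := by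
      rw [hq, map_zero]
    rw [map_add, map_sum, map_smul] at h1
    simp only [map_smul] at h1
    simp only [mom, wf, Fin.snoc_last]
    exact neg_eq_of_add_eq_zero_right h1
  · simp [mom, wf]

theorem iota_wf (m : Fin (n + 1) → ℝ) (hm : ∀ i, 0 < m i) (S : E3 →ₗ[ℝ] E3) (q : Cfg (n + 1))
    (hq : ∑ i, m i • q i = 0) (i : Fin (n + 1)) :
    iota m (wf m S q) i = Real.sqrt (m i) • S (q i) := by
  rw [iota_apply, mom_wf m S q hq, smul_smul]
  congr 1
  have h1 := Real.sqrt_pos.2 (hm i)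
  have h2 := Real.mul_self_sqrt (hm i).le
  field_simp
  rw [sq, h2]

theorem inner_wf (m : Fin (n + 1) → ℝ) (hm : ∀ i, 0 < m i) (S : E3 →ₗ[ℝ] E3) (q : Cfg (n + 1))
    (hq : ∑ i, m i • q i = 0) (P : Fin n → E3) :
    inner ℝ (iota m P) (iota m (wf m S q)) = ∑ i, inner ℝ (mom P i) (S (q i)) := by
  rw [PiLp.inner_apply]
  refine Finset.sum_congr rfl fun i _ => ?_
  rw [iota_wf m hm S q hq, iota_apply, real_inner_smul_left, real_inner_smul_right, ← mul_assoc,
    inv_mul_cancel₀ (Real.sqrt_pos.2 (hm i)).ne', one_mul]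

theorem inner_wf_wf (m : Fin (n + 1) → ℝ) (hm : ∀ i, 0 < m i) (S S' : E3 →ₗ[ℝ] E3)
    (q : Cfg (n + 1)) (hq : ∑ i, m i • q i = 0) :
    inner ℝ (iota m (wf m S q)) (iota m (wf m S' q)) = ∑ i, m i * inner ℝ (S (q i)) (S' (q i)) := by
  rw [PiLp.inner_apply]
  refine Finset.sum_congr rfl fun i _ => ?_
  rw [iota_wf m hm S q hq, iota_wf m hm S' q hq, real_inner_smul_left, real_inner_smul_right,
    ← mul_assoc, Real.mul_self_sqrt (hm i).le]

/-- symmetric maps of rank two -/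
noncomputable def sab (e : OrthonormalBasis (Fin 3) ℝ E3) (p : Fin 3 × Fin 3) : E3 →ₗ[ℝ] E3 where
  toFun z := inner ℝ z (e p.1) • e p.2 + inner ℝ z (e p.2) • e p.1
  map_add' z w := by
    simp only [inner_add_left, add_smul]
    abel
  map_smul' c z := by
    simp only [real_inner_smul_left, mul_smul, smul_add, RingHom.id_apply]

theorem sab_apply (e : OrthonormalBasis (Fin 3) ℝ E3) (p : Fin 3 × Fin 3) (z : E3) :
    sab e p z = inner ℝ z (e p.1) • e p.2 + inner ℝ z (e p.2) • e p.1 := rfl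

theorem e_inner (e : OrthonormalBasis (Fin 3) ℝ E3) (a b : Fin 3) :
    inner ℝ (e a) (e b) = if a = b then (1:ℝ) else 0 :=
  orthonormal_iff_ite.1 e.orthonormal a b

/-- principal moments -/
def Princ (m : Fin (n + 1) → ℝ) (q : Cfg (n + 1)) (e : OrthonormalBasis (Fin 3) ℝ E3)
    (ρ : Fin 3 → ℝ) : Prop :=
  ∀ a b, ∑ i, m i * (inner ℝ (q i) (e a) * inner ℝ (q i) (e b)) = if a = b then ρ a ^ 2 else 0

theorem sab_sab {m : Fin (n + 1) → ℝ} {q : Cfg (n + 1)} {e : OrthonormalBasis (Fin 3) ℝ E3}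
    {ρ : Fin 3 → ℝ} (h : Princ m q e ρ) (p p' : Fin 3 × Fin 3) :
    ∑ i, m i * inner ℝ (sab e p (q i)) (sab e p' (q i)) =
      (if p.1 = p'.1 then ρ p.1 ^ 2 else 0) * (if p.2 = p'.2 then 1 else 0) +
      (if p.1 = p'.2 then ρ p.1 ^ 2 else 0) * (if p.2 = p'.1 then 1 else 0) +
      (if p.2 = p'.1 then ρ p.2 ^ 2 else 0) * (if p.1 = p'.2 then 1 else 0) +
      (if p.2 = p'.2 then ρ p.2 ^ 2 else 0) * (if p.1 = p'.1 then 1 else 0) := by
  rw [← h p.1 p'.1, ← h p.1 p'.2, ← h p.2 p'.1, ← h p.2 p'.2, Finset.sum_mul, Finset.sum_mul,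
    Finset.sum_mul, Finset.sum_mul, ← Finset.sum_add_distrib, ← Finset.sum_add_distrib,
    ← Finset.sum_add_distrib]
  refine Finset.sum_congr rfl fun i _ => ?_
  rw [sab_apply, sab_apply]
  simp only [inner_add_left, inner_add_right, real_inner_smul_left, real_inner_smul_right, e_inner]
  ring

/-- ordered pairs -/
theorem sab_orth {m : Fin (n + 1) → ℝ} {q : Cfg (n + 1)} {e : OrthonormalBasis (Fin 3) ℝ E3}
    {ρ : Fin 3 → ℝ} (h : Princ m q e ρ) (p p' : Fin 3 × Fin 3) (hp : p.1 ≤ p.2) (hp' : p'.1 ≤ p'.2)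
    (hne : p ≠ p') :
    ∑ i, m i * inner ℝ (sab e p (q i)) (sab e p' (q i)) = 0 := by
  rw [sab_sab h]
  have h1 : ¬(p.1 = p'.1 ∧ p.2 = p'.2) := fun h => hne (Prod.ext h.1 h.2)
  have h2 : ¬(p.1 = p'.2 ∧ p.2 = p'.1) := by
    rintro ⟨h2, h3⟩
    have h4 : p'.2 ≤ p'.1 := by rw [← h2, ← h3]; exact hp
    have h5 : p'.1 = p'.2 := le_antisymm hp' h4
    exact h1 ⟨by rw [h2, h5], by rw [h3, h5]⟩
  by_cases a1 : p.1 = p'.1 <;> by_cases a2 : p.2 = p'.2 <;> by_cases a3 : p.1 = p'.2 <;>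
    by_cases a4 : p.2 = p'.1 <;> simp_all

theorem sab_norm {m : Fin (n + 1) → ℝ} {q : Cfg (n + 1)} {e : OrthonormalBasis (Fin 3) ℝ E3}
    {ρ : Fin 3 → ℝ} (h : Princ m q e ρ) (p : Fin 3 × Fin 3) :
    ρ p.1 ^ 2 ≤ ∑ i, m i * inner ℝ (sab e p (q i)) (sab e p (q i)) := by
  rw [sab_sab h]
  have h1 := sq_nonneg (ρ p.1)
  have h2 := sq_nonneg (ρ p.2)
  by_cases a : p.1 = p.2
  · simp only [a, if_true]
    rw [a] at h1
    linarith
  · have a' : ¬ p.2 = p.1 := fun h => a h.symm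
    simp only [a, a', if_true, if_false]
    linarith

/-- the factor of the bound -/
noncomputable def fac (K r C : ℝ) : ℝ := 1 / Real.sqrt (max 1 (K * r / C))

theorem fac_pos (K r C : ℝ) : 0 < fac K r C := by
  unfold fac
  have : 0 < Real.sqrt (max 1 (K * r / C)) := Real.sqrt_pos.2 (lt_max_of_lt_left one_pos)
  positivity

theorem fac_le_one (K r C : ℝ) : fac K r C ≤ 1 := by
  unfold fac
  rw [div_le_one (Real.sqrt_pos.2 (lt_max_of_lt_left one_pos))]
  exact Real.one_le_sqrt.2 (le_max_left _ _)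

theorem fac_one {K r C : ℝ} (hC : 0 < C) (h : K * r ≤ C) : fac K r C = 1 := by
  unfold fac
  rw [max_eq_left ((div_le_one hC).2 h)]
  simp

theorem fac_big {K r C : ℝ} (hC : 0 < C) (h : C ≤ K * r) :
    fac K r C = Real.sqrt (C / (K * r)) := by
  unfold fac
  rw [max_eq_right ((one_le_div hC).2 h), one_div, ← Real.sqrt_inv, inv_div]

theorem fac_mono {K r C C' : ℝ} (hC : 0 < C) (hCC : C ≤ C') (hKr : 0 ≤ K * r) :
    fac K r C ≤ fac K r C' := by
  unfold fac
  have h1 : 0 < Real.sqrt (max 1 (K * r / C')) := Real.sqrt_pos.2 (lt_max_of_lt_left one_pos)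
  refine one_div_le_one_div_of_le h1 (Real.sqrt_le_sqrt (max_le_max le_rfl ?_))
  exact div_le_div_of_nonneg_left hKr hC hCC

theorem prod_pairs (f : Fin 3 → ℝ) :
    ∏ p ∈ (univ : Finset (Fin 3 × Fin 3)).filter (fun p => p.1 ≤ p.2), f p.1 =
      f 0 ^ 3 * f 1 ^ 2 * f 2 := by
  have h : (univ : Finset (Fin 3 × Fin 3)).filter (fun p => p.1 ≤ p.2) =
      {(0, 0), (0, 1), (0, 2), (1, 1), (1, 2), (2, 2)} := by decide
  rw [h]
  simp
  ring

/-- bound of the dilation in the direction of `u` for nonwandering momenta -/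
theorem dir_bound {m : Fin (n + 1) → ℝ} {μ M θ : ℝ} (hms : Mass m μ M θ) (E : ℝ)
    (ψ : Cfg (n + 1) × Cfg (n + 1) → ℝ)
    (φ : ℝ → Cfg (n + 1) × Cfg (n + 1) → Cfg (n + 1) × Cfg (n + 1)) (hφ : IsFl m E ψ φ)
    (q p : Cfg (n + 1)) (hx : (q, p) ∈ Surf m E) (hNW : NonW (Surf m E) φ (q, p))
    (u : E3) (hu : ‖u‖ = 1) :
    (∑ i, inner ℝ (q i) u * inner ℝ (p i) u) ^ 4 ≤
      cstK (n + 1) M θ * ∑ i, m i * (inner ℝ (q i) u * inner ℝ (q i) u) := by
  have h := thin hms E ψ φ hφ (q, p) hx hNW (innerSL ℝ u) (fun z => by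
    rw [innerSL_apply_apply]
    have h1 := abs_real_inner_le_norm u z
    rw [hu, one_mul] at h1
    exact h1)
  have e1 : Dl m (innerSL ℝ u) (q, p) = ∑ i, inner ℝ (q i) u * inner ℝ (p i) u := by
    unfold Dl dil pr vel
    refine Finset.sum_congr rfl fun i _ => ?_
    have := (hms.pos i).ne'
    simp only [innerSL_apply_apply, inner_smul_right]
    rw [real_inner_comm u (q i), real_inner_comm u (p i)]
    have e2 : inner ℝ (inner ℝ u (q i)) ((m i)⁻¹ * inner ℝ u (p i)) =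
        (m i)⁻¹ * inner ℝ u (p i) * inner ℝ u (q i) := rfl
    rw [e2]
    field_simp
  have e3 : iner m (pr (innerSL ℝ u) q) = ∑ i, m i * (inner ℝ (q i) u * inner ℝ (q i) u) := by
    unfold iner pr
    refine Finset.sum_congr rfl fun i _ => ?_
    rw [innerSL_apply_apply, Real.norm_eq_abs, sq_abs, real_inner_comm u (q i)]
    ring
  rw [e1] at h
  simp only at h
  rw [e3] at h
  exact h

end Pool.Agent.K6.H53.NB
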