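import Pool.Agent.K6.H53.NB.Meas

set_option autoImplicit false

/-!
# Proportion of the nonwandering momenta over an arbitrary configuration: main theorem
-/

namespace Pool.Agent.K6.H53.NB

open MeasureTheory Finset Pool.Agent.Y516.NW

variable {n : ℕ}

/-- dilation in the direction `u` -/
noncomputable def du (q p : Cfg (n + 1)) (u : E3) : ℝ := ∑ i, inner ℝ (q i) u * inner ℝ (p i) u

/-- inertia in the direction `u` -/
noncomputable def iu (m : Fin (n + 1) → ℝ) (q : Cfg (n + 1)) (u : E3) : ℝ :=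
  ∑ i, m i * (inner ℝ (q i) u * inner ℝ (q i) u)

theorem iu_e {m : Fin (n + 1) → ℝ} {q : Cfg (n + 1)} {e : OrthonormalBasis (Fin 3) ℝ E3}
    {ρ : Fin 3 → ℝ} (h : Princ m q e ρ) (a : Fin 3) : iu m q (e a) = ρ a ^ 2 := by
  have := h a a
  rw [if_pos rfl] at this
  exact this

/-- the diagonal vectors -/
noncomputable def dg (e : OrthonormalBasis (Fin 3) ℝ E3) (a b : Fin 3) (s : ℝ) : E3 :=
  (Real.sqrt 2)⁻¹ • (e a + s • e b)

theorem dg_norm (e : OrthonormalBasis (Fin 3) ℝ E3) {a b : Fin 3} (hab : a ≠ b) {s : ℝ}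
    (hs : s ^ 2 = 1) : ‖dg e a b s‖ = 1 := by
  have h2 : ‖dg e a b s‖ ^ 2 = 1 := by
    have h3 : (Real.sqrt 2) ^ 2 = 2 := Real.sq_sqrt (by norm_num)
    rw [← real_inner_self_eq_norm_sq]
    unfold dg
    simp only [real_inner_smul_left, real_inner_smul_right, inner_add_left, inner_add_right,
      e_inner, if_true, if_neg hab, if_neg (Ne.symm hab)]
    have h4 : (Real.sqrt 2)⁻¹ * (Real.sqrt 2)⁻¹ = 1 / 2 := by
      rw [← mul_inv, ← sq, h3]
      norm_num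
    calc (Real.sqrt 2)⁻¹ * ((Real.sqrt 2)⁻¹ * (1 + s * 0) + s * ((Real.sqrt 2)⁻¹ * (0 + s * 1))) =
        ((Real.sqrt 2)⁻¹ * (Real.sqrt 2)⁻¹) * (1 + s ^ 2) := by ring
      _ = 1 := by rw [h4, hs]; norm_num
  have h0 := norm_nonneg (dg e a b s)
  nlinarith

theorem iu_dg {m : Fin (n + 1) → ℝ} {q : Cfg (n + 1)} {e : OrthonormalBasis (Fin 3) ℝ E3}
    {ρ : Fin 3 → ℝ} (h : Princ m q e ρ) {a b : Fin 3} (hab : a ≠ b) {s : ℝ} (hs : s ^ 2 = 1) :
    iu m q (dg e a b s) = (ρ a ^ 2 + ρ b ^ 2) / 2 := by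
  have h1 := h a a
  have h2 := h b b
  have h3 := h a b
  rw [if_pos rfl] at h1 h2
  rw [if_neg hab] at h3
  have h4 : (Real.sqrt 2)⁻¹ * (Real.sqrt 2)⁻¹ = 1 / 2 := by
    rw [← mul_inv, ← sq, Real.sq_sqrt (by norm_num)]
    norm_num
  have e1 : iu m q (dg e a b s) = 1 / 2 *
      (∑ i, m i * (inner ℝ (q i) (e a) * inner ℝ (q i) (e a)) +
        s ^ 2 * ∑ i, m i * (inner ℝ (q i) (e b) * inner ℝ (q i) (e b)) +
        2 * s * ∑ i, m i * (inner ℝ (q i) (e a) * inner ℝ (q i) (e b))) := by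
    unfold iu dg
    rw [Finset.mul_sum, Finset.mul_sum, ← Finset.sum_add_distrib, ← Finset.sum_add_distrib,
      Finset.mul_sum]
    refine Finset.sum_congr rfl fun i _ => ?_
    simp only [inner_smul_right, inner_add_right]
    rw [← h4]
    ring
  rw [e1, h1, h2, h3, hs]
  ring

theorem sab_dg (q p : Cfg (n + 1)) (e : OrthonormalBasis (Fin 3) ℝ E3) (a b : Fin 3) :
    ∑ i, inner ℝ (p i) (sab e (a, b) (q i)) = du q p (dg e a b 1) - du q p (dg e a b (-1)) := by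
  unfold du dg
  rw [← Finset.sum_sub_distrib]
  refine Finset.sum_congr rfl fun i _ => ?_
  have h4 : (Real.sqrt 2)⁻¹ * (Real.sqrt 2)⁻¹ = 1 / 2 := by
    rw [← mul_inv, ← sq, Real.sq_sqrt (by norm_num)]
    norm_num
  rw [sab_apply]
  simp only [inner_smul_right, inner_add_right]
  have e1 : inner ℝ (q i) (e a) * inner ℝ (p i) (e b) + inner ℝ (q i) (e b) * inner ℝ (p i) (e a) =
      ((Real.sqrt 2)⁻¹ * (Real.sqrt 2)⁻¹) * (2 * (inner ℝ (q i) (e a) * inner ℝ (p i) (e b) +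
        inner ℝ (q i) (e b) * inner ℝ (p i) (e a))) := by
    rw [h4]
    ring
  rw [e1]
  ring

theorem sab_diag (q p : Cfg (n + 1)) (e : OrthonormalBasis (Fin 3) ℝ E3) (a : Fin 3) :
    ∑ i, inner ℝ (p i) (sab e (a, a) (q i)) = 2 * du q p (e a) := by
  unfold du
  rw [Finset.mul_sum]
  refine Finset.sum_congr rfl fun i _ => ?_
  rw [sab_apply]
  simp only [inner_smul_right, inner_add_right]
  ring

/-- bounds of all components of the dilation tensor -/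
theorem sab_bound {m : Fin (n + 1) → ℝ} {q p : Cfg (n + 1)} {e : OrthonormalBasis (Fin 3) ℝ E3}
    {ρ : Fin 3 → ℝ} (h : Princ m q e ρ) (hρ0 : ∀ a, 0 ≤ ρ a) (hρ : Antitone ρ) {K β : ℝ}
    (hK : 0 < K) (hβ : 0 < β)
    (hall : ∀ u : E3, ‖u‖ = 1 → K ^ 2 * du q p u ^ 4 ≤ β ^ 4 * iu m q u)
    (pp : Fin 3 × Fin 3) (hpp : pp.1 ≤ pp.2) :
    |∑ i, inner ℝ (p i) (sab e pp (q i))| ≤ 2 * (β * Real.sqrt (ρ pp.1) / Real.sqrt K) := by
  obtain ⟨a, b⟩ := pp
  simp only at hpp ⊢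
  have hg0 : 0 ≤ β * Real.sqrt (ρ a) / Real.sqrt K := by positivity
  have key : ∀ u : E3, ‖u‖ = 1 → iu m q u ≤ ρ a ^ 2 →
      |du q p u| ≤ β * Real.sqrt (ρ a) / Real.sqrt K := by
    intro u hu hi
    have h1 := hall u hu
    have h2 : (β * Real.sqrt (ρ a) / Real.sqrt K) ^ 4 = β ^ 4 * ρ a ^ 2 / K ^ 2 := by
      have e1 : Real.sqrt (ρ a) ^ 4 = ρ a ^ 2 := by
        rw [show (4:ℕ) = 2 * 2 by norm_num, pow_mul, Real.sq_sqrt (hρ0 a)]
      have e2 : Real.sqrt K ^ 4 = K ^ 2 := by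
        rw [show (4:ℕ) = 2 * 2 by norm_num, pow_mul, Real.sq_sqrt hK.le]
      rw [div_pow, mul_pow, e1, e2]
    have h3 : |du q p u| ^ 4 ≤ (β * Real.sqrt (ρ a) / Real.sqrt K) ^ 4 := by
      rw [h2, le_div_iff₀ (by positivity)]
      have e3 : |du q p u| ^ 4 = du q p u ^ 4 := by
        rw [show (4:ℕ) = 2 * 2 by norm_num, pow_mul, pow_mul, sq_abs]
      rw [e3]
      have h4 : β ^ 4 * iu m q u ≤ β ^ 4 * ρ a ^ 2 := mul_le_mul_of_nonneg_left hi (by positivity)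
      linarith
    exact le_of_pow_le_pow_left₀ (by norm_num) hg0 h3
  by_cases hab : a = b
  · subst hab
    rw [sab_diag, abs_mul, abs_two]
    exact mul_le_mul_of_nonneg_left (key (e a) (e.orthonormal.1 a) (iu_e h a).le) (by norm_num)
  · have hba := hρ hpp
    have h1 : (ρ a ^ 2 + ρ b ^ 2) / 2 ≤ ρ a ^ 2 := by
      have : ρ b ^ 2 ≤ ρ a ^ 2 := pow_le_pow_left₀ (hρ0 b) hba 2
      linarith
    rw [sab_dg]
    have k1 := key (dg e a b 1) (dg_norm e hab (by norm_num))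
      (by rw [iu_dg h hab (by norm_num)]; exact h1)
    have k2 := key (dg e a b (-1)) (dg_norm e hab (by norm_num))
      (by rw [iu_dg h hab (by norm_num)]; exact h1)
    have k3 := abs_sub (du q p (dg e a b 1)) (du q p (dg e a b (-1)))
    linarith

/-- volume of the momenta which satisfy all the inequalities -/
theorem vol_bound {m : Fin (n + 1) → ℝ} (hm : ∀ i, 0 < m i) {q : Cfg (n + 1)}
    (hq : ∑ i, m i • q i = 0) {e : OrthonormalBasis (Fin 3) ℝ E3}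
    {ρ : Fin 3 → ℝ} (h : Princ m q e ρ) (hρ0 : ∀ a, 0 ≤ ρ a) (hρ : Antitone ρ) {K β : ℝ}
    (hK : 0 < K) (hβ : 0 < β) :
    volume {P : Fin n → E3 | ‖iota m P‖ ≤ Real.sqrt 2 ∧
        ∀ u : E3, ‖u‖ = 1 → K ^ 2 * du q (mom P) u ^ 4 ≤ β ^ 4 * iu m q u} ≤
      ENNReal.ofReal (28 ^ Module.finrank ℝ (Fin n → E3) *
        (fac K (ρ 0) (4 * β ^ 2) ^ 3 * fac K (ρ 1) (4 * β ^ 2) ^ 2 * fac K (ρ 2) (4 * β ^ 2))) *
        volume {P : Fin n → E3 | ‖iota m P‖ ≤ Real.sqrt 2} := by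
  classical
  have hC0 : 0 < 4 * β ^ 2 := by positivity
  let κ := {p : Fin 3 × Fin 3 // p.1 ≤ p.2 ∧ 4 * β ^ 2 < K * ρ p.1}
  have hρpos : ∀ p : κ, 0 < ρ p.1.1 := by
    intro p
    have h1 := p.2.2
    by_contra hcon
    push Not at hcon
    nlinarith
  let nn : κ → ℝ := fun p => ‖iota m (wf m (sab e p.1) q)‖
  have hnn : ∀ p : κ, ρ p.1.1 ≤ nn p := by
    intro p
    have h1 := sab_norm h p.1
    rw [← inner_wf_wf m hm _ _ q hq, real_inner_self_eq_norm_sq] at h1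
    exact le_of_sq_le_sq h1 (norm_nonneg _)
  have hnn0 : ∀ p : κ, 0 < nn p := fun p => (hρpos p).trans_le (hnn p)
  let W : κ → (Fin n → E3) := fun p => (nn p)⁻¹ • wf m (sab e p.1) q
  have hW : Orthonormal ℝ fun p => iota m (W p) := by
    refine ⟨fun p => ?_, fun p p' hpp => ?_⟩
    · simp only [W, map_smul, norm_smul, norm_inv, Real.norm_of_nonneg (hnn0 p).le]
      exact inv_mul_cancel₀ (hnn0 p).ne'
    · simp only [W, map_smul, real_inner_smul_left, real_inner_smul_right]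
      rw [inner_wf_wf m hm _ _ q hq, sab_orth h p.1 p'.1 p.2.1 p'.2.1
        (fun he => hpp (Subtype.ext he))]
      ring
  let η : κ → ℝ := fun p => fac K (ρ p.1.1) (4 * β ^ 2)
  have hη : ∀ p, 0 < η p := fun p => fac_pos _ _ _
  have hr : (0:ℝ) < Real.sqrt 2 := Real.sqrt_pos.2 (by norm_num)
  have hpack := pack (volume : Measure (Fin n → E3)) (iota m) hr W hW η hη
  have hsub : {P : Fin n → E3 | ‖iota m P‖ ≤ Real.sqrt 2 ∧
      ∀ u : E3, ‖u‖ = 1 → K ^ 2 * du q (mom P) u ^ 4 ≤ β ^ 4 * iu m q u} ⊆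
      Thin (iota m) (Real.sqrt 2) W η := by
    rintro P ⟨h1, h2⟩
    refine ⟨h1, fun p => ?_⟩
    have h3 := sab_bound h hρ0 hρ hK hβ h2 p.1 p.2.1
    simp only [W, map_smul, real_inner_smul_right]
    rw [inner_wf m hm _ q hq, abs_mul, abs_inv, abs_of_pos (hnn0 p), inv_mul_le_iff₀ (hnn0 p)]
    refine h3.trans ?_
    have h4 : η p = Real.sqrt (4 * β ^ 2 / (K * ρ p.1.1)) := fac_big hC0 p.2.2.le
    have h5 : Real.sqrt (4 * β ^ 2 / (K * ρ p.1.1)) =
        2 * β / (Real.sqrt K * Real.sqrt (ρ p.1.1)) := by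
      rw [Real.sqrt_div hC0.le, Real.sqrt_mul hK.le]
      congr 1
      rw [show 4 * β ^ 2 = (2 * β) ^ 2 by ring, Real.sqrt_sq (by positivity)]
    have h6 := hρpos p
    have h7 : Real.sqrt (ρ p.1.1) * Real.sqrt (ρ p.1.1) = ρ p.1.1 := Real.mul_self_sqrt h6.le
    have h8 : 0 < Real.sqrt (ρ p.1.1) := Real.sqrt_pos.2 h6
    have h9 : 0 < Real.sqrt K := Real.sqrt_pos.2 hK
    rw [h4, h5]
    have h10 : 2 * (β * Real.sqrt (ρ p.1.1) / Real.sqrt K) =
        ρ p.1.1 * (2 * β / (Real.sqrt K * Real.sqrt (ρ p.1.1))) := by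
      nth_rewrite 2 [← h7]
      field_simp
    rw [h10]
    exact mul_le_mul_of_nonneg_right (hnn p) (by positivity)
  refine (measure_mono hsub).trans (hpack.trans ?_)
  refine mul_le_mul_left (ENNReal.ofReal_le_ofReal ?_) _
  have hcard : (Fintype.card κ : ℝ) ≤ 9 := by
    have h1 : Fintype.card κ ≤ Fintype.card (Fin 3 × Fin 3) :=
      Fintype.card_subtype_le _
    have h2 : Fintype.card (Fin 3 × Fin 3) = 9 := by simp
    rw [h2] at h1
    exact_mod_cast h1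
  have hc28 : 1 + 3 * (Fintype.card κ : ℝ) / Real.sqrt 2 ≤ 28 := by
    have h1 : (1:ℝ) ≤ Real.sqrt 2 := Real.one_le_sqrt.2 (by norm_num)
    have h2 : 3 * (Fintype.card κ : ℝ) / Real.sqrt 2 ≤ 27 := by
      rw [div_le_iff₀ hr]
      nlinarith
    linarith
  have hprod : ∏ p : κ, η p =
      fac K (ρ 0) (4 * β ^ 2) ^ 3 * fac K (ρ 1) (4 * β ^ 2) ^ 2 * fac K (ρ 2) (4 * β ^ 2) := by
    rw [← prod_pairs fun a => fac K (ρ a) (4 * β ^ 2)]
    have h1 : ∏ p : κ, η p = ∏ p ∈ (univ : Finset (Fin 3 × Fin 3)).filter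
        (fun p => p.1 ≤ p.2 ∧ 4 * β ^ 2 < K * ρ p.1), fac K (ρ p.1) (4 * β ^ 2) :=
      (Finset.prod_subtype ((univ : Finset (Fin 3 × Fin 3)).filter
        (fun p => p.1 ≤ p.2 ∧ 4 * β ^ 2 < K * ρ p.1)) (fun p => by simp)
        (fun p : Fin 3 × Fin 3 => fac K (ρ p.1) (4 * β ^ 2))).symm
    rw [h1]
    refine Finset.prod_subset (fun p hp => ?_) (fun p hp hp' => ?_)
    · simp only [Finset.mem_filter, Finset.mem_univ, true_and] at hp ⊢
      exact hp.1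
    · simp only [Finset.mem_filter, Finset.mem_univ, true_and, not_and, not_lt] at hp hp'
      exact fac_one hC0 (hp' hp)
  rw [hprod]
  have h0 : 0 ≤ fac K (ρ 0) (4 * β ^ 2) ^ 3 * fac K (ρ 1) (4 * β ^ 2) ^ 2 *
      fac K (ρ 2) (4 * β ^ 2) := by
    have := fac_pos K (ρ 0) (4 * β ^ 2)
    have := fac_pos K (ρ 1) (4 * β ^ 2)
    have := fac_pos K (ρ 2) (4 * β ^ 2)
    positivity
  refine mul_le_mul_of_nonneg_right ?_ h0
  exact pow_le_pow_left₀ (by positivity) hc28 _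

end Pool.Agent.K6.H53.NB
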