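import Pool.Agent.K6.H53.NB.Meas2

set_option autoImplicit false

/-!
# Proportion of the nonwandering momenta: final form
-/

namespace Pool.Agent.K6.H53.NB

open MeasureTheory Finset Pool.Agent.Y516.NW

variable {n : ℕ}

/-- kinetic energy -/
noncomputable def kin (m : Fin (n + 1) → ℝ) (P : Fin n → E3) : ℝ := ∑ i, ‖mom P i‖ ^ 2 / (2 * m i)

theorem kin_nonneg {m : Fin (n + 1) → ℝ} (hm : ∀ i, 0 < m i) (P : Fin n → E3) : 0 ≤ kin m P :=
  Finset.sum_nonneg fun i _ => by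
    have := hm i
    positivity

theorem kin_ball {m : Fin (n + 1) → ℝ} (hm : ∀ i, 0 < m i) :
    {P : Fin n → E3 | ‖iota m P‖ ≤ Real.sqrt 2} = {P | kin m P ≤ 1} := by
  ext P
  have h1 := iota_norm m hm P
  have h2 : kin m P = ∑ i, ‖mom P i‖ ^ 2 / (2 * m i) := rfl
  rw [← h2] at h1
  show ‖iota m P‖ ≤ Real.sqrt 2 ↔ kin m P ≤ 1
  rw [Real.le_sqrt (norm_nonneg _) (by norm_num), h1]
  constructor
  · intro h
    linarith
  · intro h
    linarith

theorem nonw_sub {m : Fin (n + 1) → ℝ} {μ M θ : ℝ} (hms : Mass m μ M θ) (E : ℝ)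
    (ψ : Cfg (n + 1) × Cfg (n + 1) → ℝ)
    (φ : ℝ → Cfg (n + 1) × Cfg (n + 1) → Cfg (n + 1) × Cfg (n + 1)) (hφ : IsFl m E ψ φ)
    (q : Cfg (n + 1)) (hne : ∀ i j, i ≠ j → q i ≠ q j) (hq : ∑ i, m i • q i = 0) (K : ℝ)
    (hK : K = ∑ i, ∑ j, m i * m j / ‖q i - q j‖ / 2 + E) (hK0 : 0 < K) {β : ℝ}
    (hβ : β ^ 4 = cstK (n + 1) M θ) :
    {P : Fin n → E3 | kin m P ≤ 1 ∧ NonW (Surf m E) φ (q, Real.sqrt (K / kin m P) • mom P)} ⊆
      {P : Fin n → E3 | ‖iota m P‖ ≤ Real.sqrt 2 ∧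
        ∀ u : E3, ‖u‖ = 1 → K ^ 2 * du q (mom P) u ^ 4 ≤ β ^ 4 * iu m q u} := by
  rintro P ⟨hP1, hP2⟩
  have hm := hms.pos
  have hball : P ∈ {P : Fin n → E3 | ‖iota m P‖ ≤ Real.sqrt 2} := by
    rw [kin_ball hm]
    exact hP1
  refine ⟨hball, fun u hu => ?_⟩
  have hiu : 0 ≤ iu m q u := Finset.sum_nonneg fun i _ =>
    mul_nonneg (hm i).le (mul_self_nonneg _)
  have hβ4 : 0 ≤ β ^ 4 := by
    rw [hβ]
    exact (cstK_pos _ _ (zero_le_one.trans hms.hθ1)).le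
  rcases (kin_nonneg hm P).eq_or_lt with h0 | hkin
  · have h1 : ∀ i, mom P i = 0 := by
      intro i
      have h2 := (Finset.sum_eq_zero_iff_of_nonneg (fun i _ => by
        have := hm i
        positivity)).mp h0.symm i (Finset.mem_univ i)
      have h3 : ‖mom P i‖ ^ 2 = 0 := by
        rcases div_eq_zero_iff.mp h2 with h | h
        · exact h
        · have := hm i
          linarith
      exact norm_eq_zero.mp (pow_eq_zero_iff (by norm_num) |>.mp h3)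
    have h2 : du q (mom P) u = 0 := by
      unfold du
      exact Finset.sum_eq_zero fun i _ => by rw [h1, inner_zero_left, mul_zero]
    rw [h2]
    have : K ^ 2 * (0:ℝ) ^ 4 = 0 := by ring
    rw [this]
    exact mul_nonneg hβ4 hiu
  · obtain ⟨s, hs⟩ : ∃ s, s = Real.sqrt (K / kin m P) := ⟨_, rfl⟩
    have hs2 : s ^ 2 = K / kin m P := by
      rw [hs]
      exact Real.sq_sqrt (by positivity)
    rw [← hs] at hP2
    have hsurf : (q, s • mom P) ∈ Surf m E := by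
      refine ⟨hne, hq, ?_, ?_⟩
      · show ∑ i, (s • mom P) i = 0
        have : ∑ i, (s • mom P) i = s • ∑ i, mom P i := by
          rw [Finset.smul_sum]
          rfl
        rw [this, mom_sum, smul_zero]
      · have h1 : ∑ i, ‖(s • mom P) i‖ ^ 2 / (2 * m i) = s ^ 2 * kin m P := by
          unfold kin
          rw [Finset.mul_sum]
          refine Finset.sum_congr rfl fun i _ => ?_
          simp only [Pi.smul_apply, norm_smul, Real.norm_eq_abs, mul_pow, sq_abs]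
          rw [mul_div_assoc]
        show ∑ i, ‖(s • mom P) i‖ ^ 2 / (2 * m i) - _ = E
        rw [h1, hs2, div_mul_cancel₀ _ hkin.ne', hK]
        ring
    have h1 := dir_bound hms E ψ φ hφ q (s • mom P) hsurf hP2 u hu
    have h2 : ∑ i, inner ℝ (q i) u * inner ℝ ((s • mom P) i) u = s * du q (mom P) u := by
      unfold du
      rw [Finset.mul_sum]
      refine Finset.sum_congr rfl fun i _ => ?_
      rw [Pi.smul_apply, real_inner_smul_left]
      ring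
    rw [h2, ← hβ, mul_pow, show (4:ℕ) = 2 * 2 by norm_num, pow_mul, hs2] at h1
    have h3 : K ≤ K / kin m P := by
      rw [le_div_iff₀ hkin]
      nlinarith
    have h4 : K ^ 2 ≤ (K / kin m P) ^ 2 := pow_le_pow_left₀ hK0.le h3 2
    have h5 : 0 ≤ du q (mom P) u ^ (2 * 2) := by
      rw [pow_mul]
      positivity
    calc K ^ 2 * du q (mom P) u ^ 4 ≤ (K / kin m P) ^ 2 * du q (mom P) u ^ (2 * 2) :=
          mul_le_mul_of_nonneg_right h4 h5
      _ ≤ β ^ (2 * 2) * iu m q u := h1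
      _ = β ^ 4 * iu m q u := by norm_num

/-- **Proportion of the nonwandering momenta over an arbitrary configuration.** -/
theorem meas_main (m : Fin (n + 1) → ℝ) (hm : ∀ i, 0 < m i) :
    ∃ C : ℝ, 0 < C ∧ ∀ (E : ℝ) (ψ : Cfg (n + 1) × Cfg (n + 1) → ℝ)
      (φ : ℝ → Cfg (n + 1) × Cfg (n + 1) → Cfg (n + 1) × Cfg (n + 1)), IsFl m E ψ φ →
      ∀ q : Cfg (n + 1), (∀ i j, i ≠ j → q i ≠ q j) → ∑ i, m i • q i = 0 → ∀ K : ℝ,
      K = ∑ i, ∑ j, m i * m j / ‖q i - q j‖ / 2 + E → 0 < K →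
      ∀ (e : OrthonormalBasis (Fin 3) ℝ E3) (ρ : Fin 3 → ℝ), Princ m q e ρ → (∀ a, 0 ≤ ρ a) →
      Antitone ρ →
      volume {P : Fin n → E3 | kin m P ≤ 1 ∧
          NonW (Surf m E) φ (q, Real.sqrt (K / kin m P) • mom P)} ≤
        ENNReal.ofReal (fac K (ρ 0) C ^ 3 * fac K (ρ 1) C ^ 2 * fac K (ρ 2) C) *
          volume {P : Fin n → E3 | kin m P ≤ 1} := by
  obtain ⟨μ, M, θ, hms⟩ := exists_mass m hm (Nat.succ_pos n)
  have hcK := cstK_pos (n + 1) M (θ := θ) (zero_le_one.trans hms.hθ1)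
  obtain ⟨β, hβ0, hβ⟩ : ∃ β : ℝ, 0 < β ∧ β ^ 4 = cstK (n + 1) M θ := by
    refine ⟨(cstK (n + 1) M θ) ^ (1 / 4 : ℝ), Real.rpow_pos_of_pos hcK _, ?_⟩
    rw [← Real.rpow_natCast, ← Real.rpow_mul hcK.le]
    norm_num
  obtain ⟨X, hX⟩ : ∃ X : ℝ, X = 28 ^ Module.finrank ℝ (Fin n → E3) := ⟨_, rfl⟩
  have hX1 : 1 ≤ X := by
    rw [hX]
    exact one_le_pow₀ (by norm_num)
  have hC0 : 0 < 4 * β ^ 2 := by positivity
  have hCC : 4 * β ^ 2 ≤ 4 * β ^ 2 * X ^ 2 := le_mul_of_one_le_right hC0.le (one_le_pow₀ hX1)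
  have hC1 : 0 < 4 * β ^ 2 * X ^ 2 := hC0.trans_le hCC
  refine ⟨4 * β ^ 2 * X ^ 2, hC1, ?_⟩
  intro E ψ φ hφ q hne hq K hK hK0 e ρ h hρ0 hρ
  rcases le_or_gt (K * ρ 0) (4 * β ^ 2 * X ^ 2) with hle | hgt
  · have h1 : ∀ a, fac K (ρ a) (4 * β ^ 2 * X ^ 2) = 1 := by
      intro a
      refine fac_one hC1 (le_trans ?_ hle)
      exact mul_le_mul_of_nonneg_left (hρ (Fin.zero_le a)) hK0.le
    rw [h1, h1, h1]
    simp only [one_pow, mul_one, ENNReal.ofReal_one, one_mul]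
    exact measure_mono fun P hP => hP.1
  · have h1 := (measure_mono (μ := volume) (nonw_sub hms E ψ φ hφ q hne hq K hK hK0 hβ)).trans
      (vol_bound hm hq h hρ0 hρ hK0 hβ0)
    rw [kin_ball hm] at h1
    refine h1.trans (mul_le_mul_left (ENNReal.ofReal_le_ofReal ?_) _)
    rw [← hX]
    have f1 : X * fac K (ρ 0) (4 * β ^ 2) = fac K (ρ 0) (4 * β ^ 2 * X ^ 2) := by
      rw [fac_big hC0 (hCC.trans hgt.le), fac_big hC1 hgt.le]
      have e1 : 4 * β ^ 2 * X ^ 2 / (K * ρ 0) = X ^ 2 * (4 * β ^ 2 / (K * ρ 0)) := by ring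
      rw [e1, Real.sqrt_mul (sq_nonneg X), Real.sqrt_sq (by linarith)]
    have g0 := fac_mono (K := K) (r := ρ 0) hC0 hCC (mul_nonneg hK0.le (hρ0 0))
    have g1 := fac_mono (K := K) (r := ρ 1) hC0 hCC (mul_nonneg hK0.le (hρ0 1))
    have g2 := fac_mono (K := K) (r := ρ 2) hC0 hCC (mul_nonneg hK0.le (hρ0 2))
    have p0 := fac_pos K (ρ 0) (4 * β ^ 2)
    have p1 := fac_pos K (ρ 1) (4 * β ^ 2)
    have p2 := fac_pos K (ρ 2) (4 * β ^ 2)
    have q0 := fac_pos K (ρ 0) (4 * β ^ 2 * X ^ 2)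
    calc X * (fac K (ρ 0) (4 * β ^ 2) ^ 3 * fac K (ρ 1) (4 * β ^ 2) ^ 2 *
          fac K (ρ 2) (4 * β ^ 2)) =
          (X * fac K (ρ 0) (4 * β ^ 2)) * fac K (ρ 0) (4 * β ^ 2) ^ 2 *
            fac K (ρ 1) (4 * β ^ 2) ^ 2 * fac K (ρ 2) (4 * β ^ 2) := by ring
      _ ≤ fac K (ρ 0) (4 * β ^ 2 * X ^ 2) * fac K (ρ 0) (4 * β ^ 2 * X ^ 2) ^ 2 *
            fac K (ρ 1) (4 * β ^ 2 * X ^ 2) ^ 2 * fac K (ρ 2) (4 * β ^ 2 * X ^ 2) := by
        rw [f1]
        gcongr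
      _ = _ := by ring

/-- existence of principal axes -/
theorem exists_princ (m : Fin (n + 1) → ℝ) (hm : ∀ i, 0 < m i) (q : Cfg (n + 1)) :
    ∃ (e : OrthonormalBasis (Fin 3) ℝ E3) (ρ : Fin 3 → ℝ), Princ m q e ρ ∧ (∀ a, 0 ≤ ρ a) ∧
      Antitone ρ ∧ ∑ i, m i * ‖q i‖ ^ 2 = ρ 0 ^ 2 + ρ 1 ^ 2 + ρ 2 ^ 2 := by
  let T : E3 →ₗ[ℝ] E3 :=
    { toFun := fun z => ∑ i, (m i * inner ℝ (q i) z) • q i
      map_add' := fun z w => by
        rw [← Finset.sum_add_distrib]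
        refine Finset.sum_congr rfl fun i _ => ?_
        rw [inner_add_right, mul_add, add_smul]
      map_smul' := fun c z => by
        rw [RingHom.id_apply, Finset.smul_sum]
        refine Finset.sum_congr rfl fun i _ => ?_
        rw [real_inner_smul_right, smul_smul]
        ring_nf }
  have hTa : ∀ z w, inner ℝ (T z) w = ∑ i, m i * (inner ℝ (q i) z * inner ℝ (q i) w) := by
    intro z w
    show inner ℝ (∑ i, (m i * inner ℝ (q i) z) • q i) w = _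
    rw [sum_inner]
    refine Finset.sum_congr rfl fun i _ => ?_
    rw [real_inner_smul_left]
    ring
  have hT : T.IsSymmetric := by
    intro z w
    rw [hTa, real_inner_comm, hTa]
    refine Finset.sum_congr rfl fun i _ => ?_
    ring
  have hn : Module.finrank ℝ E3 = 3 := finrank_euclideanSpace_fin
  let e := hT.eigenvectorBasis hn
  let lam := hT.eigenvalues hn
  have hpr : ∀ a b, ∑ i, m i * (inner ℝ (q i) (e a) * inner ℝ (q i) (e b)) =
      if a = b then lam a else 0 := by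
    intro a b
    rw [← hTa, hT.apply_eigenvectorBasis hn a]
    have h1 := e_inner e a b
    rw [inner_smul_left, h1]
    split_ifs <;> simp [lam]
  have hlam : ∀ a, 0 ≤ lam a := by
    intro a
    have h1 := hpr a a
    rw [if_pos rfl] at h1
    rw [← h1]
    exact Finset.sum_nonneg fun i _ => mul_nonneg (hm i).le (mul_self_nonneg _)
  refine ⟨e, fun a => Real.sqrt (lam a), fun a b => ?_, fun a => Real.sqrt_nonneg _,
    fun a b hab => Real.sqrt_le_sqrt (hT.eigenvalues_antitone hn hab), ?_⟩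
  · rw [hpr a b]
    split_ifs
    · rw [Real.sq_sqrt (hlam a)]
    · rfl
  · rw [Real.sq_sqrt (hlam 0), Real.sq_sqrt (hlam 1), Real.sq_sqrt (hlam 2)]
    have h1 : ∀ a, lam a = ∑ i, m i * (inner ℝ (q i) (e a) * inner ℝ (q i) (e a)) := by
      intro a
      rw [hpr a a, if_pos rfl]
    rw [h1 0, h1 1, h1 2, ← Finset.sum_add_distrib, ← Finset.sum_add_distrib]
    refine Finset.sum_congr rfl fun i _ => ?_
    have h2 := e.sum_inner_mul_inner (q i) (q i)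
    rw [Fin.sum_univ_three, real_inner_self_eq_norm_sq] at h2
    rw [← h2, real_inner_comm (q i) (e 0), real_inner_comm (q i) (e 1),
      real_inner_comm (q i) (e 2)]
    ring

/-- simple form -/
theorem fac_cube {K C r R : ℝ} (hK : 0 < K) (hC : 0 < C) (hr : 0 < r) (hR : R ≤ 2 * r)
    (hR0 : 0 < R) {f g : ℝ} (hf0 : 0 ≤ f) (hg0 : 0 ≤ g) (hf : f ≤ 1) (hg : g ≤ 1) :
    fac K r C ^ 3 * f ^ 2 * g ≤ (2 * C / (R * K)) ^ (3 / 2 : ℝ) := by
  have h1 : fac K r C ≤ Real.sqrt (2 * C / (R * K)) := by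
    unfold fac
    rw [one_div, ← Real.sqrt_inv]
    refine Real.sqrt_le_sqrt ?_
    have h2 : 0 < K * r / C := by positivity
    calc (max 1 (K * r / C))⁻¹ ≤ (K * r / C)⁻¹ := inv_anti₀ h2 (le_max_right _ _)
      _ = C / (K * r) := inv_div _ _
      _ ≤ 2 * C / (R * K) := by
        rw [div_le_div_iff₀ (by positivity) (by positivity)]
        nlinarith [mul_pos hC hK]
  have h2 : (2 * C / (R * K)) ^ (3 / 2 : ℝ) = Real.sqrt (2 * C / (R * K)) ^ 3 := by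
    rw [Real.sqrt_eq_rpow, ← Real.rpow_natCast, ← Real.rpow_mul (by positivity)]
    norm_num
  rw [h2]
  have h3 := fac_pos K r C
  have h4 : fac K r C ^ 3 ≤ Real.sqrt (2 * C / (R * K)) ^ 3 := pow_le_pow_left₀ h3.le h1 3
  have h5 : f ^ 2 * g ≤ 1 := by
    have : f ^ 2 ≤ 1 := pow_le_one₀ hf0 hf
    nlinarith [sq_nonneg f]
  have h6 : 0 ≤ f ^ 2 * g := by positivity
  calc fac K r C ^ 3 * f ^ 2 * g = fac K r C ^ 3 * (f ^ 2 * g) := by ring
    _ ≤ fac K r C ^ 3 * 1 := mul_le_mul_of_nonneg_left h5 (by positivity)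
    _ ≤ _ := by linarith

end Pool.Agent.K6.H53.NB
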