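import Pool.Agent.K6.H53.NB.Esc2
import Pool.Agent.N775.NW.Base
import Pool.Agent.Y516.NW.Wand
import Pool.Agent.Y275.NW.Boot

set_option autoImplicit false

/-!
# Motions along reparametrized orbits: return to the physical time
-/

namespace Pool.Agent.K6.H53.NB

open Finset Set Filter Topology Pool.Agent.Y516.NW

variable {N : ℕ}

theorem exists_inv {τ c : ℝ → ℝ} (hd : ∀ s, HasDerivAt τ (c s) s) (hc : ∀ s, 0 < c s) :
    ∃ σ : ℝ → ℝ, (∀ s, σ (τ s) = s) ∧ ∀ s, HasDerivAt σ (c s)⁻¹ (τ s) := by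
  have hmono : StrictMono τ := strictMono_of_deriv_pos fun s => by
    rw [(hd s).deriv]
    exact hc s
  have hcont : Continuous τ := continuous_iff_continuousAt.2 fun s => (hd s).continuousAt
  let σ := Function.invFun τ
  have hσ : ∀ s, σ (τ s) = s := Function.leftInverse_invFun hmono.injective
  have hnear : ∀ s ε : ℝ, 0 < ε → ∀ y ∈ Ioo (τ (s - ε)) (τ (s + ε)),
      ∃ u ∈ Ioo (s - ε) (s + ε), τ u = y := fun s ε hε =>
    intermediate_value_Ioo (by linarith) hcont.continuousOn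
  have hnb : ∀ s ε : ℝ, 0 < ε → Ioo (τ (s - ε)) (τ (s + ε)) ∈ 𝓝 (τ s) := fun s ε hε =>
    Ioo_mem_nhds (hmono (by linarith)) (hmono (by linarith))
  refine ⟨σ, hσ, fun s => ?_⟩
  have hca : ContinuousAt σ (τ s) := by
    rw [Metric.continuousAt_iff']
    intro ε hε
    filter_upwards [hnb s ε hε] with y hy
    obtain ⟨u, hu, rfl⟩ := hnear s ε hε y hy
    rw [hσ, hσ, Real.dist_eq, abs_lt]
    exact ⟨by linarith [hu.1], by linarith [hu.2]⟩
  refine HasDerivAt.of_local_left_inverse hca (by rw [hσ]; exact hd s) (hc s).ne' ?_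
  filter_upwards [hnb s 1 one_pos] with y hy
  obtain ⟨u, hu, rfl⟩ := hnear s 1 one_pos y hy
  rw [hσ]

variable {V : Type*} [NormedAddCommGroup V] [InnerProductSpace ℝ V]

/-- projection of a configuration -/
noncomputable def pr (Γ : E3 →L[ℝ] V) (q : Cfg N) : Fin N → V := fun i => Γ (q i)

/-- a motion of the bodies gives a solution in physical time -/
theorem sol_of_mot {m : Fin N → ℝ} {E : ℝ} {q v : ℝ → Cfg N} {c τ : ℝ → ℝ}
    (h : Mot m E q v c τ) (Γ : E3 →L[ℝ] V) (hG : ∀ z, ‖Γ z‖ ≤ ‖z‖) {σ : ℝ → ℝ}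
    (hσ : ∀ s, σ (τ s) = s) (hσd : ∀ s, HasDerivAt σ (c s)⁻¹ (τ s)) :
    Sol m (range τ) (fun t => pr Γ (q (σ t))) (fun t => pr Γ (v (σ t)))
      (fun t i j => 1 / ‖q (σ t) j - q (σ t) i‖ ^ 3) where
  xd := by
    rintro _ ⟨s, rfl⟩ i
    have h1 : HasDerivAt (fun u => q u i) (c s • v s i) (σ (τ s)) := by
      rw [hσ]
      exact h.qd s i
    have h2 := h1.scomp (τ s) (hσd s)
    rw [smul_smul, inv_mul_cancel₀ (h.cpos s).ne', one_smul] at h2
    have h3 := Γ.hasFDerivAt.comp_hasDerivAt (τ s) h2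
    simp only [pr, hσ]
    exact h3
  yd := by
    rintro _ ⟨s, rfl⟩ i
    have h1 : HasDerivAt (fun u => v u i) (c s • acc m (q s) i) (σ (τ s)) := by
      rw [hσ]
      exact h.vd s i
    have h2 := h1.scomp (τ s) (hσd s)
    rw [smul_smul, inv_mul_cancel₀ (h.cpos s).ne', one_smul] at h2
    have h3 := Γ.hasFDerivAt.comp_hasDerivAt (τ s) h2
    have e : Γ (acc m (q s) i) = accel m (fun i j => 1 / ‖q (σ (τ s)) j - q (σ (τ s)) i‖ ^ 3)
        (pr Γ (q (σ (τ s)))) i := by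
      unfold acc accel pr
      rw [map_sum, hσ]
      refine Finset.sum_congr rfl fun j _ => ?_
      rw [map_smul, map_sub, mul_one_div]
    rw [e] at h3
    exact h3
  ks := fun t _ i j => by rw [norm_sub_rev]
  k0 := fun t _ i j => by positivity
  k1 := fun t _ i j => by
    have h1 : ‖pr Γ (q (σ t)) i - pr Γ (q (σ t)) j‖ ≤ ‖q (σ t) j - q (σ t) i‖ := by
      unfold pr
      rw [← map_sub, norm_sub_rev (q (σ t) j)]
      exact hG _
    rcases (norm_nonneg (q (σ t) j - q (σ t) i)).eq_or_lt with h0 | h0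
    · rw [← h0]
      norm_num
    · rw [one_div, inv_mul_le_iff₀ (by positivity), mul_one]
      exact pow_le_pow_left₀ (norm_nonneg _) h1 3

/-- escape criterion along reparametrized orbits -/
theorem mot_escape {m : Fin N → ℝ} {μ M θ : ℝ} (hms : Mass m μ M θ) {E : ℝ} {q v : ℝ → Cfg N}
    {c τ : ℝ → ℝ} (h : Mot m E q v c τ) (Γ : E3 →L[ℝ] V) (hG : ∀ z, ‖Γ z‖ ≤ ‖z‖)
    (hD : 0 < dil m (pr Γ (q 0)) (pr Γ (v 0)))
    (hK : cstK N M θ * iner m (pr Γ (q 0)) < dil m (pr Γ (q 0)) (pr Γ (v 0)) ^ 4)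
    {s : ℝ} (hs : 0 ≤ s) :
    siz m (pr Γ (q 0)) + sizd m (pr Γ (q 0)) (pr Γ (v 0)) / 2 * τ s ≤ siz m (pr Γ (q s)) := by
  obtain ⟨σ, hσ, hσd⟩ := exists_inv h.τd h.cpos
  have hsol := sol_of_mot h Γ hG hσ hσd
  have hτ : τ 0 ≤ τ s := h.mono hs
  have hcont : Continuous τ := continuous_iff_continuousAt.2 fun s => (h.τd s).continuousAt
  have hJ : Icc (τ 0) (τ s) ⊆ range τ := by
    intro t ht
    obtain ⟨u, _, hu⟩ := intermediate_value_Icc hs hcont.continuousOn ht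
    exact ⟨u, hu⟩
  have h1 := escape_siz hms hsol hτ hJ (by simp only [hσ]; exact hD) (by simp only [hσ]; exact hK)
  simp only [hσ, h.τ0, sub_zero] at h1
  have h2 := hσ 0
  rw [h.τ0] at h2
  rw [h2] at h1
  exact h1

theorem exists_mass (m : Fin N → ℝ) (hm : ∀ i, 0 < m i) (hN : 0 < N) :
    ∃ μ M θ, Mass m μ M θ := by
  have : Nonempty (Fin N) := ⟨⟨0, hN⟩⟩
  obtain ⟨i₀, hi₀⟩ := Finite.exists_min m
  have hM : 0 < ∑ i, m i := Finset.sum_pos (fun i _ => hm i) Finset.univ_nonempty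
  refine ⟨m i₀, ∑ i, m i, max 1 (16 * (∑ i, m i) / m i₀), hm i₀, hi₀, le_rfl, hM, ?_,
    le_max_left _ _⟩
  rw [← div_le_iff₀ (hm i₀)]
  exact le_max_right _ _

/-- projected dilation of a phase point -/
noncomputable def Dl (m : Fin N → ℝ) (Γ : E3 →L[ℝ] V) (y : Cfg N × Cfg N) : ℝ :=
  dil m (pr Γ y.1) (pr Γ (vel m y))

/-- projected size of a phase point -/
noncomputable def Sz (m : Fin N → ℝ) (Γ : E3 →L[ℝ] V) (y : Cfg N × Cfg N) : ℝ :=
  siz m (pr Γ y.1)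

theorem pr_cont1 (Γ : E3 →L[ℝ] V) (i : Fin N) : Continuous fun y : Cfg N × Cfg N => pr Γ y.1 i :=
  Γ.continuous.comp ((continuous_apply i).comp continuous_fst)

theorem pr_cont2 (m : Fin N → ℝ) (Γ : E3 →L[ℝ] V) (i : Fin N) :
    Continuous fun y : Cfg N × Cfg N => pr Γ (vel m y) i :=
  Γ.continuous.comp (((continuous_apply i).comp continuous_snd).const_smul ((m i)⁻¹))

theorem Dl_cont (m : Fin N → ℝ) (Γ : E3 →L[ℝ] V) : Continuous (Dl m Γ) := by
  unfold Dl dil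
  exact continuous_finsetSum _ fun i _ =>
    continuous_const.mul ((pr_cont1 Γ i).inner (pr_cont2 m Γ i))

theorem In_cont (m : Fin N → ℝ) (Γ : E3 →L[ℝ] V) :
    Continuous fun y : Cfg N × Cfg N => iner m (pr Γ y.1) := by
  unfold iner
  exact continuous_finsetSum _ fun i _ => continuous_const.mul ((pr_cont1 Γ i).norm.pow 2)

theorem Sz_cont (m : Fin N → ℝ) (Γ : E3 →L[ℝ] V) : Continuous (Sz (N := N) m Γ) := by
  unfold Sz siz
  exact (In_cont m Γ).sqrt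

theorem pr_neg (Γ : E3 →L[ℝ] V) (v : Cfg N) :
    pr Γ (fun i => -v i) = fun i => -(pr Γ v i) := by
  funext i
  simp [pr]

theorem dil_neg (m : Fin N → ℝ) (x y : Fin N → V) :
    dil m x (fun i => -(y i)) = -dil m x y := by
  unfold dil
  rw [← Finset.sum_neg_distrib]
  refine Finset.sum_congr rfl fun i _ => ?_
  rw [inner_neg_right]
  ring

theorem sizd_gt {m : Fin N → ℝ} {x y : Fin N → V} {w : ℝ} (h0 : 0 < siz m x)
    (h : w * siz m x < dil m x y) : w < sizd m x y := by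
  unfold sizd
  rwa [lt_div_iff₀ h0]

/-- **Nonwandering points.** -/
theorem thin {m : Fin N → ℝ} {μ M θ : ℝ} (hms : Mass m μ M θ) (E : ℝ)
    (ψ : Cfg N × Cfg N → ℝ) (φ : ℝ → Cfg N × Cfg N → Cfg N × Cfg N) (hφ : IsFl m E ψ φ)
    (x : Cfg N × Cfg N) (hx : x ∈ Surf m E) (hNW : NonW (Surf m E) φ x)
    (Γ : E3 →L[ℝ] V) (hG : ∀ z, ‖Γ z‖ ≤ ‖z‖) :
    Dl m Γ x ^ 4 ≤ cstK N M θ * iner m (pr Γ x.1) := by
  by_contra hcon
  push Not at hcon
  have hmp := hms.pos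
  have hK := cstK_pos N M (θ := θ) (zero_le_one.trans hms.hθ1)
  obtain ⟨V1, hV1o, hxV1, s1, hs1, η, hη, hloc⟩ := Pool.Agent.Y275.NW.loc (Cfg N × Cfg N) (Free N)
    (Surf m E) (Z m ψ) ψ φ free_open (surf_free m E) (Z_cont m ψ hφ.cont) hφ.cont hφ.pos hφ.flow x
    (surf_free m E hx)
  have hD0 : Dl m Γ x ≠ 0 := by
    intro h0
    rw [h0] at hcon
    have := iner_nonneg hmp (pr Γ x.1)
    nlinarith
  have hSz : ∀ y : Cfg N × Cfg N, Dl m Γ y ≠ 0 → 0 < Sz m Γ y := by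
    intro y hy
    refine (siz_pos_iff m _).2 ?_
    have h1 := dil_sq_le hmp (pr Γ y.1) (pr Γ (vel m y))
    rcases (iner_nonneg hmp (pr Γ y.1)).eq_or_lt with h2 | h2
    · exfalso
      rw [← h2, zero_mul] at h1
      have h3 : 0 < dil m (pr Γ y.1) (pr Γ (vel m y)) ^ 2 := by
        have : dil m (pr Γ y.1) (pr Γ (vel m y)) ≠ 0 := hy
        positivity
      linarith
    · exact h2
  have hSx := hSz x hD0
  obtain ⟨w, hw⟩ : ∃ w, w = |Dl m Γ x| / (2 * Sz m Γ x) := ⟨_, rfl⟩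
  have hw0 : 0 < w := by
    rw [hw]
    have := abs_pos.2 hD0
    positivity
  have hwx : w * Sz m Γ x < |Dl m Γ x| := by
    rw [hw]
    have h1 : |Dl m Γ x| / (2 * Sz m Γ x) * Sz m Γ x = |Dl m Γ x| / 2 := by
      field_simp
    rw [h1]
    have := abs_pos.2 hD0
    linarith
  -- growth
  have hgrow : ∀ (q v : ℝ → Cfg N) (c τ : ℝ → ℝ), Mot m E q v c τ →
      cstK N M θ * iner m (pr Γ (q 0)) < dil m (pr Γ (q 0)) (pr Γ (v 0)) ^ 4 →
      0 < dil m (pr Γ (q 0)) (pr Γ (v 0)) →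
      w * siz m (pr Γ (q 0)) < dil m (pr Γ (q 0)) (pr Γ (v 0)) →
      ∀ t, 0 ≤ t → η ≤ τ t → w / 2 * η + siz m (pr Γ (q 0)) ≤ siz m (pr Γ (q t)) := by
    intro q v c τ hmot h1 h2 h3 t ht hηt
    have h4 := mot_escape hms hmot Γ hG h2 h1 ht
    have h5 : 0 < siz m (pr Γ (q 0)) := by
      refine (siz_pos_iff m _).2 ?_
      have h6 := dil_sq_le hmp (pr Γ (q 0)) (pr Γ (v 0))
      rcases (iner_nonneg hmp (pr Γ (q 0))).eq_or_lt with h7 | h7
      · exfalso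
        rw [← h7, zero_mul] at h6
        nlinarith
      · exact h7
    have h6 := sizd_gt h5 h3
    have h7 : w / 2 * η ≤ sizd m (pr Γ (q 0)) (pr Γ (v 0)) / 2 * τ t := by
      refine mul_le_mul (by linarith) hηt hη.le (by linarith)
    linarith
  let κ := w / 2 * η
  have hκ : 0 < κ := by positivity
  let U1 : Set (Cfg N × Cfg N) := {y | cstK N M θ * iner m (pr Γ y.1) < Dl m Γ y ^ 4}
  let U2 : Set (Cfg N × Cfg N) := {y | |Sz m Γ y - Sz m Γ x| < κ / 2}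
  have hU1 : IsOpen U1 := isOpen_lt (continuous_const.mul (In_cont m Γ)) ((Dl_cont m Γ).pow 4)
  have hU2 : IsOpen U2 := isOpen_lt (((Sz_cont m Γ).sub continuous_const).abs) continuous_const
  have hxU2 : x ∈ U2 := by
    show |Sz m Γ x - Sz m Γ x| < κ / 2
    rw [sub_self, abs_zero]
    positivity
  rcases lt_or_gt_of_ne hD0 with hneg | hpos
  · -- contraction: use the reversed motion
    let U3 : Set (Cfg N × Cfg N) := {y | w * Sz m Γ y < -Dl m Γ y}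
    have hU3 : IsOpen U3 := isOpen_lt (continuous_const.mul (Sz_cont m Γ)) (Dl_cont m Γ).neg
    have hxU3 : x ∈ U3 := by
      show w * Sz m Γ x < -Dl m Γ x
      rwa [abs_of_neg hneg] at hwx
    obtain ⟨t, ht, y, ⟨hyV, hyS⟩, hφy⟩ := hNW (U1 ∩ U2 ∩ U3 ∩ V1)
      (((hU1.inter hU2).inter hU3).inter hV1o) ⟨⟨⟨hcon, hxU2⟩, hxU3⟩, hxV1⟩ s1
    have ht0 : 0 ≤ t := hs1.le.trans ht.le
    obtain ⟨τ, hmot⟩ := mot_of_flow m hmp E ψ φ hφ y hyS
    have hηt := hloc y ⟨hyV.2, hyS⟩ τ hmot.τ0 hmot.τd t ht.le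
    have h0 : φ 0 y = y := (hφ.flow y hyS).1
    have hrev := Pool.Agent.N775.NW.mot_rev hmot t
    have h3 : w * Sz m Γ (φ t y) < -Dl m Γ (φ t y) := hφy.1.2
    have h4 : 0 < -Dl m Γ (φ t y) := by
      have : 0 ≤ Sz m Γ (φ t y) := siz_nonneg _ _
      nlinarith
    have e1 : dil m (pr Γ (φ (t - 0) y).1) (pr Γ fun i => -vel m (φ (t - 0) y) i) =
        -Dl m Γ (φ t y) := by
      rw [pr_neg, dil_neg, sub_zero]
      rfl
    have h5 := hgrow _ _ _ _ hrev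
      (by
        rw [e1]
        have h6 : cstK N M θ * iner m (pr Γ (φ t y).1) < Dl m Γ (φ t y) ^ 4 := hφy.1.1.1
        rw [neg_pow, sub_zero]
        norm_num
        exact h6)
      (by rw [e1]; exact h4)
      (by rw [e1, sub_zero]; exact h3) t ht0 (by rw [sub_self, hmot.τ0, sub_zero]; exact hηt)
    simp only [sub_self, sub_zero, h0] at h5
    have h6 : |Sz m Γ y - Sz m Γ x| < κ / 2 := hyV.1.1.2
    have h7 : |Sz m Γ (φ t y) - Sz m Γ x| < κ / 2 := hφy.1.1.2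
    have h8 : κ + Sz m Γ (φ t y) ≤ Sz m Γ y := h5
    rw [abs_lt] at h6 h7
    linarith [h6.1, h6.2, h7.1, h7.2]
  · let U3 : Set (Cfg N × Cfg N) := {y | w * Sz m Γ y < Dl m Γ y}
    have hU3 : IsOpen U3 := isOpen_lt (continuous_const.mul (Sz_cont m Γ)) (Dl_cont m Γ)
    have hxU3 : x ∈ U3 := by
      show w * Sz m Γ x < Dl m Γ x
      rwa [abs_of_pos hpos] at hwx
    obtain ⟨t, ht, y, ⟨hyV, hyS⟩, hφy⟩ := hNW (U1 ∩ U2 ∩ U3 ∩ V1)
      (((hU1.inter hU2).inter hU3).inter hV1o) ⟨⟨⟨hcon, hxU2⟩, hxU3⟩, hxV1⟩ s1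
    have ht0 : 0 ≤ t := hs1.le.trans ht.le
    obtain ⟨τ, hmot⟩ := mot_of_flow m hmp E ψ φ hφ y hyS
    have hηt := hloc y ⟨hyV.2, hyS⟩ τ hmot.τ0 hmot.τd t ht.le
    have h0 : φ 0 y = y := (hφ.flow y hyS).1
    have h3 : w * Sz m Γ y < Dl m Γ y := hyV.1.2
    have h4 : 0 < Dl m Γ y := by
      have : 0 ≤ Sz m Γ y := siz_nonneg _ _
      nlinarith
    have h5 := hgrow _ _ _ _ hmot
      (by rw [h0]; exact hyV.1.1.1) (by rw [h0]; exact h4) (by rw [h0]; exact h3) t ht0 hηt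
    simp only [h0] at h5
    have h6 : |Sz m Γ y - Sz m Γ x| < κ / 2 := hyV.1.1.2
    have h7 : |Sz m Γ (φ t y) - Sz m Γ x| < κ / 2 := hφy.1.1.2
    have h8 : κ + Sz m Γ y ≤ Sz m Γ (φ t y) := h5
    rw [abs_lt] at h6 h7
    linarith [h6.1, h6.2, h7.1, h7.2]

end Pool.Agent.K6.H53.NB
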