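import Pool.Agent.K6.H53.NB.Tele

set_option autoImplicit false
set_option linter.unusedSectionVars false

/-!
# A strongly convex function along motions with large angular momentum
-/

namespace Pool.Agent.K6.H53.NB

open Finset Set Filter Topology

variable {N : ℕ} {V : Type*} [NormedAddCommGroup V] [InnerProductSpace ℝ V]

/-- size of the clusters' centres at scale `δ` -/
noncomputable def Gn (m : Fin N → ℝ) (θ δ : ℝ) (A : Fin N → Fin N) (x : Fin N → V) : ℝ :=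
  Real.sqrt (Fn m θ δ A x)

/-- dilation of the clusters' centres -/
noncomputable def Pn (m : Fin N → ℝ) (A : Fin N → Fin N) (x y : Fin N → V) : ℝ :=
  dil m (cmean m A x) (cmean m A y)

/-- derivative of `Gn` -/
noncomputable def gn (m : Fin N → ℝ) (θ δ : ℝ) (A : Fin N → Fin N) (x y : Fin N → V) : ℝ :=
  Pn m A x y / Gn m θ δ A x

/-- derivative of `Pn` -/
noncomputable def Pn' (m : Fin N → ℝ) (A : Fin N → Fin N) (k : Fin N → Fin N → ℝ)
    (x y : Fin N → V) : ℝ :=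
  dil m (cmean m A x) (cmean m A (accel m k x)) + dil m (cmean m A y) (cmean m A y)

/-- derivative of `gn` -/
noncomputable def gn' (m : Fin N → ℝ) (θ δ : ℝ) (A : Fin N → Fin N) (k : Fin N → Fin N → ℝ)
    (x y : Fin N → V) : ℝ :=
  (Pn' m A k x y * Gn m θ δ A x - Pn m A x y * gn m θ δ A x y) / Gn m θ δ A x ^ 2

theorem Gn_hasDerivAt {m : Fin N → ℝ} {J : Set ℝ} {x y : ℝ → Fin N → V}
    {k : ℝ → Fin N → Fin N → ℝ} (hs : Sol m J x y k) (θ δ : ℝ) (A : Fin N → Fin N) {t : ℝ}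
    (ht : t ∈ J) (hF : 0 < Fn m θ δ A (x t)) :
    HasDerivAt (fun s => Gn m θ δ A (x s)) (gn m θ δ A (x t) (y t)) t := by
  have h1 := iner_hasDerivAt m (fun s => cmean m A (x s)) (cmean m A (y t)) t
    (cmean_hasDerivAt m A x (y t) t (hs.xd t ht))
  have h2 : HasDerivAt (fun s => Fn m θ δ A (x s)) (2 * Pn m A (x t) (y t)) t := h1.add_const _
  refine (h2.sqrt hF.ne').congr_deriv ?_
  have : Real.sqrt (Fn m θ δ A (x t)) ≠ 0 := (Real.sqrt_pos.2 hF).ne'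
  unfold gn Gn
  field_simp

theorem gn_hasDerivAt {m : Fin N → ℝ} {J : Set ℝ} {x y : ℝ → Fin N → V}
    {k : ℝ → Fin N → Fin N → ℝ} (hs : Sol m J x y k) (θ δ : ℝ) (A : Fin N → Fin N) {t : ℝ}
    (ht : t ∈ J) (hF : 0 < Fn m θ δ A (x t)) :
    HasDerivAt (fun s => gn m θ δ A (x s) (y s)) (gn' m θ δ A (k t) (x t) (y t)) t := by
  have h1 : HasDerivAt (fun s => Pn m A (x s) (y s)) (Pn' m A (k t) (x t) (y t)) t :=
    dil_hasDerivAt m (fun s => cmean m A (x s)) (fun s => cmean m A (y s)) _ _ t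
      (cmean_hasDerivAt m A x (y t) t (hs.xd t ht))
      (cmean_hasDerivAt m A y _ t (hs.yd t ht))
  exact h1.div (Gn_hasDerivAt hs θ δ A ht hF) (Real.sqrt_pos.2 hF).ne'

/-- lower bound of the second derivative at an active partition -/
theorem gn'_ge {m : Fin N → ℝ} {μ M θ : ℝ} (hms : Mass m μ M θ) {δ : ℝ} (hδ : 0 < δ)
    (A : Fin N → Fin N) (x y : Fin N → V) (hmax : ∀ B, Fn m θ δ B x ≤ Fn m θ δ A x)
    (hF : 0 < Fn m θ δ A x)
    (k : Fin N → Fin N → ℝ) (ks : ∀ i j, k i j = k j i) (k0 : ∀ i j, 0 ≤ k i j)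
    (k1 : ∀ i j, k i j * ‖x i - x j‖ ^ 3 ≤ 1) :
    (Mp m θ δ A x y - cstA M / δ) / Gn m θ δ A x ≤ gn' m θ δ A k x y := by
  have hG : 0 < Gn m θ δ A x := Real.sqrt_pos.2 hF
  have hG2 : Gn m θ δ A x ^ 2 = Fn m θ δ A x := Real.sq_sqrt hF.le
  have hW := force_ge hms.μ0 hms.hm hms.hM hms.M0 hms.hθ hms.hθ1 hδ A x hmax k ks k0 k1
  have hW2 : dil m (cmean m A x) (cmean m A (accel m k x)) =
      dil m (cmean m A x) (accel m k x) := by
    rw [dil_comm, dil_comm m (cmean m A x) (accel m k x)]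
    exact cmean_inner hms.pos A _ _ fun i j h => cmean_congr m A _ h
  have e1 : gn' m θ δ A k x y = (Pn' m A k x y - Pn m A x y ^ 2 / Fn m θ δ A x) /
      Gn m θ δ A x := by
    unfold gn' gn
    rw [← hG2]
    field_simp
  rw [e1]
  refine div_le_div_of_nonneg_right ?_ hG.le
  unfold Mp Pn' Pn
  rw [hW2, dil_self]
  have : cstA M / δ = 2 * M ^ 2 * Real.sqrt M / δ := rfl
  linarith

theorem dil_add_right (m : Fin N → ℝ) (x y z : Fin N → V) :
    dil m x (fun i => y i + z i) = dil m x y + dil m x z := by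
  unfold dil
  rw [← Finset.sum_add_distrib]
  refine Finset.sum_congr rfl fun i _ => ?_
  rw [inner_add_right]
  ring

theorem iner_add (m : Fin N → ℝ) (x y : Fin N → V) :
    iner m (fun i => x i + y i) = iner m x + 2 * dil m x y + iner m y := by
  unfold iner dil
  rw [Finset.mul_sum, ← Finset.sum_add_distrib, ← Finset.sum_add_distrib]
  refine Finset.sum_congr rfl fun i _ => ?_
  rw [norm_add_sq_real]
  ring

theorem cmean_sub (m : Fin N → ℝ) (A : Fin N → Fin N) (x y : Fin N → V) :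
    cmean m A (fun i => x i - y i) = fun i => cmean m A x i - cmean m A y i := by
  funext i
  unfold cmean
  rw [← smul_sub, ← Finset.sum_sub_distrib]
  congr 1
  refine Finset.sum_congr rfl fun j _ => ?_
  split_ifs
  · rw [smul_sub]
  · simp

/-- Lipschitz continuity of the size of the clusters' centres -/
theorem Gn_lip {m : Fin N → ℝ} (hm : ∀ i, 0 < m i) {θ : ℝ} (hθ : 0 ≤ θ) (δ : ℝ)
    (A : Fin N → Fin N) (x x' : Fin N → V) :
    Gn m θ δ A x ≤ Gn m θ δ A x' + siz m (fun i => x i - x' i) := by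
  have hs := siz_nonneg m (fun i => x i - x' i)
  have hpen : 0 ≤ pen θ A * δ ^ 2 := mul_nonneg (pen_nonneg hθ A) (sq_nonneg δ)
  have h0' : 0 ≤ Fn m θ δ A x' := by
    unfold Fn
    have := iner_nonneg hm (cmean m A x')
    linarith
  have hG := Real.sqrt_nonneg (Fn m θ δ A x')
  unfold Gn
  rw [Real.sqrt_le_left (by linarith)]
  have h1 : Fn m θ δ A x = Fn m θ δ A x' + 2 * dil m (cmean m A x')
      (cmean m A fun i => x i - x' i) + iner m (cmean m A fun i => x i - x' i) := by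
    have e : cmean m A x = fun i => cmean m A x' i + cmean m A (fun i => x i - x' i) i := by
      rw [cmean_sub]
      funext i
      exact (add_sub_cancel (cmean m A x' i) (cmean m A x i)).symm
    unfold Fn
    rw [e, iner_add]
    ring
  have h2 : |dil m (cmean m A x') (cmean m A fun i => x i - x' i)| ≤
      Real.sqrt (Fn m θ δ A x') * siz m (fun i => x i - x' i) := by
    refine (abs_dil_le hm _ _).trans ?_
    refine mul_le_mul (Real.sqrt_le_sqrt ?_) (Real.sqrt_le_sqrt (iner_cmean_le hm A _))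
      (siz_nonneg _ _) hG
    unfold Fn
    linarith
  have h3 := iner_cmean_le hm A (fun i => x i - x' i)
  have h4 := siz_sq hm (fun i => x i - x' i)
  have h5 := Real.sq_sqrt h0'
  have h6 := le_abs_self (dil m (cmean m A x') (cmean m A fun i => x i - x' i))
  rw [h1]
  nlinarith

/-- the maximum over the partitions -/
noncomputable def GG (m : Fin N → ℝ) (θ δ : ℝ) (x : Fin N → V) : ℝ :=
  Finset.univ.sup' ⟨id, Finset.mem_univ _⟩ fun A => Gn m θ δ A x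

theorem Gn_le_GG (m : Fin N → ℝ) (θ δ : ℝ) (A : Fin N → Fin N) (x : Fin N → V) :
    Gn m θ δ A x ≤ GG m θ δ x :=
  Finset.le_sup' (fun A => Gn m θ δ A x) (Finset.mem_univ A)

theorem GG_le {m : Fin N → ℝ} {θ δ : ℝ} {x : Fin N → V} {c : ℝ}
    (h : ∀ A, Gn m θ δ A x ≤ c) : GG m θ δ x ≤ c :=
  Finset.sup'_le _ _ fun A _ => h A

theorem exists_GG (m : Fin N → ℝ) (θ δ : ℝ) (x : Fin N → V) :
    ∃ A, GG m θ δ x = Gn m θ δ A x := by
  obtain ⟨A, -, hA⟩ := Finset.exists_mem_eq_sup' (s := (Finset.univ : Finset (Fin N → Fin N)))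
    ⟨id, Finset.mem_univ _⟩ (fun A => Gn m θ δ A x)
  exact ⟨A, hA⟩

theorem GG_lip {m : Fin N → ℝ} (hm : ∀ i, 0 < m i) {θ : ℝ} (hθ : 0 ≤ θ) (δ : ℝ)
    (x x' : Fin N → V) :
    GG m θ δ x ≤ GG m θ δ x' + siz m (fun i => x i - x' i) :=
  GG_le fun A => (Gn_lip hm hθ δ A x x').trans (add_le_add (Gn_le_GG m θ δ A x') le_rfl)

theorem GG_nonneg (m : Fin N → ℝ) (θ δ : ℝ) (x : Fin N → V) : 0 ≤ GG m θ δ x :=
  (Real.sqrt_nonneg _).trans (Gn_le_GG m θ δ id x)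

theorem siz_le_Gn {m : Fin N → ℝ} (hm : ∀ i, 0 < m i) {θ δ : ℝ} (A : Fin N → Fin N)
    (x : Fin N → V) (hmax : ∀ B, Fn m θ δ B x ≤ Fn m θ δ A x) : siz m x ≤ Gn m θ δ A x := by
  have h := hmax id
  rw [Fn_id hm] at h
  exact Real.sqrt_le_sqrt h

theorem Gn_le_of {m : Fin N → ℝ} (hm : ∀ i, 0 < m i) {θ : ℝ} (hθ : 0 ≤ θ) {δ σ : ℝ}
    (hδ0 : 0 ≤ δ) (hδ : δ ≤ σ ^ 2) (A : Fin N → Fin N) (x : Fin N → V)
    (hx : siz m x ≤ 2 * σ ^ 2) : Gn m θ δ A x ≤ (2 + nuc N θ) * σ ^ 2 := by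
  have hν := nuc_nonneg N hθ
  unfold Gn
  rw [Real.sqrt_le_left (by positivity)]
  have h1 := Fn_le hm hθ δ A x
  have h2 : iner m x ≤ (2 * σ ^ 2) ^ 2 := by
    rw [← siz_sq hm]
    exact pow_le_pow_left₀ (siz_nonneg _ _) hx 2
  have h3 : nuc N θ * δ ^ 2 ≤ nuc N θ * (σ ^ 2) ^ 2 :=
    mul_le_mul_of_nonneg_left (pow_le_pow_left₀ hδ0 hδ 2) hν
  have h4 : Fn m θ δ A x ≤ (4 + nuc N θ) * (σ ^ 2) ^ 2 := by
    unfold nuc at h3 ⊢
    nlinarith
  refine h4.trans ?_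
  rw [mul_pow]
  refine mul_le_mul_of_nonneg_right ?_ (by positivity)
  nlinarith

/-- the function -/
noncomputable def Phi (m : Fin N → ℝ) (θ κ σ : ℝ) (K : ℕ) (x : Fin N → V) : ℝ :=
  ∑ k ∈ range (K + 1), (σ * κ ^ k) ^ 3 * GG m θ ((σ * κ ^ k) ^ 2) x

theorem cube_sum {κ σ : ℝ} (hκ0 : 0 < κ) (hκ1 : κ < 1) (hσ : 0 < σ) (K : ℕ) :
    ∑ k ∈ range (K + 1), (σ * κ ^ k) ^ 3 ≤ σ ^ 3 * (1 - κ)⁻¹ := by
  calc ∑ k ∈ range (K + 1), (σ * κ ^ k) ^ 3 ≤ ∑ k ∈ range (K + 1), σ ^ 3 * κ ^ k := by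
        refine Finset.sum_le_sum fun k _ => ?_
        rw [mul_pow]
        refine mul_le_mul_of_nonneg_left ?_ (by positivity)
        have h1 : κ ^ k ≤ 1 := pow_le_one₀ hκ0.le hκ1.le
        have h0 : 0 ≤ κ ^ k := by positivity
        have := pow_le_pow_of_le_one h0 h1 (show 1 ≤ 3 by norm_num)
        simpa using this
    _ = σ ^ 3 * ∑ k ∈ range (K + 1), κ ^ k := by rw [Finset.mul_sum]
    _ ≤ _ := mul_le_mul_of_nonneg_left (geom_le hκ0.le hκ1 _) (by positivity)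

theorem Phi_nonneg (m : Fin N → ℝ) (θ κ σ : ℝ) (hκ0 : 0 < κ) (hσ : 0 < σ) (K : ℕ)
    (x : Fin N → V) : 0 ≤ Phi m θ κ σ K x :=
  Finset.sum_nonneg fun k _ => mul_nonneg (by positivity) (GG_nonneg _ _ _ _)

theorem Phi_le {m : Fin N → ℝ} (hm : ∀ i, 0 < m i) {θ : ℝ} (hθ : 0 ≤ θ) {κ σ : ℝ}
    (hκ0 : 0 < κ) (hκ1 : κ < 1) (hσ : 0 < σ) (K : ℕ) (x : Fin N → V)
    (hx : siz m x ≤ 2 * σ ^ 2) :
    Phi m θ κ σ K x ≤ (2 + nuc N θ) * (1 - κ)⁻¹ * σ ^ 5 := by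
  have hν := nuc_nonneg N hθ
  have h1 : Phi m θ κ σ K x ≤
      ∑ k ∈ range (K + 1), (σ * κ ^ k) ^ 3 * ((2 + nuc N θ) * σ ^ 2) := by
    refine Finset.sum_le_sum fun k _ => mul_le_mul_of_nonneg_left ?_ (by positivity)
    refine GG_le fun A => Gn_le_of hm hθ (sq_nonneg _) ?_ A x hx
    rw [mul_pow]
    have h1 : κ ^ k ≤ 1 := pow_le_one₀ hκ0.le hκ1.le
    have h0 : 0 ≤ κ ^ k := by positivity
    have h2 : (κ ^ k) ^ 2 ≤ 1 := pow_le_one₀ h0 h1
    nlinarith [sq_nonneg σ]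
  refine h1.trans ?_
  rw [← Finset.sum_mul]
  have h2 := mul_le_mul_of_nonneg_right (cube_sum hκ0 hκ1 hσ K)
    (by positivity : 0 ≤ (2 + nuc N θ) * σ ^ 2)
  refine h2.trans (le_of_eq (by ring))

theorem Phi_lip {m : Fin N → ℝ} (hm : ∀ i, 0 < m i) {θ : ℝ} (hθ : 0 ≤ θ) {κ σ : ℝ}
    (hκ0 : 0 < κ) (hκ1 : κ < 1) (hσ : 0 < σ) (K : ℕ) (x x' : Fin N → V) :
    Phi m θ κ σ K x - Phi m θ κ σ K x' ≤ σ ^ 3 * (1 - κ)⁻¹ * siz m (fun i => x i - x' i) := by
  unfold Phi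
  rw [← Finset.sum_sub_distrib]
  have h1 : ∑ k ∈ range (K + 1), ((σ * κ ^ k) ^ 3 * GG m θ ((σ * κ ^ k) ^ 2) x -
      (σ * κ ^ k) ^ 3 * GG m θ ((σ * κ ^ k) ^ 2) x') ≤
      ∑ k ∈ range (K + 1), (σ * κ ^ k) ^ 3 * siz m (fun i => x i - x' i) := by
    refine Finset.sum_le_sum fun k _ => ?_
    rw [← mul_sub]
    refine mul_le_mul_of_nonneg_left ?_ (by positivity)
    have := GG_lip hm hθ ((σ * κ ^ k) ^ 2) x x'
    linarith
  refine h1.trans ?_
  rw [← Finset.sum_mul]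
  exact mul_le_mul_of_nonneg_right (cube_sum hκ0 hκ1 hσ K) (siz_nonneg _ _)

end Pool.Agent.K6.H53.NB
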