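import Pool.Agent.K6.H53.NB.Ang

set_option autoImplicit false
set_option linter.unusedSectionVars false

/-!
# Angular momentum: sum over the scales
-/

namespace Pool.Agent.K6.H53.NB

open Finset Set Filter Topology

variable {N : ℕ} {V : Type*} [NormedAddCommGroup V] [InnerProductSpace ℝ V]

theorem siz_sq {m : Fin N → ℝ} (hm : ∀ i, 0 < m i) (x : Fin N → V) : siz m x ^ 2 = iner m x :=
  Real.sq_sqrt (iner_nonneg hm x)

theorem abs_om_le {m : Fin N → ℝ} (hm : ∀ i, 0 < m i) {Jo : V →L[ℝ] V} (hJ : Skew Jo)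
    (x y : Fin N → V) : |om m Jo x y| ≤ siz m x * siz m y := by
  refine abs_le_of_sq_le_sq ?_ (mul_nonneg (siz_nonneg m x) (siz_nonneg m y))
  rw [mul_pow, siz_sq hm, siz_sq hm]
  exact om_sq_le hm hJ x y

theorem abs_dil_le {m : Fin N → ℝ} (hm : ∀ i, 0 < m i)
    (x y : Fin N → V) : |dil m x y| ≤ siz m x * siz m y := by
  refine abs_le_of_sq_le_sq ?_ (mul_nonneg (siz_nonneg m x) (siz_nonneg m y))
  rw [mul_pow, siz_sq hm, siz_sq hm]
  exact dil_sq_le hm x y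

theorem siz_le_of {m : Fin N → ℝ} {x : Fin N → V} {c d : ℝ} (hc : 0 ≤ c) (hd : 0 ≤ d)
    (h : iner m x ≤ c * d ^ 2) : siz m x ≤ Real.sqrt c * d := by
  unfold siz
  rw [Real.sqrt_le_left (by positivity), mul_pow, Real.sq_sqrt hc]
  exact h

/-- partial sums over the scales -/
theorem tele_aux {m : Fin N → ℝ} {μ M θ : ℝ} (hms : Mass m μ M θ) {Jo : V →L[ℝ] V}
    (hJ : Skew Jo) (δ : ℕ → ℝ) (hδ : ∀ k, 0 ≤ δ k)
    (hn : ∀ k, 8 * M * nuc N θ * δ (k + 1) ^ 2 < μ * δ k ^ 2) (x y : Fin N → V)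
    (A : ℕ → Fin N → Fin N) (K : ℕ)
    (hact : ∀ k ≤ K, ∀ B, Fn m θ (δ k) B x ≤ Fn m θ (δ k) (A k) x) :
    ∀ n ≤ K, |om m Jo (cmean m (A n) x) (cmean m (A n) y)| ≤
      siz m x * Real.sqrt (Mp m θ (δ 0) (A 0) x y) +
        ∑ k ∈ range n, Real.sqrt (nuc N θ) * δ k * Real.sqrt (Mp m θ (δ (k + 1)) (A (k + 1)) x y) := by
  have hθ0 : 0 ≤ θ := zero_le_one.trans hms.hθ1
  have hp := hms.pos
  have hMp : ∀ k, siz m (fun i => cmean m (A k) y i -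
      (dil m (cmean m (A k) x) (cmean m (A k) y) / Fn m θ (δ k) (A k) x) • cmean m (A k) x i) ≤
      Real.sqrt (Mp m θ (δ k) (A k) x y) := fun k =>
    Real.sqrt_le_sqrt (iner_le_Mp hp hθ0 (A k) x y)
  intro n
  induction n with
  | zero =>
    intro _
    simp only [Finset.range_zero, Finset.sum_empty, add_zero]
    rw [om_first hJ (A 0) x y
      (dil m (cmean m (A 0) x) (cmean m (A 0) y) / Fn m θ (δ 0) (A 0) x)]
    refine (abs_om_le hp hJ _ _).trans ?_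
    refine mul_le_mul ?_ (hMp 0) (siz_nonneg _ _) (siz_nonneg _ _)
    exact Real.sqrt_le_sqrt (iner_cmean_le hp (A 0) x)
  | succ n ih =>
    intro hnK
    have h1 := ih (by omega)
    rw [Finset.sum_range_succ, ← add_assoc]
    rw [om_step hp hJ (A n) (A (n + 1))
      (fun i j h => nested hms (hn n) (A n) (A (n + 1)) x (hact n (by omega))
        (hact (n + 1) hnK) i j h) x y
      (dil m (cmean m (A (n + 1)) x) (cmean m (A (n + 1)) y) /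
        Fn m θ (δ (n + 1)) (A (n + 1)) x)]
    refine (abs_add_le _ _).trans (add_le_add h1 ((abs_om_le hp hJ _ _).trans ?_))
    refine mul_le_mul ?_ (hMp (n + 1)) (siz_nonneg _ _)
      (mul_nonneg (Real.sqrt_nonneg _) (hδ n))
    exact siz_le_of (nuc_nonneg N hθ0) (hδ n) (small hp hθ0 (A n) x (hact n (by omega)))

/-- sum over the scales -/
theorem tele {m : Fin N → ℝ} {μ M θ : ℝ} (hms : Mass m μ M θ) {Jo : V →L[ℝ] V}
    (hJ : Skew Jo) (δ : ℕ → ℝ) (hδ : ∀ k, 0 ≤ δ k)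
    (hn : ∀ k, 8 * M * nuc N θ * δ (k + 1) ^ 2 < μ * δ k ^ 2) (x y : Fin N → V)
    (A : ℕ → Fin N → Fin N) (K : ℕ)
    (hact : ∀ k ≤ K, ∀ B, Fn m θ (δ k) B x ≤ Fn m θ (δ k) (A k) x) :
    |om m Jo x y| ≤ siz m x * Real.sqrt (Mp m θ (δ 0) (A 0) x y) +
        ∑ k ∈ range K, Real.sqrt (nuc N θ) * δ k * Real.sqrt (Mp m θ (δ (k + 1)) (A (k + 1)) x y) +
        Real.sqrt (nuc N θ) * δ K * siz m y := by
  have hθ0 : 0 ≤ θ := zero_le_one.trans hms.hθ1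
  have hp := hms.pos
  rw [om_last hp (A K) x y]
  refine (abs_add_le _ _).trans (add_le_add
    (tele_aux hms hJ δ hδ hn x y A K hact K le_rfl) ((abs_om_le hp hJ _ _).trans ?_))
  refine mul_le_mul_of_nonneg_right ?_ (siz_nonneg _ _)
  exact siz_le_of (nuc_nonneg N hθ0) (hδ K) (small hp hθ0 (A K) x (hact K le_rfl))

theorem geom_le {κ : ℝ} (h0 : 0 ≤ κ) (h1 : κ < 1) (n : ℕ) :
    ∑ k ∈ range n, κ ^ k ≤ (1 - κ)⁻¹ := by
  have h := mul_neg_geom_sum κ n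
  have h2 : 0 < 1 - κ := by linarith
  rw [← one_div, le_div_iff₀ h2, mul_comm, h]
  have : 0 ≤ κ ^ n := pow_nonneg h0 n
  linarith

/-- sum over the scales, with weights: `δ_k = (σ κ ^ k) ^ 2` -/
theorem tele_sq {m : Fin N → ℝ} {μ M θ : ℝ} (hms : Mass m μ M θ) {Jo : V →L[ℝ] V}
    (hJ : Skew Jo) {κ σ : ℝ} (hκ0 : 0 < κ) (hκ1 : κ < 1) (hκ : 8 * M * nuc N θ * κ < μ)
    (hσ : 0 < σ) (x y : Fin N → V) (hx : siz m x ≤ 2 * σ ^ 2)
    (A : ℕ → Fin N → Fin N) (K : ℕ)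
    (hact : ∀ k ≤ K, ∀ B, Fn m θ ((σ * κ ^ k) ^ 2) B x ≤ Fn m θ ((σ * κ ^ k) ^ 2) (A k) x)
    (hK : 2 * (Real.sqrt (nuc N θ) * (σ * κ ^ K) ^ 2 * siz m y) ≤ |om m Jo x y|) :
    om m Jo x y ^ 2 ≤ 4 * (2 + Real.sqrt (nuc N θ) / κ ^ 2) ^ 2 * (σ * (1 - κ)⁻¹) *
      ∑ k ∈ range (K + 1), (σ * κ ^ k) ^ 3 * Mp m θ ((σ * κ ^ k) ^ 2) (A k) x y := by
  have hθ0 : 0 ≤ θ := zero_le_one.trans hms.hθ1
  have hp := hms.pos
  have hν := nuc_nonneg N hθ0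
  have hM0 := hms.M0
  have hμ0 := hms.μ0
  obtain ⟨C, hC⟩ : ∃ C, C = 2 + Real.sqrt (nuc N θ) / κ ^ 2 := ⟨_, rfl⟩
  have hsν := Real.sqrt_nonneg (nuc N θ)
  have hC2 : 2 ≤ C := by
    rw [hC]
    have : 0 ≤ Real.sqrt (nuc N θ) / κ ^ 2 := by positivity
    linarith
  obtain ⟨s, hs⟩ : ∃ s : ℕ → ℝ, s = fun k => σ * κ ^ k := ⟨_, rfl⟩
  have hs0 : ∀ k, 0 < s k := fun k => by rw [hs]; positivity
  have hκ4 : κ ^ 4 ≤ κ := by
    have := pow_le_pow_of_le_one hκ0.le hκ1.le (show 1 ≤ 4 by norm_num)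
    simpa using this
  have hn : ∀ k, 8 * M * nuc N θ * (s (k + 1) ^ 2) ^ 2 < μ * (s k ^ 2) ^ 2 := by
    intro k
    have e : (s (k + 1) ^ 2) ^ 2 = κ ^ 4 * (s k ^ 2) ^ 2 := by
      rw [hs]
      simp only
      rw [pow_succ]
      ring
    rw [e]
    have h1 : 0 < (s k ^ 2) ^ 2 := by
      have := hs0 k
      positivity
    have h2 : 8 * M * nuc N θ * κ ^ 4 < μ :=
      (mul_le_mul_of_nonneg_left hκ4 (by positivity)).trans_lt hκ
    nlinarith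
  have hact' : ∀ k ≤ K, ∀ B, Fn m θ (s k ^ 2) B x ≤ Fn m θ (s k ^ 2) (A k) x := by
    rw [hs]
    exact hact
  have h1 := tele hms hJ (fun k => s k ^ 2) (fun k => sq_nonneg _) hn x y A K hact'
  obtain ⟨T, hT⟩ : ∃ T : ℕ → ℝ, T = fun k => Mp m θ (s k ^ 2) (A k) x y := ⟨_, rfl⟩
  have hT0 : ∀ k, 0 ≤ T k := fun k => by rw [hT]; exact Mp_nonneg hp hθ0 _ _ _
  have h2 : siz m x * Real.sqrt (Mp m θ (s 0 ^ 2) (A 0) x y) +
        ∑ k ∈ range K, Real.sqrt (nuc N θ) * s k ^ 2 *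
          Real.sqrt (Mp m θ (s (k + 1) ^ 2) (A (k + 1)) x y) ≤
      C * ∑ k ∈ range (K + 1), s k ^ 2 * Real.sqrt (T k) := by
    rw [Finset.sum_range_succ', mul_add, add_comm, Finset.mul_sum]
    refine add_le_add (Finset.sum_le_sum fun k _ => ?_) ?_
    · rw [← mul_assoc]
      have e : s (k + 1) ^ 2 = κ ^ 2 * s k ^ 2 := by
        rw [hs]
        simp only
        rw [pow_succ]
        ring
      rw [hT]
      simp only
      refine mul_le_mul_of_nonneg_right ?_ (Real.sqrt_nonneg _)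
      rw [e, hC]
      have h3 : (2 + Real.sqrt (nuc N θ) / κ ^ 2) * (κ ^ 2 * s k ^ 2) =
          2 * (κ ^ 2 * s k ^ 2) + Real.sqrt (nuc N θ) * s k ^ 2 := by
        field_simp
      rw [h3]
      have : 0 ≤ 2 * (κ ^ 2 * s k ^ 2) := by positivity
      linarith
    · rw [hT, ← mul_assoc]
      simp only
      refine mul_le_mul_of_nonneg_right ?_ (Real.sqrt_nonneg _)
      have e : s 0 = σ := by
        rw [hs]
        simp
      rw [e]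
      nlinarith [sq_nonneg σ]
  have hK' : 2 * (Real.sqrt (nuc N θ) * s K ^ 2 * siz m y) ≤ |om m Jo x y| := by
    rw [hs]
    exact hK
  have h3 : |om m Jo x y| ≤ 2 * C * ∑ k ∈ range (K + 1), s k ^ 2 * Real.sqrt (T k) := by
    linarith
  have h4 : (∑ k ∈ range (K + 1), s k ^ 2 * Real.sqrt (T k)) ^ 2 ≤
      (∑ k ∈ range (K + 1), s k) * ∑ k ∈ range (K + 1), s k ^ 3 * T k := by
    refine Finset.sum_sq_le_sum_mul_sum_of_sq_le_mul _ (fun k _ => (hs0 k).le)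
      (fun k _ => mul_nonneg (pow_nonneg (hs0 k).le 3) (hT0 k)) fun k _ => ?_
    rw [mul_pow, Real.sq_sqrt (hT0 k)]
    exact le_of_eq (by ring)
  have h5 : ∑ k ∈ range (K + 1), s k ≤ σ * (1 - κ)⁻¹ := by
    rw [hs]
    simp only
    rw [← Finset.mul_sum]
    exact mul_le_mul_of_nonneg_left (geom_le hκ0.le hκ1 _) hσ.le
  have h6 : 0 ≤ ∑ k ∈ range (K + 1), s k ^ 3 * T k := Finset.sum_nonneg fun k _ =>
    mul_nonneg (pow_nonneg (hs0 k).le 3) (hT0 k)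
  have h7 : 0 ≤ ∑ k ∈ range (K + 1), s k ^ 2 * Real.sqrt (T k) := Finset.sum_nonneg fun k _ =>
    mul_nonneg (sq_nonneg _) (Real.sqrt_nonneg _)
  have h8 : om m Jo x y ^ 2 ≤ (2 * C * ∑ k ∈ range (K + 1), s k ^ 2 * Real.sqrt (T k)) ^ 2 := by
    rw [← sq_abs]
    exact pow_le_pow_left₀ (abs_nonneg _) h3 2
  calc om m Jo x y ^ 2 ≤ (2 * C * ∑ k ∈ range (K + 1), s k ^ 2 * Real.sqrt (T k)) ^ 2 := h8
    _ = 4 * C ^ 2 * (∑ k ∈ range (K + 1), s k ^ 2 * Real.sqrt (T k)) ^ 2 := by ring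
    _ ≤ 4 * C ^ 2 * ((∑ k ∈ range (K + 1), s k) * ∑ k ∈ range (K + 1), s k ^ 3 * T k) :=
        mul_le_mul_of_nonneg_left h4 (by positivity)
    _ ≤ 4 * C ^ 2 * ((σ * (1 - κ)⁻¹) * ∑ k ∈ range (K + 1), s k ^ 3 * T k) :=
        mul_le_mul_of_nonneg_left (mul_le_mul_of_nonneg_right h5 h6) (by positivity)
    _ = 4 * C ^ 2 * (σ * (1 - κ)⁻¹) * ∑ k ∈ range (K + 1), s k ^ 3 * T k := (mul_assoc _ _ _).symm
    _ = _ := by rw [hT, hs, hC]

end Pool.Agent.K6.H53.NB
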