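import Pool.Agent.K6.H53.NB.Inv
import Pool.Agent.K6.H53.NB.Ang

set_option autoImplicit false
set_option linter.unusedSectionVars false

/-!
# Growth of the size, and the virial, along motions whose dilation is small compared with the size
-/

namespace Pool.Agent.K6.H53.NB

open Set Filter Topology Pool.Agent.Y516.NW

variable {N : ℕ} {V : Type*} [NormedAddCommGroup V] [InnerProductSpace ℝ V]

theorem pr_smul (Γ : E3 →L[ℝ] V) (c : ℝ) (v : Cfg N) :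
    pr Γ (fun i => c • v i) = fun i => c • pr Γ v i := by
  funext i
  simp [pr]

/-- forces, projected -/
theorem dil_acc (m : Fin N → ℝ) (Γ : E3 →L[ℝ] V) (q : Cfg N) :
    dil m (pr Γ q) (pr Γ (acc m q)) =
      -∑ i, ∑ j, m i * m j * ‖Γ (q i - q j)‖ ^ 2 / ‖q i - q j‖ ^ 3 / 2 := by
  have e1 : dil m (pr Γ q) (pr Γ (acc m q)) =
      ∑ i, ∑ j, m i * m j / ‖q j - q i‖ ^ 3 * inner ℝ (Γ (q i)) (Γ (q j - q i)) := by
    unfold dil pr acc
    refine Finset.sum_congr rfl fun i _ => ?_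
    rw [map_sum, inner_sum, Finset.mul_sum]
    refine Finset.sum_congr rfl fun j _ => ?_
    rw [map_smul, inner_smul_right]
    ring
  have e2 : ∑ i, ∑ j, m i * m j / ‖q j - q i‖ ^ 3 * inner ℝ (Γ (q i)) (Γ (q j - q i)) =
      ∑ i, ∑ j, m j * m i / ‖q i - q j‖ ^ 3 * inner ℝ (Γ (q j)) (Γ (q i - q j)) :=
    Finset.sum_comm
  have e3 : ∑ i, ∑ j, m i * m j / ‖q j - q i‖ ^ 3 * inner ℝ (Γ (q i)) (Γ (q j - q i)) +
      ∑ i, ∑ j, m j * m i / ‖q i - q j‖ ^ 3 * inner ℝ (Γ (q j)) (Γ (q i - q j)) =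
      2 * -∑ i, ∑ j, m i * m j * ‖Γ (q i - q j)‖ ^ 2 / ‖q i - q j‖ ^ 3 / 2 := by
    rw [← Finset.sum_add_distrib, ← Finset.sum_neg_distrib, Finset.mul_sum]
    refine Finset.sum_congr rfl fun i _ => ?_
    rw [← Finset.sum_add_distrib, ← Finset.sum_neg_distrib, Finset.mul_sum]
    refine Finset.sum_congr rfl fun j _ => ?_
    have h1 : inner ℝ (Γ (q i)) (Γ (q j - q i)) + inner ℝ (Γ (q j)) (Γ (q i - q j)) =
        -‖Γ (q i - q j)‖ ^ 2 := by
      rw [← real_inner_self_eq_norm_sq]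
      simp only [map_sub, inner_sub_left, inner_sub_right]
      ring
    rw [norm_sub_rev (q j) (q i), mul_comm (m j) (m i), ← mul_add, h1]
    ring
  rw [e1]
  linarith [e2, e3]

/-- virial of a phase point -/
noncomputable def Vr (m : Fin N → ℝ) (Γ : E3 →L[ℝ] V) (y : Cfg N × Cfg N) : ℝ :=
  ∑ i, ‖Γ (y.2 i)‖ ^ 2 / m i -
    ∑ i, ∑ j, m i * m j * ‖Γ (y.1 i - y.1 j)‖ ^ 2 / ‖y.1 i - y.1 j‖ ^ 3 / 2

theorem Dl_hasDerivAt {m : Fin N → ℝ} (hm : ∀ i, 0 < m i) {E : ℝ} {ψ : Cfg N × Cfg N → ℝ}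
    {φ : ℝ → Cfg N × Cfg N → Cfg N × Cfg N} (hφ : IsFl m E ψ φ) {x : Cfg N × Cfg N}
    (hx : x ∈ Surf m E) (Γ : E3 →L[ℝ] V) (t : ℝ) :
    HasDerivAt (fun s => Dl m Γ (φ s x)) (ψ (φ t x) * Vr m Γ (φ t x)) t := by
  obtain ⟨τ, hmot⟩ := mot_of_flow m hm E ψ φ hφ x hx
  have h := dil_hasDerivAt m (fun s => pr Γ (φ s x).1) (fun s => pr Γ (vel m (φ s x)))
    (fun i => ψ (φ t x) • pr Γ (vel m (φ t x)) i)
    (fun i => ψ (φ t x) • pr Γ (acc m (φ t x).1) i) t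
    (fun i => by
      have h1 := Γ.hasFDerivAt.comp_hasDerivAt t (hmot.qd t i)
      rw [map_smul] at h1
      exact h1)
    (fun i => by
      have h1 := Γ.hasFDerivAt.comp_hasDerivAt t (hmot.vd t i)
      rw [map_smul] at h1
      exact h1)
  refine h.congr_deriv ?_
  rw [dil_smul_right, dil_comm m (fun i => ψ (φ t x) • pr Γ (vel m (φ t x)) i), dil_smul_right,
    dil_acc, dil_self]
  unfold Vr iner
  have e : ∑ i, m i * ‖pr Γ (vel m (φ t x)) i‖ ^ 2 = ∑ i, ‖Γ ((φ t x).2 i)‖ ^ 2 / m i := by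
    refine Finset.sum_congr rfl fun i _ => ?_
    unfold pr vel
    rw [map_smul, norm_smul, mul_pow, norm_inv, Real.norm_of_nonneg (hm i).le]
    have := (hm i).ne'
    field_simp
  rw [e]
  ring

theorem In_hasDerivAt {m : Fin N → ℝ} (hm : ∀ i, 0 < m i) {E : ℝ} {ψ : Cfg N × Cfg N → ℝ}
    {φ : ℝ → Cfg N × Cfg N → Cfg N × Cfg N} (hφ : IsFl m E ψ φ) {x : Cfg N × Cfg N}
    (hx : x ∈ Surf m E) (Γ : E3 →L[ℝ] V) (t : ℝ) :
    HasDerivAt (fun s => iner m (pr Γ (φ s x).1)) (2 * (ψ (φ t x) * Dl m Γ (φ t x))) t := by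
  obtain ⟨τ, hmot⟩ := mot_of_flow m hm E ψ φ hφ x hx
  have h := iner_hasDerivAt m (fun s => pr Γ (φ s x).1)
    (fun i => ψ (φ t x) • pr Γ (vel m (φ t x)) i) t
    (fun i => by
      have h1 := Γ.hasFDerivAt.comp_hasDerivAt t (hmot.qd t i)
      rw [map_smul] at h1
      exact h1)
  refine h.congr_deriv ?_
  rw [dil_smul_right]
  rfl

theorem abs_le_rpow {D I c : ℝ} (hc : 0 ≤ c) (hI : 0 ≤ I) (h : D ^ 4 ≤ c ^ 4 * I) :
    |D| ≤ c * I ^ (1 / 4 : ℝ) := by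
  have h1 : 0 ≤ I ^ (1 / 4 : ℝ) := Real.rpow_nonneg hI _
  refine le_of_pow_le_pow_left₀ (show (4:ℕ) ≠ 0 by norm_num) (by positivity) ?_
  have e1 : |D| ^ 4 = D ^ 4 := by
    rw [show (4:ℕ) = 2 * 2 by norm_num, pow_mul, pow_mul, sq_abs]
  have e2 : (I ^ (1 / 4 : ℝ)) ^ 4 = I := by
    rw [← Real.rpow_natCast, ← Real.rpow_mul hI]
    norm_num
  rw [e1, mul_pow, e2]
  exact h

/-- growth of the size -/
theorem growth {I D c T : ℝ → ℝ} {k : ℝ} (hk : 0 ≤ k) (hI0 : ∀ t, 0 ≤ I t) (hc : ∀ t, 0 < c t)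
    (hI : ∀ t, HasDerivAt I (2 * (c t * D t)) t) (hT : ∀ t, HasDerivAt T (c t) t)
    (h : ∀ t, |D t| ≤ k * (I t) ^ (1 / 4 : ℝ)) (t : ℝ) :
    |I t ^ (3 / 4 : ℝ) - I 0 ^ (3 / 4 : ℝ)| ≤ 3 / 2 * k * |T t - T 0| := by
  -- perturbed functions
  have key : ∀ ε : ℝ, 0 < ε →
      |(I t + ε) ^ (3 / 4 : ℝ) - (I 0 + ε) ^ (3 / 4 : ℝ)| ≤ 3 / 2 * k * |T t - T 0| := by
    intro ε hε
    have hpos : ∀ s, 0 < I s + ε := fun s => by linarith [hI0 s]
    have hd : ∀ s, HasDerivAt (fun s => (I s + ε) ^ (3 / 4 : ℝ))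
        (2 * (c s * D s) * (3 / 4) * (I s + ε) ^ (3 / 4 - 1 : ℝ)) s := fun s =>
      ((hI s).add_const ε).rpow_const (Or.inl (hpos s).ne')
    have hb : ∀ s, |2 * (c s * D s) * (3 / 4) * (I s + ε) ^ (3 / 4 - 1 : ℝ)| ≤
        3 / 2 * k * c s := by
      intro s
      have h1 : (I s + ε) ^ (3 / 4 - 1 : ℝ) = ((I s + ε) ^ (1 / 4 : ℝ))⁻¹ := by
        rw [← Real.rpow_neg (hpos s).le]
        norm_num
      have h2 : 0 < (I s + ε) ^ (1 / 4 : ℝ) := Real.rpow_pos_of_pos (hpos s) _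
      have h3 : (I s) ^ (1 / 4 : ℝ) ≤ (I s + ε) ^ (1 / 4 : ℝ) :=
        Real.rpow_le_rpow (hI0 s) (by linarith) (by norm_num)
      have h4 : |D s| ≤ k * (I s + ε) ^ (1 / 4 : ℝ) :=
        (h s).trans (mul_le_mul_of_nonneg_left h3 hk)
      rw [h1, ← div_eq_mul_inv, abs_div, abs_of_pos h2, div_le_iff₀ h2]
      have h5 : |2 * (c s * D s) * (3 / 4)| = 3 / 2 * c s * |D s| := by
        rw [show 2 * (c s * D s) * (3 / 4) = 3 / 2 * c s * D s by ring, abs_mul,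
          abs_of_pos (by have := hc s; positivity)]
      rw [h5]
      calc 3 / 2 * c s * |D s| ≤ 3 / 2 * c s * (k * (I s + ε) ^ (1 / 4 : ℝ)) :=
            mul_le_mul_of_nonneg_left h4 (by have := hc s; positivity)
        _ = _ := by ring
    have hm1 : Monotone fun s => 3 / 2 * k * T s - (I s + ε) ^ (3 / 4 : ℝ) := by
      refine monotone_of_deriv_nonneg
        (fun s => (((hT s).const_mul (3 / 2 * k)).fun_sub (hd s)).differentiableAt) fun s => ?_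
      rw [(((hT s).const_mul (3 / 2 * k)).fun_sub (hd s)).deriv]
      have := (abs_le.1 (hb s)).2
      linarith
    have hm2 : Monotone fun s => 3 / 2 * k * T s + (I s + ε) ^ (3 / 4 : ℝ) := by
      refine monotone_of_deriv_nonneg
        (fun s => (((hT s).const_mul (3 / 2 * k)).fun_add (hd s)).differentiableAt) fun s => ?_
      rw [(((hT s).const_mul (3 / 2 * k)).fun_add (hd s)).deriv]
      have := (abs_le.1 (hb s)).1
      linarith
    have hTm : Monotone T := monotone_of_deriv_nonneg (fun s => (hT s).differentiableAt)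
      fun s => by rw [(hT s).deriv]; exact (hc s).le
    rcases le_total 0 t with ht | ht
    · have h1 := hm1 ht
      have h2 := hm2 ht
      simp only at h1 h2
      rw [abs_of_nonneg (sub_nonneg.2 (hTm ht)), abs_le]
      constructor <;> nlinarith
    · have h1 := hm1 ht
      have h2 := hm2 ht
      simp only at h1 h2
      rw [abs_of_nonpos (sub_nonpos.2 (hTm ht)), abs_le]
      constructor <;> nlinarith
  -- limit
  have hlim : Tendsto (fun ε : ℝ => |(I t + ε) ^ (3 / 4 : ℝ) - (I 0 + ε) ^ (3 / 4 : ℝ)|)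
      (𝓝[>] 0) (𝓝 |(I t + 0) ^ (3 / 4 : ℝ) - (I 0 + 0) ^ (3 / 4 : ℝ)|) := by
    refine Tendsto.mono_left ?_ nhdsWithin_le_nhds
    have h1 : ∀ a : ℝ, ContinuousAt (fun ε : ℝ => (a + ε) ^ (3 / 4 : ℝ)) 0 := fun a =>
      (continuousAt_const.add continuousAt_id).rpow_const (Or.inr (by norm_num))
    exact (((h1 (I t)).sub (h1 (I 0))).abs).tendsto
  rw [add_zero, add_zero] at hlim
  exact le_of_tendsto hlim (eventually_nhdsWithin_of_forall fun ε hε => key ε hε)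

end Pool.Agent.K6.H53.NB
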