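import Pool.Agent.K6.H53.NB.Conv

set_option autoImplicit false
set_option linter.unusedSectionVars false

/-!
# Conservation of the angular momentum, and bounds of the size on a window
-/

namespace Pool.Agent.K6.H53.NB

open Finset Set Filter Topology

variable {N : ℕ} {V : Type*} [NormedAddCommGroup V] [InnerProductSpace ℝ V]

theorem om_accel (m : Fin N → ℝ) {Jo : V →L[ℝ] V} (hJ : Skew Jo) (k : Fin N → Fin N → ℝ)
    (ks : ∀ i j, k i j = k j i) (x : Fin N → V) : om m Jo x (accel m k x) = 0 := by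
  have e1 : om m Jo x (accel m k x) =
      ∑ i, ∑ j, m i * m j * k i j * inner ℝ (Jo (x i)) (x j) := by
    unfold om dil accel
    refine Finset.sum_congr rfl fun i _ => ?_
    rw [inner_sum, Finset.mul_sum]
    refine Finset.sum_congr rfl fun j _ => ?_
    rw [inner_smul_right, inner_sub_right, hJ.sk]
    ring
  have e2 : ∑ i, ∑ j, m i * m j * k i j * inner ℝ (Jo (x i)) (x j) =
      ∑ i, ∑ j, m j * m i * k j i * inner ℝ (Jo (x j)) (x i) := Finset.sum_comm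
  have e3 : ∑ i, ∑ j, m j * m i * k j i * inner ℝ (Jo (x j)) (x i) =
      -∑ i, ∑ j, m i * m j * k i j * inner ℝ (Jo (x i)) (x j) := by
    rw [← Finset.sum_neg_distrib]
    refine Finset.sum_congr rfl fun i _ => ?_
    rw [← Finset.sum_neg_distrib]
    refine Finset.sum_congr rfl fun j _ => ?_
    rw [hJ.symm (x j), ks j i]
    ring
  rw [e1]
  linarith

theorem om_hasDerivAt {m : Fin N → ℝ} {J : Set ℝ} {x y : ℝ → Fin N → V}
    {k : ℝ → Fin N → Fin N → ℝ} (hs : Sol m J x y k) {Jo : V →L[ℝ] V} (hJ : Skew Jo) {t : ℝ}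
    (ht : t ∈ J) : HasDerivAt (fun s => om m Jo (x s) (y s)) 0 t := by
  have h := dil_hasDerivAt m (fun s i => Jo (x s i)) y (fun i => Jo (y t i)) _ t
    (fun i => Jo.hasFDerivAt.comp_hasDerivAt t (hs.xd t ht i)) (hs.yd t ht)
  refine h.congr_deriv ?_
  have h1 := om_accel m hJ (k t) (hs.ks t ht) (x t)
  have h2 := om_self hJ (y t) (m := m)
  unfold om at h1 h2
  rw [h1, h2, add_zero]

/-- conservation of the angular momentum -/
theorem om_const {m : Fin N → ℝ} {J : Set ℝ} {x y : ℝ → Fin N → V}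
    {k : ℝ → Fin N → Fin N → ℝ} (hs : Sol m J x y k) {Jo : V →L[ℝ] V} (hJ : Skew Jo) {a b : ℝ}
    (hIJ : Icc a b ⊆ J) : ∀ t ∈ Icc a b, om m Jo (x t) (y t) = om m Jo (x a) (y a) := by
  intro t ht
  have h := constant_of_has_deriv_right_zero (f := fun s => om m Jo (x s) (y s)) (a := a) (b := b)
    (fun s hs1 => (om_hasDerivAt hs hJ (hIJ hs1)).continuousAt.continuousWithinAt)
    (fun s hs1 => (om_hasDerivAt hs hJ (hIJ (Ico_subset_Icc_self hs1))).hasDerivWithinAt)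
  exact h t ht

/-- upper bound of the derivative of the size from its value at the end -/
theorem sizd_le_of_end {m : Fin N → ℝ} {μ M θ : ℝ} (hms : Mass m μ M θ) {J : Set ℝ}
    {x y : ℝ → Fin N → V} {k : ℝ → Fin N → Fin N → ℝ} (hs : Sol m J x y k)
    {t0 t1 σ c : ℝ} (h01 : t0 ≤ t1) (hJ : Icc t0 t1 ⊆ J) (hσ : 0 < σ) (hc : 0 ≤ c)
    (hcK : cstK N M θ ≤ c ^ 4) (h0 : σ ^ 2 / 2 ≤ siz m (x t0))
    (h1 : sizd m (x t1) (y t1) ≤ 2 * c / σ) : sizd m (x t0) (y t0) ≤ 4 * c / σ := by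
  have hp := hms.pos
  have hpos : 0 < siz m (x t0) := by
    have : 0 < σ ^ 2 / 2 := by positivity
    linarith
  rcases le_or_gt (dil m (x t0) (y t0)) 0 with hD | hD
  · have h2 : sizd m (x t0) (y t0) ≤ 0 := div_nonpos_of_nonpos_of_nonneg hD hpos.le
    have : 0 ≤ 4 * c / σ := by positivity
    linarith
  rcases lt_or_ge (cstK N M θ * iner m (x t0)) (dil m (x t0) (y t0) ^ 4) with hK | hK
  · have h2 := (escape hms hs hJ hD hK t1 (right_mem_Icc.2 h01)).2
    have h3 : 4 * c / σ = 2 * (2 * c / σ) := by ring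
    linarith
  · have h2 : dil m (x t0) (y t0) = sizd m (x t0) (y t0) * siz m (x t0) := by
      unfold sizd
      rw [div_mul_cancel₀ _ hpos.ne']
    obtain ⟨v, hv⟩ : ∃ v, v = sizd m (x t0) (y t0) := ⟨_, rfl⟩
    obtain ⟨r, hr⟩ : ∃ r, r = siz m (x t0) := ⟨_, rfl⟩
    rw [h2, ← siz_sq hp, ← hv, ← hr] at hK
    rw [← hr] at h0 hpos
    rw [← hv]
    have hv0 : 0 < v := by
      rw [hv]
      exact div_pos hD (by rw [← hr]; exact hpos)
    have h3 : v ^ 4 * r ^ 2 ≤ c ^ 4 := by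
      have h4 : r ^ 2 * (v ^ 4 * r ^ 2) ≤ r ^ 2 * c ^ 4 := by
        calc r ^ 2 * (v ^ 4 * r ^ 2) = (v * r) ^ 4 := by ring
          _ ≤ cstK N M θ * r ^ 2 := hK
          _ ≤ c ^ 4 * r ^ 2 := mul_le_mul_of_nonneg_right hcK (sq_nonneg r)
          _ = _ := by ring
      exact le_of_mul_le_mul_left h4 (by positivity)
    have h4 : v ^ 4 * (σ ^ 2 / 2) ^ 2 ≤ c ^ 4 :=
      (mul_le_mul_of_nonneg_left (pow_le_pow_left₀ (by positivity) h0 2) (by positivity)).trans h3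
    rw [le_div_iff₀ hσ]
    refine le_of_pow_le_pow_left₀ (show (4:ℕ) ≠ 0 by norm_num) (by positivity) ?_
    have h5 : 0 ≤ c ^ 4 := by positivity
    calc (v * σ) ^ 4 = 4 * (v ^ 4 * (σ ^ 2 / 2) ^ 2) := by ring
      _ ≤ 4 * c ^ 4 := by linarith
      _ ≤ (4 * c) ^ 4 := by nlinarith

/-- the size on a window -/
theorem window {m : Fin N → ℝ} {J : Set ℝ}
    {x y : ℝ → Fin N → V} {k : ℝ → Fin N → Fin N → ℝ} (hs : Sol m J x y k)
    {t1 σ c : ℝ} (h01 : 0 ≤ t1) (hJ : Icc 0 t1 ⊆ J) (hσ : 0 < σ) (hc : 0 < c)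
    (ht1 : t1 ≤ σ ^ 3 / (16 * c))
    (h0 : 9 / 10 * σ ^ 2 ≤ siz m (x 0)) (h0' : siz m (x 0) ≤ 11 / 10 * σ ^ 2)
    (h1 : ∀ t ∈ Icc 0 t1, σ ^ 2 / 2 ≤ siz m (x t) → |sizd m (x t) (y t)| ≤ 4 * c / σ) :
    ∀ t ∈ Icc 0 t1, σ ^ 2 / 2 ≤ siz m (x t) ∧ siz m (x t) ≤ 2 * σ ^ 2 := by
  have hσ2 : 0 < σ ^ 2 := by positivity
  -- the bound as long as the size is at least `σ ^ 2 / 2`
  have key : ∀ u ∈ Icc 0 t1, (∀ t ∈ Icc 0 u, σ ^ 2 / 2 ≤ siz m (x t)) →
      |siz m (x u) - siz m (x 0)| ≤ σ ^ 2 / 4 := by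
    intro u hu hall
    have hsub : Icc 0 u ⊆ Icc 0 t1 := Icc_subset_Icc_right hu.2
    have h2 : ∀ t ∈ Icc 0 u, HasDerivWithinAt (fun s => siz m (x s)) (sizd m (x t) (y t))
        (Icc 0 u) t := fun t ht => (siz_hasDerivAt m x (y t) t (hs.xd t (hJ (hsub ht)))
          (Real.sqrt_pos.1 (lt_of_lt_of_le (by positivity) (hall t ht)))).hasDerivWithinAt
    have h3 := (convex_Icc (0:ℝ) u).norm_image_sub_le_of_norm_hasDerivWithin_le (C := 4 * c / σ) h2
      (fun t ht => by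
        rw [Real.norm_eq_abs]
        exact h1 t (hsub ht) (hall t ht)) (left_mem_Icc.2 hu.1) (right_mem_Icc.2 hu.1)
    rw [Real.norm_eq_abs, Real.norm_eq_abs, sub_zero, abs_of_nonneg hu.1] at h3
    have h4 : 4 * c / σ * u ≤ 4 * c / σ * (σ ^ 3 / (16 * c)) :=
      mul_le_mul_of_nonneg_left (hu.2.trans ht1) (by positivity)
    have h5 : 4 * c / σ * (σ ^ 3 / (16 * c)) = σ ^ 2 / 4 := by
      field_simp
      ring
    linarith
  have hcont : ∀ t ∈ Icc 0 t1, ContinuousAt (fun s => siz m (x s)) t := fun t ht =>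
    siz_cont hs (hJ ht)
  have hlow : ∀ t ∈ Icc 0 t1, σ ^ 2 / 2 < siz m (x t) := by
    by_contra hcon
    push Not at hcon
    obtain ⟨s, hs1, hs2⟩ := hcon
    let C : Set ℝ := {t | t ∈ Icc 0 s ∧ siz m (x t) ≤ σ ^ 2 / 2}
    have hsub : Icc 0 s ⊆ Icc 0 t1 := Icc_subset_Icc_right hs1.2
    have hclosed : IsClosed C := by
      have h1 : ContinuousOn (fun t => siz m (x t)) (Icc 0 s) := fun t ht =>
        (hcont t (hsub ht)).continuousWithinAt
      exact h1.preimage_isClosed_of_isClosed isClosed_Icc (isClosed_Iic (a := σ ^ 2 / 2))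
    have hne : C.Nonempty := ⟨s, ⟨hs1.1, le_rfl⟩, hs2⟩
    have hbdd : BddBelow C := ⟨0, fun t ht => ht.1.1⟩
    have hu := hclosed.csInf_mem hne hbdd
    set u := sInf C with hudef
    have hu0 : 0 < u := by
      refine lt_of_le_of_ne hu.1.1 fun he => ?_
      have := hu.2
      rw [← he] at this
      linarith
    have hbefore : ∀ t ∈ Ico 0 u, σ ^ 2 / 2 < siz m (x t) := by
      intro t ht
      by_contra hn
      push Not at hn
      have : t ∈ C := ⟨⟨ht.1, ht.2.le.trans hu.1.2⟩, hn⟩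
      have := csInf_le hbdd this
      linarith [ht.2]
    have hu1 : u ∈ Icc 0 t1 := hsub hu.1
    have hhu : σ ^ 2 / 2 ≤ siz m (x u) :=
      left_limit (f := fun s => siz m (x s)) hu0 (hcont u hu1) fun t ht => (hbefore t ht).le
    have hall : ∀ t ∈ Icc 0 u, σ ^ 2 / 2 ≤ siz m (x t) := by
      intro t ht
      rcases eq_or_lt_of_le ht.2 with he | hlt
      · rw [he]
        exact hhu
      · exact (hbefore t ⟨ht.1, hlt⟩).le
    have h2 := abs_le.1 (key u hu1 hall)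
    have h3 := hu.2
    linarith [h2.1]
  intro t ht
  refine ⟨(hlow t ht).le, ?_⟩
  have h2 := abs_le.1 (key t ht fun s hs1 => (hlow s ⟨hs1.1, hs1.2.trans ht.2⟩).le)
  linarith [h2.2]

end Pool.Agent.K6.H53.NB
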